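import Pool.Agent.TH794.QE.FinA

/-! Comparison of the resolvents for two (possibly unbounded) potentials. -/

set_option autoImplicit false
set_option linter.unusedSectionVars false

open scoped BigOperators
open MeasureTheory

namespace Pool.Agent.Q204.GA

open Pool.Agent.W788.LD.Spec (S symm summ_shift summ_mul shiftsum)
open Pool.Agent.H4R2.LO (Zd)
open Pool.Agent.TH794.QE (Rs)

variable {d : ℕ}

theorem im_symm (D : Zd d → ℂ) (hD : Summable fun x => ‖D x‖ ^ 2) :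
    HasSum (fun x => ((starRingEnd ℂ) (D x) * S D x).im) 0 := by
  obtain ⟨s1, s2, e1⟩ := symm D D hD hD
  have h1 : HasSum (fun x => ((starRingEnd ℂ) (D x) * S D x).im)
      (∑' x, (starRingEnd ℂ) (D x) * S D x).im := Complex.hasSum_im s1.hasSum
  have h2 : HasSum (fun x => ((starRingEnd ℂ) (S D x) * D x).im)
      (∑' x, (starRingEnd ℂ) (S D x) * D x).im := Complex.hasSum_im s2.hasSum
  have h3 : ∀ x, ((starRingEnd ℂ) (S D x) * D x).im = -((starRingEnd ℂ) (D x) * S D x).im := by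
    intro x
    simp only [Complex.mul_im, Complex.conj_re, Complex.conj_im]
    ring
  simp only [h3] at h2
  have h4 := h2.unique h1.neg
  rw [← e1] at h4
  have h5 : (∑' x, (starRingEnd ℂ) (D x) * S D x).im = 0 := by linarith
  rw [h5] at h1
  exact h1

theorem pw (V : ℝ) (e t : ℝ) (D s f : ℂ)
    (h : -s + (V : ℂ) * D - ((e : ℂ) + (t : ℂ) * Complex.I) * D = f) :
    t * ‖D‖ ^ 2 = -((starRingEnd ℂ) D * f).im - ((starRingEnd ℂ) D * s).im := by
  rw [← h, ← Complex.normSq_eq_norm_sq, Complex.normSq_apply]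
  simp only [Complex.mul_im, Complex.mul_re, Complex.conj_re, Complex.conj_im, Complex.sub_re,
    Complex.sub_im, Complex.add_re, Complex.add_im, Complex.neg_re, Complex.neg_im,
    Complex.ofReal_re, Complex.ofReal_im, Complex.I_re, Complex.I_im]
  ring

/-- the norm of the resolvent -/
theorem im_bound (V : Zd d → ℝ) (e t : ℝ) (ht : 0 < t) (D f : Zd d → ℂ)
    (hD : Summable fun x => ‖D x‖ ^ 2) (hf : Summable fun x => ‖f x‖ ^ 2)
    (h : ∀ x, -S D x + (V x : ℂ) * D x - ((e : ℂ) + (t : ℂ) * Complex.I) * D x = f x) :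
    t ^ 2 * ∑' x, ‖D x‖ ^ 2 ≤ ∑' x, ‖f x‖ ^ 2 := by
  have h1 := im_symm D hD
  have h2 : HasSum (fun x => t * ‖D x‖ ^ 2) (t * ∑' x, ‖D x‖ ^ 2) := hD.hasSum.mul_left t
  have h3 : HasSum (fun x => t / 2 * ‖D x‖ ^ 2 + 1 / (2 * t) * ‖f x‖ ^ 2)
      (t / 2 * ∑' x, ‖D x‖ ^ 2 + 1 / (2 * t) * ∑' x, ‖f x‖ ^ 2) :=
    (hD.hasSum.mul_left _).add (hf.hasSum.mul_left _)
  have h4 : ∀ x, t * ‖D x‖ ^ 2 + ((starRingEnd ℂ) (D x) * S D x).im ≤
      t / 2 * ‖D x‖ ^ 2 + 1 / (2 * t) * ‖f x‖ ^ 2 := by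
    intro x
    have h5 := pw (V x) e t (D x) (S D x) (f x) (h x)
    have h6 : -((starRingEnd ℂ) (D x) * f x).im ≤ ‖D x‖ * ‖f x‖ := by
      have := Complex.abs_im_le_norm ((starRingEnd ℂ) (D x) * f x)
      rw [norm_mul, Complex.norm_conj] at this
      linarith [neg_abs_le (((starRingEnd ℂ) (D x) * f x).im)]
    have h7 : ‖D x‖ * ‖f x‖ ≤ t / 2 * ‖D x‖ ^ 2 + 1 / (2 * t) * ‖f x‖ ^ 2 := by
      have h8 : 0 ≤ (t * ‖D x‖ - ‖f x‖) ^ 2 / (2 * t) := by positivity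
      have h9 : (t * ‖D x‖ - ‖f x‖) ^ 2 / (2 * t) =
          t / 2 * ‖D x‖ ^ 2 + 1 / (2 * t) * ‖f x‖ ^ 2 - ‖D x‖ * ‖f x‖ := by
        field_simp
        ring
      linarith
    linarith
  have h5 := hasSum_le h4 (h2.add h1) h3
  rw [add_zero] at h5
  have h6 : t / 2 * ∑' x, ‖D x‖ ^ 2 ≤ 1 / (2 * t) * ∑' x, ‖f x‖ ^ 2 := by linarith
  have h7 := mul_le_mul_of_nonneg_left h6 (show 0 ≤ 2 * t by positivity)
  have e1 : 2 * t * (t / 2 * ∑' x, ‖D x‖ ^ 2) = t ^ 2 * ∑' x, ‖D x‖ ^ 2 := by ring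
  have e2 : 2 * t * (1 / (2 * t) * ∑' x, ‖f x‖ ^ 2) = ∑' x, ‖f x‖ ^ 2 := by field_simp
  rw [e1, e2] at h7
  exact h7

theorem single_sum (a : Zd d) : HasSum (fun x : Zd d => ‖if x = a then (1 : ℂ) else 0‖ ^ 2) 1 := by
  have := hasSum_single (f := fun x : Zd d => ‖if x = a then (1 : ℂ) else 0‖ ^ 2) a
    (fun x hx => by
      rw [if_neg hx]
      simp)
  simpa using this

theorem rs_norm {V : Zd d → ℝ} {a : Zd d} {e t : ℝ} {u : Zd d → ℂ} (ht : 0 < t)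
    (h : Rs d V a e t u) : ∑' x, ‖u x‖ ^ 2 ≤ (t⁻¹) ^ 2 := by
  have h1 := im_bound V e t ht u _ h.sq (single_sum a).summable h.eq
  rw [(single_sum a).tsum_eq] at h1
  rw [inv_pow, ← one_div, le_div_iff₀ (by positivity)]
  linarith

theorem rs_pt {V : Zd d → ℝ} {a : Zd d} {e t : ℝ} {u : Zd d → ℂ} (ht : 0 < t)
    (h : Rs d V a e t u) (x : Zd d) : ‖u x‖ ≤ t⁻¹ := by
  have h1 := (h.sq.le_tsum x fun y _ => sq_nonneg _).trans (rs_norm ht h)
  exact le_of_sq_le_sq h1 (by positivity)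

/-- the weighted norm of the resolvent -/
theorem weighted {V : Zd d → ℝ} {a : Zd d} {e t : ℝ} {u : Zd d → ℂ} (ht : 0 < t)
    (h : Rs d V a e t u) (ρ : Zd d → ℝ) (M q : ℝ) (hρ0 : ∀ x, 0 < ρ x) (hρM : ∀ x, ρ x ≤ M)
    (hq0 : 0 ≤ q) (hq : ∀ x i, |ρ x - ρ (x + Pi.single i 1)| ≤ q * ρ (x + Pi.single i 1) ∧
      |ρ x - ρ (x - Pi.single i 1)| ≤ q * ρ (x - Pi.single i 1)) (hqt : 2 * d * q ≤ t / 2) :
    (Summable fun x => (ρ x * ‖u x‖) ^ 2) ∧
    ∑' x, (ρ x * ‖u x‖) ^ 2 ≤ 2 / t * (ρ a ^ 2 * ‖u a‖) := by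
  obtain ⟨v, hv⟩ : ∃ v : Zd d → ℂ, v = fun x => (ρ x : ℂ) * u x := ⟨_, rfl⟩
  have hvx : ∀ x, v x = (ρ x : ℂ) * u x := fun x => by rw [hv]
  have hvn : ∀ x, ‖v x‖ = ρ x * ‖u x‖ := fun x => by
    rw [hvx, norm_mul, Complex.norm_real, Real.norm_of_nonneg (hρ0 x).le]
  have hM0 : 0 ≤ M := (hρ0 0).le.trans (hρM 0)
  have hsv : Summable fun x => ‖v x‖ ^ 2 := by
    refine Summable.of_nonneg_of_le (fun x => sq_nonneg _) (fun x => ?_) (h.sq.mul_left (M ^ 2))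
    rw [hvn, mul_pow]
    have := pow_le_pow_left₀ (hρ0 x).le (hρM x) 2
    gcongr
  have hw : ∀ x, (ρ x * ‖u x‖) ^ 2 = ‖v x‖ ^ 2 := fun x => by rw [hvn]
  simp only [hw]
  refine ⟨hsv, ?_⟩
  -- the commutator
  have hcom : ∀ x, ‖(ρ x : ℂ) * S u x - S v x‖ ≤
      q * ∑ i : Fin d, (‖v (x + Pi.single i 1)‖ + ‖v (x - Pi.single i 1)‖) := by
    intro x
    unfold S
    rw [Finset.mul_sum, ← Finset.sum_sub_distrib, Finset.mul_sum]
    refine (norm_sum_le _ _).trans (Finset.sum_le_sum fun i _ => ?_)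
    rw [hvx, hvx]
    have e1 : (ρ x : ℂ) * (u (x + Pi.single i 1) + u (x - Pi.single i 1)) -
        ((ρ (x + Pi.single i 1) : ℂ) * u (x + Pi.single i 1) +
          (ρ (x - Pi.single i 1) : ℂ) * u (x - Pi.single i 1)) =
        ((ρ x - ρ (x + Pi.single i 1) : ℝ) : ℂ) * u (x + Pi.single i 1) +
          ((ρ x - ρ (x - Pi.single i 1) : ℝ) : ℂ) * u (x - Pi.single i 1) := by
      push_cast
      ring
    rw [e1, norm_mul, norm_mul, Complex.norm_real, Complex.norm_real,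
      Real.norm_of_nonneg (hρ0 _).le, Real.norm_of_nonneg (hρ0 _).le]
    refine (norm_add_le _ _).trans ?_
    rw [norm_mul, norm_mul, Complex.norm_real, Complex.norm_real, Real.norm_eq_abs,
      Real.norm_eq_abs, mul_add]
    obtain ⟨q1, q2⟩ := hq x i
    have n1 := norm_nonneg (u (x + Pi.single i 1))
    have n2 := norm_nonneg (u (x - Pi.single i 1))
    have m1 := mul_le_mul_of_nonneg_right q1 n1
    have m2 := mul_le_mul_of_nonneg_right q2 n2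
    rw [mul_assoc] at m1 m2
    exact add_le_add m1 m2
  have h1 := im_symm v hsv
  have hshift : ∀ e' : Zd d, HasSum (fun x => ‖v (x + e')‖ ^ 2) (∑' x, ‖v x‖ ^ 2) := by
    intro e'
    have h2 := summ_shift v e' hsv
    have h3 : ∑' x, ‖v (x + e')‖ ^ 2 = ∑' x, ‖v x‖ ^ 2 :=
      (Equiv.addRight e').tsum_eq fun x => ‖v x‖ ^ 2
    rw [← h3]
    exact h2.hasSum
  have hR : HasSum (fun x => ∑ i : Fin d, (q / 2 * (‖v x‖ ^ 2 + ‖v (x + Pi.single i 1)‖ ^ 2) +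
      q / 2 * (‖v x‖ ^ 2 + ‖v (x - Pi.single i 1)‖ ^ 2))) (2 * d * q * ∑' x, ‖v x‖ ^ 2) := by
    have h2 : ∀ i ∈ (Finset.univ : Finset (Fin d)),
        HasSum (fun x => q / 2 * (‖v x‖ ^ 2 + ‖v (x + Pi.single i 1)‖ ^ 2) +
          q / 2 * (‖v x‖ ^ 2 + ‖v (x - Pi.single i 1)‖ ^ 2)) (2 * q * ∑' x, ‖v x‖ ^ 2) := by
      intro i _
      have h3 := ((hsv.hasSum.add (hshift (Pi.single i 1))).mul_left (q / 2)).add
        ((hsv.hasSum.add (hshift (-Pi.single i 1))).mul_left (q / 2))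
      simp only [← sub_eq_add_neg] at h3
      have e1 : 2 * q * ∑' x, ‖v x‖ ^ 2 = q / 2 * (∑' x, ‖v x‖ ^ 2 + ∑' x, ‖v x‖ ^ 2) +
          q / 2 * (∑' x, ‖v x‖ ^ 2 + ∑' x, ‖v x‖ ^ 2) := by ring
      rw [e1]
      exact h3
    have h4 := hasSum_sum h2
    simp only [Finset.sum_const, Finset.card_univ, Fintype.card_fin, nsmul_eq_mul] at h4
    convert h4 using 1
    ring
  have hL : HasSum (fun x => t * ‖v x‖ ^ 2) (t * ∑' x, ‖v x‖ ^ 2) := hsv.hasSum.mul_left t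
  have hs : HasSum (fun x : Zd d => if x = a then ρ a ^ 2 * ‖u a‖ else 0) (ρ a ^ 2 * ‖u a‖) := by
    have := hasSum_single (f := fun x : Zd d => if x = a then ρ a ^ 2 * ‖u a‖ else 0) a
      (fun x hx => if_neg hx)
    simpa using this
  have key : ∀ x, t * ‖v x‖ ^ 2 + ((starRingEnd ℂ) (v x) * S v x).im ≤
      (∑ i : Fin d, (q / 2 * (‖v x‖ ^ 2 + ‖v (x + Pi.single i 1)‖ ^ 2) +
      q / 2 * (‖v x‖ ^ 2 + ‖v (x - Pi.single i 1)‖ ^ 2))) +
      (if x = a then ρ a ^ 2 * ‖u a‖ else 0) := by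
    intro x
    have h5 := pw (V x) e t (v x) ((ρ x : ℂ) * S u x) ((ρ x : ℂ) * (if x = a then 1 else 0)) (by
      rw [← h.eq x, hvx]
      ring)
    have h6 : -((starRingEnd ℂ) (v x) * ((ρ x : ℂ) * (if x = a then 1 else 0))).im ≤
        if x = a then ρ a ^ 2 * ‖u a‖ else 0 := by
      by_cases hx : x = a
      · rw [if_pos hx, if_pos hx, mul_one]
        have := Complex.abs_im_le_norm ((starRingEnd ℂ) (v x) * (ρ x : ℂ))
        rw [norm_mul, Complex.norm_conj, hvn, Complex.norm_real,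
          Real.norm_of_nonneg (hρ0 x).le] at this
        have h7 := neg_abs_le (((starRingEnd ℂ) (v x) * (ρ x : ℂ)).im)
        rw [hx] at this h7 ⊢
        have h8 : ρ a * ‖u a‖ * ρ a = ρ a ^ 2 * ‖u a‖ := by ring
        linarith
      · rw [if_neg hx, if_neg hx, mul_zero, mul_zero]
        simp
    have h7 : ((starRingEnd ℂ) (v x) * S v x).im - ((starRingEnd ℂ) (v x) * ((ρ x : ℂ) * S u x)).im ≤
        ∑ i : Fin d, (q / 2 * (‖v x‖ ^ 2 + ‖v (x + Pi.single i 1)‖ ^ 2) +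
        q / 2 * (‖v x‖ ^ 2 + ‖v (x - Pi.single i 1)‖ ^ 2)) := by
      have h8 : ((starRingEnd ℂ) (v x) * S v x).im -
          ((starRingEnd ℂ) (v x) * ((ρ x : ℂ) * S u x)).im =
          -((starRingEnd ℂ) (v x) * ((ρ x : ℂ) * S u x - S v x)).im := by
        rw [← Complex.sub_im, ← Complex.neg_im]
        congr 1
        ring
      rw [h8]
      have h9 := Complex.abs_im_le_norm ((starRingEnd ℂ) (v x) * ((ρ x : ℂ) * S u x - S v x))
      rw [norm_mul, Complex.norm_conj] at h9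
      have h10 := neg_abs_le (((starRingEnd ℂ) (v x) * ((ρ x : ℂ) * S u x - S v x)).im)
      have h11 := mul_le_mul_of_nonneg_left (hcom x) (norm_nonneg (v x))
      have h12 : ‖v x‖ * (q * ∑ i : Fin d, (‖v (x + Pi.single i 1)‖ + ‖v (x - Pi.single i 1)‖)) ≤
          ∑ i : Fin d, (q / 2 * (‖v x‖ ^ 2 + ‖v (x + Pi.single i 1)‖ ^ 2) +
          q / 2 * (‖v x‖ ^ 2 + ‖v (x - Pi.single i 1)‖ ^ 2)) := by
        rw [← mul_assoc, Finset.mul_sum]
        refine Finset.sum_le_sum fun i _ => ?_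
        have a1 : ‖v x‖ * q * ‖v (x + Pi.single i 1)‖ ≤
            q / 2 * (‖v x‖ ^ 2 + ‖v (x + Pi.single i 1)‖ ^ 2) := by
          nlinarith [mul_nonneg hq0 (sq_nonneg (‖v x‖ - ‖v (x + Pi.single i 1)‖))]
        have a2 : ‖v x‖ * q * ‖v (x - Pi.single i 1)‖ ≤
            q / 2 * (‖v x‖ ^ 2 + ‖v (x - Pi.single i 1)‖ ^ 2) := by
          nlinarith [mul_nonneg hq0 (sq_nonneg (‖v x‖ - ‖v (x - Pi.single i 1)‖))]
        rw [mul_add]
        exact add_le_add a1 a2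
      linarith
    linarith
  have h13 := hasSum_le key (hL.add h1) (hR.add hs)
  rw [add_zero] at h13
  obtain ⟨T, hT⟩ : ∃ T, T = ∑' x, ‖v x‖ ^ 2 := ⟨_, rfl⟩
  have hT0 : 0 ≤ T := by rw [hT]; exact tsum_nonneg fun x => sq_nonneg _
  rw [← hT] at h13 ⊢
  have h14 := mul_le_mul_of_nonneg_right hqt hT0
  have h15 : t / 2 * T ≤ ρ a ^ 2 * ‖u a‖ := by linarith
  calc T = 2 / t * (t / 2 * T) := by field_simp
    _ ≤ _ := by gcongr

theorem rho_diff (κ : ℝ) (hκ : 0 ≤ κ) (r s : ℝ) (h : |r - s| ≤ 1) :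
    |Real.exp (κ * r) - Real.exp (κ * s)| ≤ (Real.exp κ - 1) * Real.exp (κ * s) := by
  obtain ⟨h1, h2⟩ := abs_le.1 h
  have e1 : Real.exp (κ * r) = Real.exp (κ * (r - s)) * Real.exp (κ * s) := by
    rw [← Real.exp_add]
    congr 1
    ring
  have e2 : Real.exp (κ * r) - Real.exp (κ * s) =
      (Real.exp (κ * (r - s)) - 1) * Real.exp (κ * s) := by
    rw [e1]
    ring
  rw [e2, abs_mul, abs_of_pos (Real.exp_pos (κ * s))]
  apply mul_le_mul_of_nonneg_right _ (Real.exp_pos _).le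
  have h3 : Real.exp (κ * (r - s)) ≤ Real.exp κ := by
    apply Real.exp_le_exp.2
    calc κ * (r - s) ≤ κ * 1 := by gcongr
      _ = κ := mul_one _
  have h4 : Real.exp (-κ) ≤ Real.exp (κ * (r - s)) := by
    apply Real.exp_le_exp.2
    calc -κ = κ * (-1) := by ring
      _ ≤ κ * (r - s) := by gcongr
  have h5 : 2 ≤ Real.exp κ + Real.exp (-κ) := by
    have h6 : 0 ≤ (Real.exp (κ / 2) - Real.exp (-(κ / 2))) ^ 2 := sq_nonneg _
    have h7 : Real.exp (κ / 2) * Real.exp (-(κ / 2)) = 1 := by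
      rw [← Real.exp_add]
      simp
    have h8 : Real.exp (κ / 2) ^ 2 = Real.exp κ := by
      rw [sq, ← Real.exp_add]
      congr 1
      ring
    have h9 : Real.exp (-(κ / 2)) ^ 2 = Real.exp (-κ) := by
      rw [sq, ← Real.exp_add]
      congr 1
      ring
    nlinarith
  rw [abs_le]
  constructor <;> linarith

theorem norm_single_le (i : Fin d) : ‖(Pi.single i 1 : Zd d)‖ ≤ 1 := by
  rw [pi_norm_le_iff_of_nonneg zero_le_one]
  intro j
  by_cases hj : j = i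
  · subst hj
    simp
  · rw [Pi.single_eq_of_ne hj]
    simp

/-- **Combes-Thomas** -/
theorem ct {V : Zd d → ℝ} {a : Zd d} {e t : ℝ} {u : Zd d → ℂ} (ht : 0 < t)
    (h : Rs d V a e t u) (κ : ℝ) (hκ : 0 ≤ κ) (hκt : 2 * d * (Real.exp κ - 1) ≤ t / 2) :
    (Summable fun x => (Real.exp (κ * ‖x - a‖) * ‖u x‖) ^ 2) ∧
    ∑' x, (Real.exp (κ * ‖x - a‖) * ‖u x‖) ^ 2 ≤ 2 * (t⁻¹) ^ 2 := by
  have hq0 : 0 ≤ Real.exp κ - 1 := by linarith [Real.one_le_exp hκ]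
  have hN : ∀ N : ℝ, 0 ≤ N →
      (Summable fun x => (Real.exp (κ * min ‖x - a‖ N) * ‖u x‖) ^ 2) ∧
      ∑' x, (Real.exp (κ * min ‖x - a‖ N) * ‖u x‖) ^ 2 ≤ 2 * (t⁻¹) ^ 2 := by
    intro N hN0
    obtain ⟨h1, h2⟩ := weighted ht h (fun x => Real.exp (κ * min ‖x - a‖ N)) (Real.exp (κ * N))
      (Real.exp κ - 1) (fun x => Real.exp_pos _)
      (fun x => by
        apply Real.exp_le_exp.2
        apply mul_le_mul_of_nonneg_left (min_le_right _ _) hκ) hq0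
      (fun x i => by
        have hs := norm_single_le (d := d) i
        constructor
        · apply rho_diff κ hκ
          refine (abs_min_sub_min_le_max _ _ _ _).trans ?_
          rw [sub_self, abs_zero]
          refine max_le ((abs_norm_sub_norm_le _ _).trans ?_) zero_le_one
          have : x - a - (x + Pi.single i 1 - a) = -Pi.single i 1 := by abel
          rw [this, norm_neg]
          exact hs
        · apply rho_diff κ hκ
          refine (abs_min_sub_min_le_max _ _ _ _).trans ?_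
          rw [sub_self, abs_zero]
          refine max_le ((abs_norm_sub_norm_le _ _).trans ?_) zero_le_one
          have : x - a - (x - Pi.single i 1 - a) = Pi.single i 1 := by abel
          rw [this]
          exact hs) hκt
    refine ⟨h1, h2.trans ?_⟩
    have h3 : Real.exp (κ * min ‖a - a‖ N) = 1 := by
      rw [sub_self, norm_zero, min_eq_left hN0, mul_zero, Real.exp_zero]
    rw [h3, one_pow, one_mul]
    have h4 := rs_pt ht h a
    calc 2 / t * ‖u a‖ ≤ 2 / t * t⁻¹ := by gcongr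
      _ = _ := by rw [div_eq_mul_inv]; ring
  have hF : ∀ F : Finset (Zd d), ∑ x ∈ F, (Real.exp (κ * ‖x - a‖) * ‖u x‖) ^ 2 ≤
      2 * (t⁻¹) ^ 2 := by
    intro F
    obtain ⟨N, hN1⟩ : ∃ N, N = ∑ x ∈ F, ‖x - a‖ := ⟨_, rfl⟩
    have hN0 : 0 ≤ N := by rw [hN1]; exact Finset.sum_nonneg fun x _ => norm_nonneg _
    obtain ⟨h1, h2⟩ := hN N hN0
    refine le_trans (le_of_eq (Finset.sum_congr rfl fun x hx => ?_))
      ((h1.sum_le_tsum F fun x _ => sq_nonneg _).trans h2)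
    have : ‖x - a‖ ≤ N := by
      rw [hN1]
      exact Finset.single_le_sum (f := fun x => ‖x - a‖) (fun x _ => norm_nonneg _) hx
    rw [min_eq_left this]
  have hs := summable_of_sum_le (fun x => sq_nonneg (Real.exp (κ * ‖x - a‖) * ‖u x‖)) hF
  exact ⟨hs, hs.tsum_le_of_sum_le hF⟩

/-- **the comparison of two resolvents** -/
theorem cmp {V V' : Zd d → ℝ} {a : Zd d} {e t : ℝ} {u u' : Zd d → ℂ} (ht : 0 < t)
    (h : Rs d V a e t u) (h' : Rs d V' a e t u') (κ ε : ℝ) (hκ : 0 ≤ κ)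
    (hκt : 2 * d * (Real.exp κ - 1) ≤ t / 2)
    (hV : ∀ x, |V x - V' x| ≤ ε * Real.exp (κ * ‖x - a‖)) :
    (Summable fun x => ‖u x - u' x‖ ^ 2) ∧
    ∑' x, ‖u x - u' x‖ ^ 2 ≤ (2 * ε * (t⁻¹) ^ 2) ^ 2 := by
  obtain ⟨c1, c2⟩ := ct ht h' κ hκ hκt
  have hε : 0 ≤ ε := by
    have h1 := (abs_nonneg _).trans (hV a)
    rw [sub_self, norm_zero, mul_zero, Real.exp_zero, mul_one] at h1
    exact h1
  have hD : Summable fun x => ‖u x - u' x‖ ^ 2 := by
    refine Summable.of_nonneg_of_le (fun x => sq_nonneg _) (fun x => ?_)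
      ((h.sq.add h'.sq).mul_left 2)
    have h1 := norm_sub_le (u x) (u' x)
    have h2 := pow_le_pow_left₀ (norm_nonneg _) h1 2
    nlinarith [sq_nonneg (‖u x‖ - ‖u' x‖)]
  obtain ⟨f, hf⟩ : ∃ f : Zd d → ℂ, f = fun x => -(((V x - V' x : ℝ) : ℂ) * u' x) := ⟨_, rfl⟩
  have hfx : ∀ x, ‖f x‖ ^ 2 ≤ ε ^ 2 * (Real.exp (κ * ‖x - a‖) * ‖u' x‖) ^ 2 := by
    intro x
    rw [hf]
    simp only
    rw [norm_neg, norm_mul, Complex.norm_real, Real.norm_eq_abs, ← mul_pow, ← mul_assoc]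
    have := hV x
    gcongr
  have hsf : Summable fun x => ‖f x‖ ^ 2 :=
    Summable.of_nonneg_of_le (fun x => sq_nonneg _) hfx (c1.mul_left _)
  have hf2 : ∑' x, ‖f x‖ ^ 2 ≤ ε ^ 2 * (2 * (t⁻¹) ^ 2) := by
    refine (hsf.tsum_le_tsum hfx (c1.mul_left _)).trans ?_
    rw [tsum_mul_left]
    gcongr
  refine ⟨hD, ?_⟩
  have h3 := im_bound V e t ht (fun x => u x - u' x) f hD hsf (fun x => by
    have e1 := h.eq x
    have e2 := h'.eq x
    have e3 : S (fun x => u x - u' x) x = S u x - S u' x := by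
      unfold S
      rw [← Finset.sum_sub_distrib]
      exact Finset.sum_congr rfl fun i _ => by ring
    rw [e3, hf]
    simp only
    push_cast
    linear_combination e1 - e2)
  have h4 : t ^ 2 * ∑' x, ‖u x - u' x‖ ^ 2 ≤ ε ^ 2 * (2 * (t⁻¹) ^ 2) := h3.trans hf2
  have h5 : ∑' x, ‖u x - u' x‖ ^ 2 = (t⁻¹) ^ 2 * (t ^ 2 * ∑' x, ‖u x - u' x‖ ^ 2) := by
    field_simp
  rw [h5]
  calc (t⁻¹) ^ 2 * (t ^ 2 * ∑' x, ‖u x - u' x‖ ^ 2) ≤
      (t⁻¹) ^ 2 * (ε ^ 2 * (2 * (t⁻¹) ^ 2)) := by gcongr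
    _ ≤ (2 * ε * (t⁻¹) ^ 2) ^ 2 := by
        have : 0 ≤ ε ^ 2 * ((t⁻¹) ^ 2) ^ 2 := by positivity
        nlinarith

end Pool.Agent.Q204.GA
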