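import Pool.Agent.Q204.GA.Plus
import Pool.Agent.Q204.GA.FinG
import Pool.Agent.Q62.QD.Base

/-! Quantum diffusion for Gaussian disorder. -/

set_option autoImplicit false
set_option linter.unusedSectionVars false

open scoped BigOperators Topology Polynomial
open MeasureTheory ProbabilityTheory Filter Set

namespace Pool.Agent.Q204.GA

open Pool.Agent.W788.BK
open Pool.Agent.W788.LD.Spec (S)
open Pool.Agent.H4R2.LO (Zd)
open Pool.Agent.TH794.QD
open Pool.Agent.TH794.QE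
open Pool.Agent.TH794.HK
open Pool.Agent.Q62.QD
open Pool.Agent.Y661.BG (cl cl_abs cl_eq cl_meas cl_cont)
open Pool.Agent.W788.BK.Num (ev2)

theorem g_sq : ∫ x : ℝ, x ^ 2 ∂(gaussianReal 0 1) = 1 := by
  have h := variance_of_integral_eq_zero (μ := gaussianReal 0 1) (X := fun x : ℝ => x)
    (by fun_prop) (by simp)
  rw [← h]
  simp

theorem g_sq_int : Integrable (fun x : ℝ => x ^ 2) (gaussianReal 0 1) := by
  by_contra h
  have h1 := integral_undef h
  rw [g_sq] at h1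
  norm_num at h1

/-- the variance of the clipped Gaussian -/
noncomputable def VB (B : ℝ) : ℝ := ∫ s, cl B s ^ 2 ∂(gaussianReal 0 1)

theorem cl_sq (B : ℝ) (hB : 0 ≤ B) (s : ℝ) : cl B s ^ 2 ≤ s ^ 2 := by
  rcases Pool.Agent.Y661.BG.cl_between B hB s with ⟨h1, h2⟩ | ⟨h1, h2⟩ <;> nlinarith

theorem VB_le (B : ℝ) (hB : 0 ≤ B) : VB B ≤ 1 := by
  unfold VB
  rw [← g_sq]
  refine integral_mono_of_nonneg (Eventually.of_forall fun s => sq_nonneg _) g_sq_int
    (Eventually.of_forall fun s => cl_sq B hB s)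

theorem VB_lim : Tendsto VB atTop (𝓝 1) := by
  unfold VB
  rw [← g_sq]
  apply tendsto_integral_filter_of_dominated_convergence (fun s => s ^ 2)
  · refine Eventually.of_forall fun B => ?_
    exact ((cl_cont B).pow 2).aestronglyMeasurable
  · filter_upwards [eventually_ge_atTop 0] with B hB
    refine Eventually.of_forall fun s => ?_
    rw [Real.norm_of_nonneg (sq_nonneg _)]
    exact cl_sq B hB s
  · exact g_sq_int
  · refine Eventually.of_forall fun s => ?_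
    apply tendsto_const_nhds.congr'
    filter_upwards [eventually_ge_atTop |s|] with B hB
    rw [cl_eq B s hB]

/-- the law of the cut potential -/
noncomputable def muc (σ B : ℝ) : Measure ℝ := (gaussianReal 0 1).map fun s => -(σ * cl B s)

theorem muc_meas (σ B : ℝ) : Measurable fun s => -(σ * cl B s) :=
  ((cl_meas B).const_mul σ).neg

instance muc_prob (σ B : ℝ) : IsProbabilityMeasure (muc σ B) :=
  Measure.isProbabilityMeasure_map (muc_meas σ B).aemeasurable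

theorem muc_bd (σ B : ℝ) (hσ : 0 ≤ σ) (hB : 0 ≤ B) : ∀ᵐ s ∂(muc σ B), |s| ≤ σ * B := by
  unfold muc
  rw [ae_map_iff (muc_meas σ B).aemeasurable (measurableSet_le (by fun_prop) (by fun_prop))]
  refine Filter.Eventually.of_forall fun s => ?_
  rw [abs_neg, abs_mul, abs_of_nonneg hσ]
  have := cl_abs B hB s
  gcongr

theorem muc_mean (σ B : ℝ) (hB : 0 ≤ B) : ∫ s, s ∂(muc σ B) = 0 := by
  have h1 := Pool.Agent.Y661.BG.nu_mean B hB
  rw [Pool.Agent.Y661.BG.int_nu (fun s => s) continuous_id B] at h1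
  unfold muc
  rw [integral_map (muc_meas σ B).aemeasurable (by fun_prop)]
  have h2 : (fun s : ℝ => -(σ * cl B s)) = fun s => (-σ) * cl B s := by
    funext s
    ring
  rw [h2, integral_const_mul]
  have h3 : ∫ s, cl B s ∂(gaussianReal 0 1) = 0 := h1
  rw [h3, mul_zero]

theorem muc_var (σ B : ℝ) : ∫ s, s ^ 2 ∂(muc σ B) = σ ^ 2 * VB B := by
  unfold muc VB
  rw [integral_map (muc_meas σ B).aemeasurable (by fun_prop), ← integral_const_mul]
  refine integral_congr_ae (Eventually.of_forall fun s => ?_)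
  simp only
  ring

/-- an event for the transformed potential as an event for the Gaussian potential -/
theorem map_event {d : ℕ} (g : ℝ → ℝ) (hg : Measurable g) (G : Set (Zd d → ℝ))
    (hG : MeasurableSet G) :
    MeasurableSet {ξ : Zd d → ℝ | (fun x => g (ξ x)) ∈ G} ∧
    (PG d).real {ξ : Zd d → ℝ | (fun x => g (ξ x)) ∈ G} =
      (Measure.infinitePi fun _ : Zd d => (gaussianReal 0 1).map g).real G := by
  have hT : Measurable (fun (ω : Zd d → ℝ) x => g (ω x)) :=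
    measurable_pi_lambda _ fun x => hg.comp (measurable_pi_apply x)
  have hlaw : (PG d).map (fun ω x => g (ω x)) =
      Measure.infinitePi fun _ : Zd d => (gaussianReal 0 1).map g :=
    Measure.infinitePi_map_pi (μ := fun _ : Zd d => gaussianReal 0 1)
      (f := fun _ (s : ℝ) => g s) (fun _ => hg)
  refine ⟨hT hG, ?_⟩
  rw [← hlaw, map_measureReal_apply hT hG]
  rfl

/-- the good Gaussian potentials -/
def Gm (d : ℕ) (g : ℝ → ℝ) (B R : ℝ) (G : Set (Zd d → ℝ)) : Set (Zd d → ℝ) :=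
  Gr d B R ∩ {ξ | (fun x => g (ξ x)) ∈ G}

theorem Gm_prob (d : ℕ) : ∃ C : ℝ, 0 < C ∧ ∀ B R ε : ℝ, 1 ≤ B → 1 ≤ R → ∀ g : ℝ → ℝ,
    Measurable g → ∀ G : Set (Zd d → ℝ),
    MeasurableSet G →
    1 - ε ≤ (Measure.infinitePi fun _ : Zd d => (gaussianReal 0 1).map g).real G →
    MeasurableSet (Gm d g B R G) ∧
    1 - (C * R ^ d * Real.exp (-(B ^ 2 / 2)) + ε) ≤ (PG d).real (Gm d g B R G) := by
  obtain ⟨C, hC, h⟩ := Gr_prob d
  refine ⟨C, hC, fun B R ε hB hR g hg G hG hP => ?_⟩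
  obtain ⟨m1, e1⟩ := map_event g hg G hG
  have m2 := Gr_meas (d := d) B R
  refine ⟨m2.inter m1, ?_⟩
  have h1 := h B R hB hR
  rw [← e1] at hP
  have h2 : (Gm d g B R G)ᶜ = (Gr d B R)ᶜ ∪ {ξ | (fun x => g (ξ x)) ∈ G}ᶜ := by
    unfold Gm
    rw [Set.compl_inter]
  have h3 := measureReal_union_le (μ := PG d) (Gr d B R)ᶜ {ξ | (fun x => g (ξ x)) ∈ G}ᶜ
  rw [← h2] at h3
  have h4 := probReal_add_probReal_compl (μ := PG d) (m2.inter m1)
  have h5 := probReal_add_probReal_compl (μ := PG d) m2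
  have h6 := probReal_add_probReal_compl (μ := PG d) m1
  have h7 : (PG d).real (Gr d B R ∩ {ξ | (fun x => g (ξ x)) ∈ G})ᶜ =
    (PG d).real (Gm d g B R G)ᶜ := rfl
  rw [h7] at h4
  have h8 : (PG d).real (Gr d B R ∩ {ξ | (fun x => g (ξ x)) ∈ G}) =
    (PG d).real (Gm d g B R G) := rfl
  rw [h8] at h4
  linarith

/-- the characteristic functionals of two functions -/
theorem Xw_cmp {d : ℕ} (w u u' : Zd d → ℂ) (hw : ∀ x, ‖w x‖ ≤ 1) (δ M : ℝ) (hδ : 0 < δ)
    (hu : Summable fun x => ‖u x‖ ^ 2) (hu' : Summable fun x => ‖u' x‖ ^ 2)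
    (hs : Summable fun x => ‖u x - u' x‖ ^ 2) (hd : ∑' x, ‖u x - u' x‖ ^ 2 ≤ δ ^ 2)
    (hn : ∑' x, ‖u x‖ ^ 2 ≤ M) (hn' : ∑' x, ‖u' x‖ ^ 2 ≤ M) :
    ‖Xw w u - Xw w u'‖ ≤ δ * (1 + 2 * M) := by
  have hs1 : ∀ v : Zd d → ℂ, (Summable fun x => ‖v x‖ ^ 2) →
      Summable fun x => w x * ((‖v x‖ ^ 2 : ℝ) : ℂ) := by
    intro v hv
    refine Summable.of_norm_bounded hv fun x => ?_
    rw [norm_mul, Complex.norm_real, Real.norm_of_nonneg (sq_nonneg _)]
    exact mul_le_of_le_one_left (sq_nonneg _) (hw x)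
  unfold Xw
  rw [← (hs1 u hu).tsum_sub (hs1 u' hu')]
  have hb : HasSum (fun x => 1 / (2 * δ) * ‖u x - u' x‖ ^ 2 +
      δ / 2 * (2 * ‖u x‖ ^ 2 + 2 * ‖u' x‖ ^ 2)) (1 / (2 * δ) * ∑' x, ‖u x - u' x‖ ^ 2 +
      δ / 2 * (2 * ∑' x, ‖u x‖ ^ 2 + 2 * ∑' x, ‖u' x‖ ^ 2)) :=
    (hs.hasSum.mul_left _).add (((hu.hasSum.mul_left 2).add (hu'.hasSum.mul_left 2)).mul_left _)
  refine (tsum_of_norm_bounded hb fun x => ?_).trans ?_
  · rw [← mul_sub, norm_mul, ← Complex.ofReal_sub, Complex.norm_real, Real.norm_eq_abs]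
    refine (mul_le_of_le_one_left (abs_nonneg _) (hw x)).trans ?_
    have e1 : ‖u x‖ ^ 2 - ‖u' x‖ ^ 2 = (‖u x‖ - ‖u' x‖) * (‖u x‖ + ‖u' x‖) := by ring
    rw [e1, abs_mul, abs_of_nonneg (by positivity : 0 ≤ ‖u x‖ + ‖u' x‖)]
    have h1 := abs_norm_sub_norm_le (u x) (u' x)
    obtain ⟨A, hA⟩ : ∃ A, A = ‖u x - u' x‖ := ⟨_, rfl⟩
    obtain ⟨b, hb⟩ : ∃ b, b = ‖u x‖ := ⟨_, rfl⟩
    obtain ⟨c, hc⟩ : ∃ c, c = ‖u' x‖ := ⟨_, rfl⟩
    rw [← hA, ← hb, ← hc] at h1 ⊢
    have hA0 : 0 ≤ A := by rw [hA]; positivity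
    have hb0 : 0 ≤ b := by rw [hb]; positivity
    have hc0 : 0 ≤ c := by rw [hc]; positivity
    have h2 : |b - c| * (b + c) ≤ A * (b + c) := by gcongr
    have h3 : A * (b + c) ≤ 1 / (2 * δ) * A ^ 2 + δ / 2 * (b + c) ^ 2 := by
      have h4 : 0 ≤ (A - δ * (b + c)) ^ 2 / (2 * δ) := by positivity
      have h5 : (A - δ * (b + c)) ^ 2 / (2 * δ) =
          1 / (2 * δ) * A ^ 2 + δ / 2 * (b + c) ^ 2 - A * (b + c) := by
        field_simp
        ring
      linarith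
    have h6 : (b + c) ^ 2 ≤ 2 * b ^ 2 + 2 * c ^ 2 := by nlinarith [sq_nonneg (b - c)]
    have h7 : δ / 2 * (b + c) ^ 2 ≤ δ / 2 * (2 * b ^ 2 + 2 * c ^ 2) := by gcongr
    linarith
  · have h1 : 1 / (2 * δ) * ∑' x, ‖u x - u' x‖ ^ 2 ≤ 1 / (2 * δ) * δ ^ 2 := by gcongr
    have h2 : 1 / (2 * δ) * δ ^ 2 = δ / 2 := by field_simp
    have h3 : δ / 2 * (2 * ∑' x, ‖u x‖ ^ 2 + 2 * ∑' x, ‖u' x‖ ^ 2) ≤ δ / 2 * (2 * M + 2 * M) := by
      gcongr
    have h4 : δ / 2 * (2 * M + 2 * M) = 2 * δ * M := by ring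
    have h5 : δ * (1 + 2 * M) = δ + 2 * δ * M := by ring
    linarith

/-- the limit law depends continuously on the frequency -/
theorem Nq_diff (hO : S_OSC) (d : ℕ) (hd : 2 ≤ d) (Q Q' r : ℝ) (hQ : 0 ≤ Q) (hQQ : Q ≤ Q')
    (hr : 0 ≤ r) (hQr : Q' ≤ (1 + r) * Q) (τ : ℝ) (hτ : 0 ≤ τ) :
    |Nq d Q' τ - Nq d Q τ| ≤ r := by
  have hpi := Real.pi_pos
  have hQ' : 0 ≤ Q' := hQ.trans hQQ
  have hI : ∀ P : ℝ, 0 ≤ P → Integrable (fun E => (G0 d E).im * Real.exp (-(2 * P * Dc d E) * τ))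
      (volume.restrict (Ba d)) := by
    intro P hP
    refine (G0_intB hO d hd).mono' ?_ ?_
    · exact ((G0_intB hO d hd).aemeasurable.mul
        ((((Dc_meas hO d hd).const_mul (2 * P)).neg.mul_const τ).exp)).aestronglyMeasurable
    · filter_upwards [G0_nn hO d hd, Dc_nn hO d hd] with E h1 h2
      rw [norm_mul, Real.norm_of_nonneg h1.2.2.le, Real.norm_of_nonneg (Real.exp_pos _).le]
      refine mul_le_of_le_one_right h1.2.2.le (Real.exp_le_one_iff.2 ?_)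
      rw [neg_mul, neg_nonpos]
      positivity
  unfold Nq
  rw [← mul_sub, ← integral_sub (hI Q' hQ') (hI Q hQ), abs_mul, abs_of_pos (by positivity)]
  have h1 : |∫ E in Ba d, ((G0 d E).im * Real.exp (-(2 * Q' * Dc d E) * τ) -
      (G0 d E).im * Real.exp (-(2 * Q * Dc d E) * τ))| ≤ ∫ E in Ba d, r * (G0 d E).im := by
    rw [← Real.norm_eq_abs]
    refine norm_integral_le_of_norm_le ((G0_intB hO d hd).const_mul r) ?_
    filter_upwards [G0_nn hO d hd, Dc_nn hO d hd] with E h1 h2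
    rw [← mul_sub, norm_mul, Real.norm_of_nonneg h1.2.2.le, mul_comm r]
    apply mul_le_mul_of_nonneg_left _ h1.2.2.le
    obtain ⟨x, hx⟩ : ∃ x, x = 2 * Q * Dc d E * τ := ⟨_, rfl⟩
    obtain ⟨x', hx'⟩ : ∃ x', x' = 2 * Q' * Dc d E * τ := ⟨_, rfl⟩
    have hx0 : 0 ≤ x := by rw [hx]; positivity
    have hxx : x ≤ x' := by rw [hx, hx']; gcongr
    have hxr : x' ≤ (1 + r) * x := by
      rw [hx, hx']
      calc 2 * Q' * Dc d E * τ ≤ 2 * ((1 + r) * Q) * Dc d E * τ := by gcongr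
        _ = _ := by ring
    rw [neg_mul, neg_mul, ← hx, ← hx', Real.norm_eq_abs, abs_sub_comm, abs_of_nonneg (by
      have := Real.exp_le_exp.2 (neg_le_neg hxx)
      linarith)]
    have e1 : Real.exp (-x') = Real.exp (-x) * Real.exp (-(x' - x)) := by
      rw [← Real.exp_add]
      congr 1
      ring
    rw [e1]
    have h3 := Real.add_one_le_exp (-(x' - x))
    have h4 : x * Real.exp (-x) ≤ 1 := by
      have h5 := Real.add_one_le_exp x
      rw [Real.exp_neg, ← div_eq_mul_inv, div_le_one (Real.exp_pos x)]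
      linarith
    have h6 := Real.exp_pos (-x)
    calc Real.exp (-x) - Real.exp (-x) * Real.exp (-(x' - x)) =
        Real.exp (-x) * (1 - Real.exp (-(x' - x))) := by ring
      _ ≤ Real.exp (-x) * (r * x) := by
          apply mul_le_mul_of_nonneg_left _ h6.le
          linarith
      _ = r * (x * Real.exp (-x)) := by ring
      _ ≤ r * 1 := by gcongr
      _ = r := mul_one r
  rw [integral_const_mul] at h1
  have h2 := G0_totB hO d hd
  calc 1 / Real.pi * |∫ E in Ba d, ((G0 d E).im * Real.exp (-(2 * Q' * Dc d E) * τ) -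
      (G0 d E).im * Real.exp (-(2 * Q * Dc d E) * τ))| ≤ 1 / Real.pi * (r * Real.pi) := by
        gcongr
        exact h1.trans (mul_le_mul_of_nonneg_left h2 hr)
    _ = r := by field_simp

end Pool.Agent.Q204.GA
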