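import Pool.Agent.Q204.GA.DifG

/-! Quantum diffusion for Gaussian disorder. -/

set_option autoImplicit false
set_option linter.unusedSectionVars false

open scoped BigOperators Topology Polynomial
open MeasureTheory ProbabilityTheory Filter Set

namespace Pool.Agent.Q204.GA

open Pool.Agent.W788.BK
open Pool.Agent.W788.LD.Spec (S)
open Pool.Agent.H4R2.LO (Zd)
open Pool.Agent.TH794.QD
open Pool.Agent.TH794.QE
open Pool.Agent.TH794.HK
open Pool.Agent.Q62.QD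
open Pool.Agent.Y661.BG (cl cl_abs cl_eq cl_meas cl_cont)
open Pool.Agent.W788.BK.Num (ev2)

/-- shifting the energy -/
theorem Rs.shift {d : ℕ} {V V' : Zd d → ℝ} {a : Zd d} {e e' t : ℝ} {u : Zd d → ℂ} (s : ℝ)
    (h : Rs d V a e t u) (hV : ∀ x, V' x = V x + s) (he : e' = e + s) : Rs d V' a e' t u := by
  refine ⟨h.sq, fun x => ?_⟩
  rw [← h.eq x, hV, he]
  push_cast
  ring

/-- **the characteristic function of the resolvent, Gaussian potential, all scales** -/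
theorem resG (d : ℕ) (hd3 : 3 ≤ d) (κ : ℝ) (hκ : 0 < κ) (hκ1 : κ ≤ 1) (K : ℝ) (hK : 0 ≤ K) :
    ∃ y1 : ℝ, ∀ y : ℝ, y1 ≤ y →
    ∀ σ B c : ℝ, B = Real.exp (1 / 7000 * y) → c = Real.exp (-1 * y) →
      σ = Real.exp (-(7001 / 7000) * y) →
      ∃ G : Set (Zd d → ℝ), MeasurableSet G ∧
        1 - Real.exp (-Real.exp (7001 / 35000000 * y)) ≤ (PG d).real G ∧
        ∀ ξ ∈ G, (∀ x, |ξ x| ≤ B * (1 + ‖x‖)) ∧
          ∀ a : Zd d, ‖a‖ ≤ Real.exp (Real.exp (1 / 4000 * y)) →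
          ∀ E : ℝ, Bk d κ E → ∀ η : ℝ, c ^ (81 / 40 : ℝ) ≤ η → η ≤ c ^ (161 / 80 : ℝ) →
          ∀ u : Zd d → ℂ, Rs d (fun x => -(σ * ξ x)) a (-E) η u →
          ∀ p : Fin d → ℝ, ∑ i, p i ^ 2 ≤ K * (η * (σ ^ 2 * VB B)) →
            ‖((η : ℝ) : ℂ) * Xw (fun x => ph p (x - a)) u -
              ((Tg (G0 d) (G1 d) η (σ ^ 2 * VB B) E p : ℝ) : ℂ)‖ ≤ 2 * c ^ (1 / 200 : ℝ) := by
  have hd : 2 ≤ d := by omega
  obtain ⟨m, hm, hm2⟩ := G1_low sO d hd κ hκ hκ1
  obtain ⟨c0, hc0, hF⟩ := finG d (Bk d κ) (G0 d) (G1 d) K hK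
    (engV sES sTH sFL sIN sSU sQB sLO sAD sFA sO d hd3 κ hκ hκ1 1 (2 * K) one_pos (by positivity))
    fun E hE => by
      have h1 := bvals sO d hd κ hκ hκ1 E hE.1
      have h2 := hm2 E hE
      exact ⟨by linarith [h1.2.2.2], h1.2.2.1, h1.2.2.2⟩
  obtain ⟨C, hC, hGm⟩ := Gm_prob d
  have hVlim : ∀ᶠ y : ℝ in atTop, 1 / 2 ≤ VB (Real.exp (1 / 7000 * y)) := by
    have h1 : Tendsto (fun y : ℝ => Real.exp (1 / 7000 * y)) atTop atTop :=
      Real.tendsto_exp_atTop.comp (tendsto_id.const_mul_atTop (by norm_num))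
    have h2 := VB_lim.comp h1
    exact (h2.eventually_const_lt (by norm_num : (1 / 2 : ℝ) < 1)).mono fun y hy => hy.le
  obtain ⟨y1, hy1⟩ := Filter.eventually_atTop.1
    (hVlim.and ((cnum d (by omega) (81 / 40) (1 / 4000) (by norm_num) (by norm_num) 20).and
    ((pnum C hC d (1 / 4000) (7001 / 35000000) (1 / 3500) (by norm_num) (by norm_num)
      (by norm_num) (by norm_num)).and
    ((ev2 2 (-(2 + 1 / 3000)) (-(7001 / 3500)) 0 (by norm_num)).and
    ((ev2 3 (-10) (-(1 / 200)) 0 (by norm_num)).and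
    ((eventually_ge_atTop 1).and (eventually_ge_atTop (-Real.log c0))))))))
  refine ⟨y1, fun y hy σ B c hB hc hσ => ?_⟩
  obtain ⟨n1, n2, n3, n4, n5, hyone, n6⟩ := hy1 y hy
  rw [← hB] at n1
  simp only [pow_zero, mul_one] at n4 n5
  have hc00 : 0 < c := by rw [hc]; positivity
  have hcc0 : c ≤ c0 := by
    rw [hc, ← Real.le_log_iff_exp_le hc0]
    linarith
  have hB0 : 0 < B := by rw [hB]; positivity
  have hB1 : 1 ≤ B := by rw [hB]; exact Real.one_le_exp (by positivity)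
  have hσ0 : 0 < σ := by rw [hσ]; positivity
  have hcσ : σ * B = c := by
    rw [hσ, hB, hc, ← Real.exp_add]
    congr 1
    ring
  have hc1 : c ≤ 1 := by rw [hc]; exact Real.exp_le_one_iff.2 (by linarith)
  have hcp : ∀ q : ℝ, c ^ q = Real.exp (-q * y) := by
    intro q
    rw [hc, ← Real.exp_mul]
    congr 1
    ring
  have hV1 := VB_le B hB0.le
  have hs2 : c ^ (2 + 1 / 3000 : ℝ) ≤ σ ^ 2 * VB B := by
    rw [hcp]
    have e1 : σ ^ 2 = Real.exp (-(7001 / 3500) * y) := by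
      rw [hσ, sq, ← Real.exp_add]
      congr 1
      ring
    rw [e1]
    have h1 : Real.exp (-(7001 / 3500) * y) * (1 / 2) ≤ Real.exp (-(7001 / 3500) * y) * VB B := by
      gcongr
    linarith
  obtain ⟨τ, hτ⟩ : ∃ τ, τ = Real.exp (-(81 / 40) * y) := ⟨_, rfl⟩
  have hτ0 : 0 < τ := by rw [hτ]; positivity
  obtain ⟨k, hk⟩ : ∃ k, k = τ / (8 * d) := ⟨_, rfl⟩
  obtain ⟨R, hR⟩ : ∃ R, R = 2 * Real.exp (Real.exp (1 / 4000 * y)) := ⟨_, rfl⟩
  obtain ⟨k1, k2, k3, k4, k5, -⟩ := n2 τ k R hτ hk hR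
  obtain ⟨G, hG, hP, hL⟩ := hF c hc00 hcc0 (muc σ B) (muc_prob σ B) (by
    have := muc_bd σ B hσ0.le hB0.le
    rw [hcσ] at this
    exact this) (muc_mean σ B hB0.le) (σ ^ 2 * VB B) (muc_var σ B) hs2
  have hmm : Measurable fun s => -(σ * cl B s) := muc_meas σ B
  obtain ⟨hm, hPr⟩ := hGm B R _ hB1 (by linarith) _ hmm G hG hP
  refine ⟨Gm d (fun s => -(σ * cl B s)) B R G, hm, ?_, ?_⟩
  · refine le_trans ?_ hPr
    have e2 : B ^ 2 = Real.exp (1 / 3500 * y) := by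
      rw [hB, sq, ← Real.exp_add]
      congr 1
      ring
    have e3 : Real.exp (-c ^ (-(1 / 101) : ℝ)) ≤ Real.exp (-Real.exp (1 / 4000 * y)) := by
      apply Real.exp_le_exp.2
      rw [hcp]
      apply neg_le_neg
      apply Real.exp_le_exp.2
      linarith
    rw [e2, hR]
    linarith
  · intro ξ hξ
    obtain ⟨-, hL2⟩ := hL _ hξ.2
    refine ⟨hξ.1.2, fun a ha E hE η hη1 hη2 u hu p hp => ?_⟩
    have hτη : τ ≤ η := by
      rw [hcp] at hη1
      rw [hτ]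
      exact hη1
    have hη0 : 0 < η := hτ0.trans_le hτη
    have hη3 : η ≤ 1 := by
      refine hη2.trans ?_
      rw [hcp]
      exact Real.exp_le_one_iff.2 (by linarith)
    have ha3 : ‖a‖ ≤ R / 2 := by
      rw [hR]
      linarith
    obtain ⟨u', hu'⟩ := rs_exists (fun x => -(σ * cl B (ξ x))) (σ * B) (fun x => by
      rw [abs_neg, abs_mul, abs_of_pos hσ0]
      have := cl_abs B hB0.le (ξ x)
      gcongr) a (-E) η hη0
    obtain ⟨c1, c2⟩ := cmp hη0 hu hu' k (σ * (B * Real.exp (-(k * R / 8)))) k1.le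
      (k4.trans (by linarith)) fun x => by
      have e1 : -(σ * ξ x) - -(σ * cl B (ξ x)) = -(σ * (ξ x - cl B (ξ x))) := by ring
      rw [e1, abs_neg, abs_mul, abs_of_nonneg hσ0.le, mul_assoc]
      apply mul_le_mul_of_nonneg_left _ hσ0.le
      exact (clip_diff B R hB0.le ξ hξ.1 x).trans (eps_geo k R B k1 hB0.le k2 k3 a x ha3)
    obtain ⟨δ, hδ⟩ : ∃ δ, δ = 2 * (σ * (B * Real.exp (-(k * R / 8)))) * (η⁻¹) ^ 2 := ⟨_, rfl⟩
    have hδ0 : 0 < δ := by rw [hδ]; positivity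
    rw [← hδ] at c2
    have hX := Xw_cmp (fun x => ph p (x - a)) u u' (fun x => (ph_norm _ _).le) δ ((η⁻¹) ^ 2) hδ0
      hu.sq hu'.sq c1 c2 (rs_norm hη0 hu) (rs_norm hη0 hu')
    have h1 := hL2 a (by
      refine ha.trans (Real.exp_le_exp.2 ?_)
      rw [hcp]
      apply Real.exp_le_exp.2
      linarith) (2 * d - E) (by
      rw [sub_sub_cancel]
      exact hE) η hη1 hη2 u' (Rs.shift (2 * d) hu' (fun x => by ring) (by ring)) p hp
    rw [sub_sub_cancel] at h1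
    have h2 : ‖((η : ℝ) : ℂ) * Xw (fun x => ph p (x - a)) u -
        ((η : ℝ) : ℂ) * Xw (fun x => ph p (x - a)) u'‖ ≤ c ^ (1 / 200 : ℝ) := by
      rw [← mul_sub, norm_mul, Complex.norm_real, Real.norm_of_nonneg hη0.le]
      have hηi : η⁻¹ ≤ τ⁻¹ := inv_anti₀ hτ0 hτη
      have hηi1 : 1 ≤ η⁻¹ := (one_le_inv₀ hη0).2 hη3
      have h3 : δ ≤ Real.exp (-20 * y) := by
        calc δ = c * (2 * Real.exp (-(k * R / 8)) * (η⁻¹) ^ 2) := by
              rw [hδ, ← hcσ]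
              ring
          _ ≤ 1 * (2 * Real.exp (-(k * R / 8)) * (τ⁻¹) ^ 2) := by gcongr
          _ ≤ Real.exp (-20 * y) := by linarith
      calc η * ‖Xw (fun x => ph p (x - a)) u - Xw (fun x => ph p (x - a)) u'‖ ≤
          η * (δ * (1 + 2 * (η⁻¹) ^ 2)) := by gcongr
        _ ≤ η * (δ * (3 * (η⁻¹) ^ 2)) := by
            have : 1 ≤ (η⁻¹) ^ 2 := one_le_pow₀ hηi1
            gcongr
            linarith
        _ = 3 * δ * η⁻¹ := by
            field_simp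
        _ ≤ 3 * Real.exp (-20 * y) * Real.exp (10 * y) := by
            have h4 : η⁻¹ ≤ Real.exp (10 * y) := by
              refine hηi.trans ?_
              rw [hτ, ← Real.exp_neg]
              apply Real.exp_le_exp.2
              linarith
            gcongr
        _ = 3 * Real.exp (-10 * y) := by
            rw [mul_assoc, ← Real.exp_add]
            congr 2
            ring
        _ ≤ c ^ (1 / 200 : ℝ) := by
            rw [hcp]
            exact n5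
    have h5 : ((η : ℝ) : ℂ) * Xw (fun x => ph p (x - a)) u -
        ((Tg (G0 d) (G1 d) η (σ ^ 2 * VB B) E p : ℝ) : ℂ) =
        (((η : ℝ) : ℂ) * Xw (fun x => ph p (x - a)) u -
          ((η : ℝ) : ℂ) * Xw (fun x => ph p (x - a)) u') +
        (((η : ℝ) : ℂ) * Xw (fun x => ph p (x - a)) u' -
          ((Tg (G0 d) (G1 d) η (σ ^ 2 * VB B) E p : ℝ) : ℂ)) := by ring
    rw [h5]
    refine (norm_add_le _ _).trans ?_
    have h6 : ‖((η : ℝ) : ℂ) * Xw (fun x => ph p (x - a)) u' -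
          ((Tg (G0 d) (G1 d) η (σ ^ 2 * VB B) E p : ℝ) : ℂ)‖ ≤ c ^ (1 / 200 : ℝ) := h1
    linarith

end Pool.Agent.Q204.GA
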