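import Pool.Agent.Q204.GA.DifH

/-! Quantum diffusion for Gaussian disorder: the evolution. -/

set_option autoImplicit false
set_option linter.unusedSectionVars false

open scoped BigOperators Topology Polynomial
open MeasureTheory ProbabilityTheory Filter Set

namespace Pool.Agent.Q204.GA

open Pool.Agent.W788.BK
open Pool.Agent.W788.LD.Spec (S)
open Pool.Agent.H4R2.LO (Zd)
open Pool.Agent.TH794.QD
open Pool.Agent.TH794.QE
open Pool.Agent.TH794.HK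
open Pool.Agent.Q62.QD
open Pool.Agent.W788.BK.Num (ev2)

theorem log_conv (σ : ℝ) (hσ : 0 < σ) (Y : ℝ) (hY : Y = Real.log (1 / σ)) (q : ℝ) :
    σ ^ (q : ℝ) = Real.exp (-q * Y) := by
  have : Real.log σ = -Y := by rw [hY, one_div, Real.log_inv, neg_neg]
  rw [Real.rpow_def_of_pos hσ, this]
  congr 1
  ring

/-- **quantum diffusion, Gaussian disorder** -/
theorem qdG (d : ℕ) (hd3 : 3 ≤ d) (φ : ℝ → ℝ) (hφ : IntegrableOn φ (Ioi 0)) (K ε : ℝ)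
    (hK : 0 ≤ K) (hε : 0 < ε) : ∃ σ0 : ℝ, 0 < σ0 ∧ ∀ σ : ℝ, 0 < σ → σ ≤ σ0 →
      ∃ G : Set (Zd d → ℝ), MeasurableSet G ∧
        1 - Real.exp (-σ ^ (-(1 / 5000) : ℝ)) ≤ (PG d).real G ∧
        ∀ ξ ∈ G, (∃ C : ℝ, 0 ≤ C ∧ ∀ x, |ξ x| ≤ C * (1 + ‖x‖)) ∧
          ∀ a : Zd d, ‖a‖ ≤ Real.exp (σ ^ (-(1 / 5000) : ℝ)) →
          ∀ ψ : ℝ → Zd d → ℂ, Sol d (fun x => -(σ * ξ x)) a ψ →
          ∀ T : ℝ, σ ^ (-(2 + 1 / 70) : ℝ) ≤ T → T ≤ σ ^ (-(2 + 1 / 43) : ℝ) →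
          ∀ q : Fin d → ℝ, ∑ i, q i ^ 2 ≤ K →
            ‖(∫ τ in Ioi (0 : ℝ), (φ τ : ℂ) *
                Xw (fun x => ph (fun i => Real.sqrt (σ ^ 2 / T) * q i) (x - a)) (ψ (T * τ))) -
              ((∫ τ in Ioi (0 : ℝ), φ τ * Nq d (∑ i, q i ^ 2) τ : ℝ) : ℂ)‖ ≤ ε := by
  have hd : 2 ≤ d := by omega
  have hO := sO
  obtain ⟨p, hp1, hp2⟩ := exp_dense φ hφ (ε / 16) (by positivity)
  obtain ⟨Cp, hCp⟩ : ∃ Cp, Cp = ∑ j ∈ Finset.range (p.natDegree + 1), |p.coeff j| := ⟨_, rfl⟩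
  have hCp0 : 0 ≤ Cp := by rw [hCp]; exact Finset.sum_nonneg fun _ _ => abs_nonneg _
  obtain ⟨r, hr⟩ : ∃ r, r = ε / (9600 * (Cp + 1)) := ⟨_, rfl⟩
  have hr0 : 0 < r := by rw [hr]; positivity
  obtain ⟨κ, hκd⟩ : ∃ κ, κ = min 1 (r ^ 2 / 2) := ⟨_, rfl⟩
  have hκ : 0 < κ := by rw [hκd]; positivity
  have hκ1 : κ ≤ 1 := by rw [hκd]; exact min_le_left _ _
  have hκ2 : (2 * κ) ^ (1 / 2 : ℝ) ≤ r := by
    rw [← Real.sqrt_eq_rpow]
    refine Real.sqrt_le_iff.2 ⟨hr0.le, ?_⟩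
    have : κ ≤ r ^ 2 / 2 := by rw [hκd]; exact min_le_right _ _
    linarith
  have hκ3 : Cp * (1200 * (2 * κ) ^ (1 / 2 : ℝ)) ≤ ε / 8 := by
    calc Cp * (1200 * (2 * κ) ^ (1 / 2 : ℝ)) ≤ (Cp + 1) * (1200 * r) := by
          gcongr
          linarith
      _ = ε / 8 := by
          rw [hr]
          field_simp
          norm_num
  obtain ⟨F, hF⟩ : ∃ F, F = ∫ τ in Ioi (0 : ℝ), |φ τ| := ⟨_, rfl⟩
  have hF0 : 0 ≤ F := by rw [hF]; exact integral_nonneg fun _ => abs_nonneg _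
  obtain ⟨r2, hr2⟩ : ∃ r2, r2 = min 1 (ε / (2 * (F + 1))) := ⟨_, rfl⟩
  have hr20 : 0 < r2 := by rw [hr2]; positivity
  have hr21 : r2 ≤ 1 := by rw [hr2]; exact min_le_left _ _
  have hr2F : F * r2 ≤ ε / 2 := by
    have h1 : r2 ≤ ε / (2 * (F + 1)) := by rw [hr2]; exact min_le_right _ _
    calc F * r2 ≤ (F + 1) * (ε / (2 * (F + 1))) := by
          gcongr
          linarith
      _ = ε / 2 := by field_simp
  obtain ⟨y0, h0⟩ := resG d hd3 κ hκ hκ1 (4 * K) (by positivity)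
  have hVlim : ∀ᶠ y : ℝ in atTop, 1 / (1 + r2) ≤ VB (Real.exp (1 / 7000 * y)) := by
    have h1 : Tendsto (fun y : ℝ => Real.exp (1 / 7000 * y)) atTop atTop :=
      Real.tendsto_exp_atTop.comp (tendsto_id.const_mul_atTop (by norm_num))
    have h2 := VB_lim.comp h1
    have h3 : 1 / (1 + r2) < 1 := by
      rw [div_lt_one (by positivity)]
      linarith
    exact (h2.eventually_const_lt h3).mono fun y hy => hy.le
  obtain ⟨c2, hc2, n2⟩ := small 2 1 (1 / 840) one_pos (by norm_num)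
  obtain ⟨c3, hc3, n3⟩ := small (((p.natDegree : ℝ) + 1) / 2) 1 (1 / 1200) one_pos (by norm_num)
  obtain ⟨c4, hc4, n4⟩ := small (Cp * (3 * d) * 2) (ε / 8) (1 / 200) (by positivity) (by norm_num)
  obtain ⟨y1, hy1⟩ := Filter.eventually_atTop.1 (hVlim.and ((eventually_ge_atTop 1).and
    ((eventually_ge_atTop (-Real.log c2)).and ((eventually_ge_atTop (-Real.log c3)).and
    ((eventually_ge_atTop (-Real.log c4)).and (eventually_ge_atTop y0))))))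
  refine ⟨Real.exp (-(2 * |y1|)), Real.exp_pos _, fun σ hσ hσ0 => ?_⟩
  obtain ⟨Y, hY⟩ : ∃ Y, Y = Real.log (1 / σ) := ⟨_, rfl⟩
  have hlogσ : Real.log σ = -Y := by rw [hY, one_div, Real.log_inv, neg_neg]
  have hYY : 2 * |y1| ≤ Y := by
    have h1 := Real.log_le_log hσ hσ0
    rw [Real.log_exp, hlogσ] at h1
    linarith
  obtain ⟨y, hy⟩ : ∃ y, y = 7000 / 7001 * Y := ⟨_, rfl⟩
  have hyy1 : y1 ≤ y := by
    have := le_abs_self y1
    have := abs_nonneg y1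
    linarith
  obtain ⟨m1, hyone, m2, m3, m4, m5⟩ := hy1 y hyy1
  obtain ⟨B, hB⟩ : ∃ B, B = Real.exp (1 / 7000 * y) := ⟨_, rfl⟩
  obtain ⟨c, hc⟩ : ∃ c, c = Real.exp (-1 * y) := ⟨_, rfl⟩
  have hσe : σ = Real.exp (-(7001 / 7000) * y) := by
    rw [← Real.exp_log hσ, hlogσ, hy]
    congr 1
    ring
  rw [← hB] at m1
  have hc0 : 0 < c := by rw [hc]; positivity
  have hcl : ∀ c' : ℝ, 0 < c' → -Real.log c' ≤ y → c ≤ c' := by
    intro c' h1 h2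
    rw [hc, ← Real.le_log_iff_exp_le h1]
    linarith
  have n2' := n2 c hc0 (hcl c2 hc2 m2)
  have n3' := n3 c hc0 (hcl c3 hc3 m3)
  have n4' := n4 c hc0 (hcl c4 hc4 m4)
  have hcp : ∀ q : ℝ, c ^ q = Real.exp (-q * y) := by
    intro q
    rw [hc, ← Real.exp_mul]
    congr 1
    ring
  have hB0 : 0 < B := by rw [hB]; positivity
  obtain ⟨G, hG, hP, hGL⟩ := h0 y m5 σ B c hB hc hσe
  refine ⟨G, hG, ?_, fun ξ hξ => ⟨⟨B, hB0.le, (hGL ξ hξ).1⟩, ?_⟩⟩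
  · refine le_trans (le_of_eq ?_) hP
    rw [log_conv σ hσ Y hY, hy]
    congr 4
    ring
  intro a ha ψ hψ T hT1 hT2 q hq
  have ha' : ‖a‖ ≤ Real.exp (Real.exp (1 / 4000 * y)) := by
    refine ha.trans (Real.exp_le_exp.2 ?_)
    rw [log_conv σ hσ Y hY]
    apply Real.exp_le_exp.2
    rw [hy]
    have : 0 ≤ Y := by
      have := abs_nonneg y1
      linarith
    linarith
  obtain ⟨V, hV⟩ : ∃ V, V = VB B := ⟨_, rfl⟩
  rw [← hV] at m1
  simp only [← hV] at hGL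
  have hVp : 0 < 1 / (1 + r2) := by positivity
  have hV0 : 0 < V := hVp.trans_le m1
  have hV1 : V ≤ 1 := by rw [hV]; exact VB_le B hB0.le
  have hVr : 1 ≤ (1 + r2) * V := by
    rw [div_le_iff₀ (by positivity)] at m1
    linarith
  have hV2 : 1 ≤ 2 * V := by
    have : (1 + r2) * V ≤ 2 * V := by
      gcongr
      linarith
    linarith
  have hY0 : 0 ≤ Y := by
    have := abs_nonneg y1
    linarith
  have hT0 : 0 < T := lt_of_lt_of_le (Real.rpow_pos_of_pos hσ _) hT1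
  have hs0 : 0 < σ ^ 2 * V := by positivity
  -- the range of the imaginary parts
  have hTi1 : c ^ (2 + 1 / 42 : ℝ) ≤ T⁻¹ := by
    have h1 : T ≤ (c ^ (2 + 1 / 42 : ℝ))⁻¹ := by
      refine hT2.trans ?_
      rw [log_conv σ hσ Y hY, hcp, ← Real.exp_neg]
      apply Real.exp_le_exp.2
      rw [hy]
      linarith
    have h2 := inv_anti₀ hT0 h1
    rwa [inv_inv] at h2
  have hTi2 : T⁻¹ ≤ c ^ (2 + 1 / 75 : ℝ) := by
    have h1 : (c ^ (2 + 1 / 75 : ℝ))⁻¹ ≤ T := by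
      refine le_trans ?_ hT1
      rw [log_conv σ hσ Y hY, hcp, ← Real.exp_neg]
      apply Real.exp_le_exp.2
      rw [hy]
      linarith
    have h2 := inv_anti₀ (by positivity) h1
    rwa [inv_inv] at h2
  have hη : ∀ j ∈ Finset.range (p.natDegree + 1),
      c ^ (81 / 40 : ℝ) ≤ ((j : ℝ) + 1) / (2 * T) ∧
        ((j : ℝ) + 1) / (2 * T) ≤ c ^ (161 / 80 : ℝ) := by
    intro j hj
    have hj1 : (j : ℝ) ≤ p.natDegree := by
      exact_mod_cast Nat.lt_succ_iff.1 (Finset.mem_range.1 hj)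
    have hj0 : (0 : ℝ) ≤ j := Nat.cast_nonneg j
    have e1 : ((j : ℝ) + 1) / (2 * T) = ((j : ℝ) + 1) / 2 * T⁻¹ := by
      rw [div_mul_eq_div_div, div_eq_mul_inv]
    rw [e1]
    constructor
    · have e2 : c ^ (81 / 40 : ℝ) = c ^ (1 / 840 : ℝ) * c ^ (2 + 1 / 42 : ℝ) := by
        rw [← Real.rpow_add hc0]
        norm_num
      rw [e2]
      have h3 : c ^ (1 / 840 : ℝ) ≤ ((j : ℝ) + 1) / 2 := by linarith
      exact mul_le_mul h3 hTi1 (by positivity) (by positivity)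
    · have e2 : c ^ (2 + 1 / 75 : ℝ) = c ^ (1 / 1200 : ℝ) * c ^ (161 / 80 : ℝ) := by
        rw [← Real.rpow_add hc0]
        norm_num
      calc ((j : ℝ) + 1) / 2 * T⁻¹ ≤ ((p.natDegree : ℝ) + 1) / 2 * c ^ (2 + 1 / 75 : ℝ) := by gcongr
        _ = (((p.natDegree : ℝ) + 1) / 2 * c ^ (1 / 1200 : ℝ)) * c ^ (161 / 80 : ℝ) := by
            rw [e2]
            ring
        _ ≤ 1 * c ^ (161 / 80 : ℝ) := by gcongr
        _ = _ := one_mul _
  obtain ⟨Q, hQ⟩ : ∃ Q, Q = ∑ i, q i ^ 2 := ⟨_, rfl⟩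
  have hQ0 : 0 ≤ Q := by rw [hQ]; exact Finset.sum_nonneg fun i _ => sq_nonneg _
  obtain ⟨Q', hQ'⟩ : ∃ Q', Q' = Q / V := ⟨_, rfl⟩
  have hQ'0 : 0 ≤ Q' := by rw [hQ']; positivity
  have hQQ : Q ≤ Q' := by
    rw [hQ', le_div_iff₀ hV0]
    exact mul_le_of_le_one_right hQ0 hV1
  have hQr : Q' ≤ (1 + r2) * Q := by
    rw [hQ', div_le_iff₀ hV0]
    have : Q * 1 ≤ Q * ((1 + r2) * V) := by gcongr
    linarith
  obtain ⟨δ, hδ⟩ : ∃ δ, δ = 2 * c ^ (1 / 200 : ℝ) := ⟨_, rfl⟩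
  have hδ0 : 0 ≤ δ := by rw [hδ]; positivity
  have hsum : ∑ i, (Real.sqrt (σ ^ 2 / T) * q i) ^ 2 = σ ^ 2 / T * Q := by
    rw [hQ, Finset.mul_sum]
    refine Finset.sum_congr rfl fun i _ => ?_
    rw [mul_pow, Real.sq_sqrt (by positivity)]
  have key := avg hO hd κ hκ hκ1 hψ 0 T δ Q' hT0 hδ0 hQ'0
    (fun x => ph (fun i => Real.sqrt (σ ^ 2 / T) * q i) (x - a)) (fun x => (ph_norm _ _).le)
    p φ hφ (ε / 16) hp1 hp2 ?_ ?_
  · rw [← hQ]
    rw [← hCp] at key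
    have h1 : Cp * (3 * d * δ + 1200 * (2 * κ) ^ (1 / 2 : ℝ)) =
        Cp * (3 * d) * 2 * c ^ (1 / 200 : ℝ) + Cp * (1200 * (2 * κ) ^ (1 / 2 : ℝ)) := by
      rw [hδ]
      ring
    rw [h1] at key
    -- the change of the frequency
    have hIq : ∀ P : ℝ, 0 ≤ P → IntegrableOn (fun τ => φ τ * Nq d P τ) (Ioi 0) := by
      intro P hP
      refine Integrable.mono' hφ.norm (hφ.aestronglyMeasurable.mul (Nq_meas d P hO hd)) ?_
      filter_upwards [ae_restrict_mem measurableSet_Ioi] with τ hτ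
      have h2 := Nq_bd hO d hd P hP τ (le_of_lt hτ)
      rw [norm_mul, Real.norm_of_nonneg h2.1]
      exact mul_le_of_le_one_right (norm_nonneg _) h2.2
    have h2 : |(∫ τ in Ioi (0 : ℝ), φ τ * Nq d Q' τ) - ∫ τ in Ioi (0 : ℝ), φ τ * Nq d Q τ| ≤
        ε / 2 := by
      rw [← integral_sub (hIq Q' hQ'0) (hIq Q hQ0), ← Real.norm_eq_abs]
      refine (norm_integral_le_of_norm_le (hφ.norm.mul_const r2) ?_).trans ?_
      · filter_upwards [ae_restrict_mem measurableSet_Ioi] with τ hτ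
        rw [← mul_sub, norm_mul, Real.norm_eq_abs (Nq d Q' τ - _)]
        exact mul_le_mul_of_nonneg_left (Nq_diff hO d hd Q Q' r2 hQ0 hQQ hr20.le hQr τ
          (le_of_lt hτ)) (norm_nonneg _)
      · rw [integral_mul_const]
        simp only [Real.norm_eq_abs]
        rw [← hF]
        exact hr2F
    obtain ⟨Z, hZ⟩ : ∃ Z, Z = ∫ τ in Ioi (0 : ℝ), (φ τ : ℂ) *
      Xw (fun x => ph (fun i => Real.sqrt (σ ^ 2 / T) * q i) (x - a)) (ψ (T * τ)) := ⟨_, rfl⟩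
    rw [← hZ] at key ⊢
    have h3 : Z - ((∫ τ in Ioi (0 : ℝ), φ τ * Nq d Q τ : ℝ) : ℂ) =
        (Z - ((∫ τ in Ioi (0 : ℝ), φ τ * Nq d Q' τ : ℝ) : ℂ)) +
        (((∫ τ in Ioi (0 : ℝ), φ τ * Nq d Q' τ) - ∫ τ in Ioi (0 : ℝ), φ τ * Nq d Q τ : ℝ) : ℂ) := by
      push_cast
      ring
    rw [h3]
    refine (norm_add_le _ _).trans ?_
    rw [Complex.norm_real, Real.norm_eq_abs]
    linarith
  · intro j hj E hE u hu
    have hj0 : (0 : ℝ) ≤ j := Nat.cast_nonneg j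
    obtain ⟨k1, k2⟩ := hη j hj
    rw [zero_sub] at hu
    have h1 := (hGL ξ hξ).2 a ha' E hE _ k1 k2 u hu (fun i => Real.sqrt (σ ^ 2 / T) * q i) (by
      rw [hsum]
      have h2 : 4 * K * (((j : ℝ) + 1) / (2 * T) * (σ ^ 2 * V)) =
          σ ^ 2 / T * (((j : ℝ) + 1) * K * (2 * V)) := by
        field_simp
        ring
      rw [h2]
      have h3 : Q ≤ ((j : ℝ) + 1) * K * (2 * V) := by
        have h4 : 0 ≤ (j : ℝ) * K := by positivity
        have h5 : ((j : ℝ) + 1) * K = j * K + K := by ring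
        have h6 : ((j : ℝ) + 1) * K * 1 ≤ ((j : ℝ) + 1) * K * (2 * V) := by gcongr
        have h7 : Q ≤ K := by rw [hQ]; exact hq
        linarith
      gcongr)
    have h6 : Tg (G0 d) (G1 d) (((j : ℝ) + 1) / (2 * T)) (σ ^ 2 * V) E
        (fun i => Real.sqrt (σ ^ 2 / T) * q i) = Tk d Q' ((j : ℝ) + 1) E := by
      unfold Tg Tk Dc
      rw [hsum, hQ']
      congr 3
      field_simp
    rw [h6] at h1
    rw [hδ]
    exact h1
  · intro j hj E hE u hu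
    have hj0 : (0 : ℝ) ≤ j := Nat.cast_nonneg j
    obtain ⟨k1, k2⟩ := hη j hj
    rw [zero_sub] at hu
    have h1 := (hGL ξ hξ).2 a ha' E hE _ k1 k2 u hu (fun _ => 0) (by
      simp only [ne_eq, OfNat.ofNat_ne_zero, not_false_eq_true, zero_pow, Finset.sum_const_zero]
      positivity)
    unfold Xw at h1
    simp only [ph_zero, one_mul] at h1
    have h6 : Tg (G0 d) (G1 d) (((j : ℝ) + 1) / (2 * T)) (σ ^ 2 * V) E
        (fun _ : Fin d => 0) = (G0 d E).im := by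
      unfold Tg
      simp
    rw [h6, ← Complex.ofReal_tsum, ← Complex.ofReal_mul, ← Complex.ofReal_sub, Complex.norm_real,
      Real.norm_eq_abs] at h1
    rw [hδ]
    exact h1

end Pool.Agent.Q204.GA
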