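import Pool.Agent.Q204.GA.ParG
import Pool.Agent.Q62.QD.Eng

/-! The engine for laws of small variance, `d ≥ 3`. -/

set_option autoImplicit false
set_option linter.unusedSectionVars false

open scoped BigOperators Topology
open MeasureTheory Filter Set

namespace Pool.Agent.Q204.GA

open Pool.Agent.TH794.HK
open Pool.Agent.W788.BK
open Pool.Agent.H4R2.LO (Zd)
open Pool.Agent.W788.BK.Num
open Pool.Agent.TH794.QD
open Pool.Agent.TH794.QE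
open Pool.Agent.Q62.QD

/-- the law for the energies `B`, for one scale, laws of small variance -/
def EngV (d : ℕ) (B : ℝ → Prop) (γ0 γ1 : ℝ → ℂ) (b Kp : ℝ) : Prop :=
  ∃ y0 : ℝ, ∀ y : ℝ, y0 ≤ y →
    ∀ (ν : Measure ℝ), IsProbabilityMeasure ν → (∀ᵐ s ∂ν, |s| ≤ b) → ∫ s, s ∂ν = 0 →
    ∀ Vv : ℝ, ∫ s, s ^ 2 ∂ν = Vv → Real.exp (-(1 / 3000) * y) ≤ Vv →
    ∀ t : ℝ, Real.exp (-(81 / 40) * y) ≤ t → t ≤ Real.exp (-(161 / 80) * y) →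
    ∃ G : Set (Zd d → ℝ), MeasurableSet G ∧
      1 - Real.exp (-Real.exp (y / 100)) ≤ (Measure.infinitePi fun _ : Zd d => ν).real G ∧
      ∀ ξ ∈ G, QLawK d B (Tg γ0 γ1 t (Real.exp (-2 * y) * Vv))
        (Real.exp (-1 * y)) (Real.exp (Real.exp (y / 100))) t (Real.exp (-10 * y))
        (Kp * (t * (Real.exp (-2 * y) * Vv))) (Real.exp (-(1 / 180) * y)) ξ

theorem engV (hES : S_ES) (hTH : S_THIRD) (hFL : S_FLUCT) (hIN : S_INV)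
    (hSU : S_SUP) (hQB : S_QB) (hLO : S_LOW) (hAD : S_ADM) (hFA : S_FAC) (hO : S_OSC)
    (d : ℕ) (hd3 : 3 ≤ d) (κ : ℝ) (hκ : 0 < κ) (hκ1 : κ ≤ 1) (b Kp : ℝ) (hb : 0 < b)
    (hKp : 0 ≤ Kp) : EngV d (Bk d κ) (G0 d) (G1 d) b Kp := by
  have hd : 2 ≤ d := by omega
  have h2 : d ≠ 2 := by omega
  have hR : ∀ E : ℝ, RegE d κ E →
      Tendsto (fun t : ℝ => GF (F0 d) ((E : ℂ) + (t : ℂ) * Complex.I)) (𝓝[>] 0)
        (𝓝 (GF (F0 d) (E : ℂ))) ∧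
      Tendsto (fun t : ℝ => GF (F1 d) ((E : ℂ) + (t : ℂ) * Complex.I)) (𝓝[>] 0)
        (𝓝 (GF (F1 d) (E : ℂ))) ∧
      0 ≤ (GF (F1 d) (E : ℂ)).im ∧ (GF (F1 d) (E : ℂ)).im ≤ (GF (F0 d) (E : ℂ)).im := by
    intro E _
    have h1 := GF_im hO d hd3 (E : ℂ) (by simp)
    exact ⟨lim3 _ _ (hol0 hO d hd3) E, lim3 _ _ (hol1 hO d hd3) E, h1.1, h1.2⟩
  obtain ⟨m, hm, hl⟩ := low_lim d hd κ hκ hκ1 (fun E => GF (F1 d) (E : ℂ))
    fun E hE => (hR E hE).2.1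
  obtain ⟨CQ, hCQ, hdat⟩ := dat3 hQB hO d hd3
  obtain ⟨y0, h0⟩ := engineG hES hTH hFL hIN hSU hLO hAD hFA d hd (fun _ => True)
    (fun _ => True) (fun E => RegE d κ E ∧ |E| ≤ 2 * d - κ) C1 CQ
    (Pool.Agent.TH794.QD.CH d) (fun E => GF (F0 d) (E : ℂ)) (fun E => GF (F1 d) (E : ℂ)) hdat
    C1_ge hCQ (CH_nonneg d) 1 one_pos
    (fun E hE => by
      refine ⟨?_, trivial, fun x hx => trivial⟩
      rcases hE.1 with h | h
      · exact absurd h.1 h2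
      · exact h.2)
    (fun E x hE hx => trivial)
    b (m / 2) Kp hb (by positivity) hKp
    (fun E hE => by
      have h1 := hl E hE.1 hE.2
      have h2 := (hR E hE.1).2.2.2
      linarith)
  refine ⟨y0, fun y hy ν hν hνb hν0 Vv hVv hvV t ht1 ht2 => ?_⟩
  obtain ⟨G, hG, hP, hL⟩ := h0 y hy ν hν hνb hν0 Vv hVv hvV t ht1 ht2
  refine ⟨G, hG, hP, fun ξ hξ => ?_⟩
  have h4 := hL ξ hξ
  intro a ha E hE
  have e0 : G0 d E = GF (F0 d) (E : ℂ) := bvl_of (hR E hE.1).1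
  have e1 : G1 d E = GF (F1 d) (E : ℂ) := bvl_of (hR E hE.1).2.1
  have h5 := h4 a ha E hE
  unfold Tg at h5 ⊢
  rw [e0, e1]
  exact h5

end Pool.Agent.Q204.GA
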