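import Pool.Agent.Q204.GA.Cmp
import Pool.Agent.TH794.QD.Evo

/-! The evolution for an unbounded potential of at most linear growth. -/

set_option autoImplicit false
set_option linter.unusedSectionVars false

open scoped BigOperators Topology InnerProductSpace
open MeasureTheory Filter Set

namespace Pool.Agent.Q204.GA

open Pool.Agent.W788.LD.Spec (S)
open Pool.Agent.H4R2.LO (Zd)
open Pool.Agent.TH794.QD

variable {d : ℕ}

/-- the squared norm -/
theorem nsq_deriv {w : ℝ → HS d} {w' : HS d} {s : ℝ} (h : HasDerivAt w w' s) :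
    HasDerivAt (fun s => ‖w s‖ ^ 2) (2 * (⟪w s, w'⟫_ℂ).re) s := by
  have h1 := h.inner ℂ h
  have h2 := Complex.reCLM.hasFDerivAt.comp_hasDerivAt s h1
  have e1 : (fun s => ‖w s‖ ^ 2) = (fun s => Complex.reCLM (⟪w s, w s⟫_ℂ)) := by
    funext r
    rw [inner_self_eq_norm_sq_to_K]
    simp only [Complex.reCLM_apply]
    norm_cast
  rw [e1]
  refine h2.congr_deriv ?_
  simp only [Complex.reCLM_apply, Complex.add_re]
  have h3 : (⟪w', w s⟫_ℂ).re = (⟪w s, w'⟫_ℂ).re := by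
    rw [← inner_conj_symm, Complex.conj_re]
  rw [h3]
  ring

/-- the real part of the weighted generator -/
theorem comm_re (V ρ : Zd d → ℝ) (B M q : ℝ) (hB : 0 ≤ B) (hV : ∀ x, |V x| ≤ B) (hM : 0 ≤ M)
    (hρM : ∀ x, |ρ x| ≤ M) (hρ0 : ∀ x, 0 < ρ x) (hq0 : 0 ≤ q)
    (hq : ∀ x i, |ρ x - ρ (x + Pi.single i 1)| ≤ q * ρ (x + Pi.single i 1) ∧
      |ρ x - ρ (x - Pi.single i 1)| ≤ q * ρ (x - Pi.single i 1)) (w : HS d) :
    |(⟪Mu ρ M hM hρM w, Mu ρ M hM hρM ((-Complex.I) • Hop V B hB hV w)⟫_ℂ).re| ≤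
      2 * d * q * ‖Mu ρ M hM hρM w‖ ^ 2 := by
  obtain ⟨v, hv⟩ : ∃ v, v = Mu ρ M hM hρM w := ⟨_, rfl⟩
  have hvx : ∀ x, v x = (ρ x : ℂ) * w x := fun x => by rw [hv, Mu_apply]
  rw [← hv]
  have hsv : Summable fun x => ‖v x‖ ^ 2 := (hs_sum v).summable
  have hvn : ∑' x, ‖v x‖ ^ 2 = ‖v‖ ^ 2 := (hs_sum v).tsum_eq
  have i1 := lp.hasSum_inner (𝕜 := ℂ) v (Mu ρ M hM hρM ((-Complex.I) • Hop V B hB hV w))
  have i2 : HasSum (fun x => (⟪v x, (Mu ρ M hM hρM ((-Complex.I) • Hop V B hB hV w)) x⟫_ℂ).re)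
      (⟪v, Mu ρ M hM hρM ((-Complex.I) • Hop V B hB hV w)⟫_ℂ).re := Complex.hasSum_re i1
  have i3 := im_symm (fun x => v x) hsv
  have i4 := i2.add i3
  rw [add_zero] at i4
  have hcom : ∀ x, ‖(ρ x : ℂ) * S (fun y => w y) x - S (fun y => v y) x‖ ≤
      q * ∑ i : Fin d, (‖v (x + Pi.single i 1)‖ + ‖v (x - Pi.single i 1)‖) := by
    intro x
    unfold S
    rw [Finset.mul_sum, ← Finset.sum_sub_distrib, Finset.mul_sum]
    refine (norm_sum_le _ _).trans (Finset.sum_le_sum fun i _ => ?_)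
    simp only [hvx]
    have e1 : (ρ x : ℂ) * (w (x + Pi.single i 1) + w (x - Pi.single i 1)) -
        ((ρ (x + Pi.single i 1) : ℂ) * w (x + Pi.single i 1) +
          (ρ (x - Pi.single i 1) : ℂ) * w (x - Pi.single i 1)) =
        ((ρ x - ρ (x + Pi.single i 1) : ℝ) : ℂ) * w (x + Pi.single i 1) +
          ((ρ x - ρ (x - Pi.single i 1) : ℝ) : ℂ) * w (x - Pi.single i 1) := by
      push_cast
      ring
    rw [e1, norm_mul, norm_mul, Complex.norm_real, Complex.norm_real,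
      Real.norm_of_nonneg (hρ0 _).le, Real.norm_of_nonneg (hρ0 _).le]
    refine (norm_add_le _ _).trans ?_
    rw [norm_mul, norm_mul, Complex.norm_real, Complex.norm_real, Real.norm_eq_abs,
      Real.norm_eq_abs, mul_add]
    obtain ⟨q1, q2⟩ := hq x i
    have n1 := norm_nonneg (w (x + Pi.single i 1))
    have n2 := norm_nonneg (w (x - Pi.single i 1))
    have m1 := mul_le_mul_of_nonneg_right q1 n1
    have m2 := mul_le_mul_of_nonneg_right q2 n2
    rw [mul_assoc] at m1 m2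
    exact add_le_add m1 m2
  have hR : HasSum (fun x => ∑ i : Fin d, (q / 2 * (‖v x‖ ^ 2 + ‖v (x + Pi.single i 1)‖ ^ 2) +
      q / 2 * (‖v x‖ ^ 2 + ‖v (x - Pi.single i 1)‖ ^ 2))) (2 * d * q * ‖v‖ ^ 2) := by
    have hshift : ∀ e' : Zd d, HasSum (fun x => ‖v (x + e')‖ ^ 2) (‖v‖ ^ 2) := by
      intro e'
      rw [← tr_tsum e' v]
      exact (tr_sum e' v).hasSum
    have h2 : ∀ i ∈ (Finset.univ : Finset (Fin d)),
        HasSum (fun x : Zd d => q / 2 * (‖v x‖ ^ 2 + ‖v (x + Pi.single i 1)‖ ^ 2) +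
          q / 2 * (‖v x‖ ^ 2 + ‖v (x - Pi.single i 1)‖ ^ 2)) (2 * q * ‖v‖ ^ 2) := by
      intro i _
      have h3 := (((hs_sum v).add (hshift (Pi.single i 1))).mul_left (q / 2)).add
        (((hs_sum v).add (hshift (-Pi.single i 1))).mul_left (q / 2))
      simp only [← sub_eq_add_neg] at h3
      have e1 : 2 * q * ‖v‖ ^ 2 = q / 2 * (‖v‖ ^ 2 + ‖v‖ ^ 2) + q / 2 * (‖v‖ ^ 2 + ‖v‖ ^ 2) := by
        ring
      rw [e1]
      exact h3
    have h4 := hasSum_sum h2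
    simp only [Finset.sum_const, Finset.card_univ, Fintype.card_fin, nsmul_eq_mul] at h4
    have e1 : 2 * d * q * ‖v‖ ^ 2 = d * (2 * q * ‖v‖ ^ 2) := by ring
    rw [e1]
    exact h4
  have key : ∀ x, |(⟪v x, (Mu ρ M hM hρM ((-Complex.I) • Hop V B hB hV w)) x⟫_ℂ).re +
      ((starRingEnd ℂ) (v x) * S (fun y => v y) x).im| ≤
      ∑ i : Fin d, (q / 2 * (‖v x‖ ^ 2 + ‖v (x + Pi.single i 1)‖ ^ 2) +
      q / 2 * (‖v x‖ ^ 2 + ‖v (x - Pi.single i 1)‖ ^ 2)) := by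
    intro x
    have e2 : ((-Complex.I) • Hop V B hB hV w) x =
        -Complex.I * (-S (fun y => w y) x + (V x : ℂ) * w x) := by
      rw [← evl_apply x, map_smul, smul_eq_mul, evl_apply, Hop_apply]
    have e3 : (⟪v x, (Mu ρ M hM hρM ((-Complex.I) • Hop V B hB hV w)) x⟫_ℂ).re +
        ((starRingEnd ℂ) (v x) * S (fun y => v y) x).im =
        -((starRingEnd ℂ) (v x) * ((ρ x : ℂ) * S (fun y => w y) x - S (fun y => v y) x)).im := by
      rw [RCLike.inner_apply, Mu_apply, e2, hvx]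
      obtain ⟨s1, hs1⟩ : ∃ s1, s1 = S (fun y => w y) x := ⟨_, rfl⟩
      obtain ⟨s2, hs2⟩ : ∃ s2, s2 = S (fun y => v y) x := ⟨_, rfl⟩
      rw [← hs1, ← hs2]
      simp only [Complex.mul_im, Complex.mul_re, Complex.conj_re, Complex.conj_im, Complex.sub_re,
        Complex.sub_im, Complex.add_re, Complex.add_im, Complex.neg_re, Complex.neg_im,
        Complex.ofReal_re, Complex.ofReal_im, Complex.I_re, Complex.I_im]
      ring
    rw [e3, abs_neg]
    have h9 := Complex.abs_im_le_norm ((starRingEnd ℂ) (v x) *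
      ((ρ x : ℂ) * S (fun y => w y) x - S (fun y => v y) x))
    rw [norm_mul, Complex.norm_conj] at h9
    have h11 := mul_le_mul_of_nonneg_left (hcom x) (norm_nonneg (v x))
    refine h9.trans (h11.trans ?_)
    rw [← mul_assoc, Finset.mul_sum]
    refine Finset.sum_le_sum fun i _ => ?_
    have a1 : ‖v x‖ * q * ‖v (x + Pi.single i 1)‖ ≤
        q / 2 * (‖v x‖ ^ 2 + ‖v (x + Pi.single i 1)‖ ^ 2) := by
      nlinarith [mul_nonneg hq0 (sq_nonneg (‖v x‖ - ‖v (x + Pi.single i 1)‖))]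
    have a2 : ‖v x‖ * q * ‖v (x - Pi.single i 1)‖ ≤
        q / 2 * (‖v x‖ ^ 2 + ‖v (x - Pi.single i 1)‖ ^ 2) := by
      nlinarith [mul_nonneg hq0 (sq_nonneg (‖v x‖ - ‖v (x - Pi.single i 1)‖))]
    rw [mul_add]
    exact add_le_add a1 a2
  rw [abs_le]
  constructor
  · exact hasSum_le (fun x => (abs_le.1 (key x)).1) hR.neg i4
  · exact hasSum_le (fun x => (abs_le.1 (key x)).2) i4 hR

/-- the initial state -/
noncomputable def dlt (a : Zd d) : HS d :=
  hmk (fun x => if x = a then (1 : ℂ) else 0) (single_sum a).summable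

theorem dlt_apply (a x : Zd d) : dlt a x = if x = a then 1 else 0 := rfl

theorem dlt_norm (a : Zd d) : ‖dlt a‖ = 1 := by
  have h1 : ‖dlt a‖ ^ 2 = 1 := by
    have h1 := hs_sum (dlt a)
    exact h1.unique (single_sum a)
  rw [← pow_left_inj₀ (norm_nonneg _) zero_le_one two_ne_zero, h1, one_pow]

/-- the evolution of the bounded operator -/
noncomputable def Ev (V : Zd d → ℝ) (B : ℝ) (hB : 0 ≤ B) (hV : ∀ x, |V x| ≤ B) (a : Zd d)
    (s : ℝ) : HS d := NormedSpace.exp ((s : ℂ) • ((-Complex.I) • Hop V B hB hV)) (dlt a)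

theorem Ev_zero (V : Zd d → ℝ) (B : ℝ) (hB : 0 ≤ B) (hV : ∀ x, |V x| ≤ B) (a : Zd d) :
    Ev V B hB hV a 0 = dlt a := by
  unfold Ev
  simp only [Complex.ofReal_zero, zero_smul, NormedSpace.exp_zero]
  rfl

theorem Ev_norm (V : Zd d → ℝ) (B : ℝ) (hB : 0 ≤ B) (hV : ∀ x, |V x| ≤ B) (a : Zd d) (s : ℝ) :
    ‖Ev V B hB hV a s‖ = 1 := by
  unfold Ev
  have h3 : NormedSpace.exp ((s : ℂ) • ((-Complex.I) • Hop V B hB hV)) ∈
      unitary (HS d →L[ℂ] HS d) := by
    let +nondep : NormedAlgebra ℚ (HS d →L[ℂ] HS d) := NormedAlgebra.restrictScalars ℚ ℂ _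
    apply NormedSpace.exp_mem_unitary_of_mem_skewAdjoint
    exact gen_skew V B hB hV s
  rw [ContinuousLinearMap.norm_map_of_mem_unitary h3 (dlt a), dlt_norm]

theorem Ev_deriv (V : Zd d → ℝ) (B : ℝ) (hB : 0 ≤ B) (hV : ∀ x, |V x| ≤ B) (a : Zd d) (s : ℝ)
    (L : HS d →L[ℂ] HS d) :
    HasDerivAt (fun s => L (Ev V B hB hV a s))
      (L ((-Complex.I) • Hop V B hB hV (Ev V B hB hV a s))) s := by
  obtain ⟨A, hA⟩ : ∃ A : HS d →L[ℂ] HS d, A = (-Complex.I) • Hop V B hB hV := ⟨_, rfl⟩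
  have h1 := hasDerivAt_exp_smul_const' (𝕂 := ℂ) A (s : ℂ)
  have h2 : HasDerivAt (fun z : ℂ => (L.comp (ContinuousLinearMap.apply ℂ (HS d) (dlt a)))
      (NormedSpace.exp (z • A))) ((L.comp (ContinuousLinearMap.apply ℂ (HS d) (dlt a)))
      (A * NormedSpace.exp ((s : ℂ) • A))) (s : ℂ) :=
    (ContinuousLinearMap.hasFDerivAt _).comp_hasDerivAt (s : ℂ) h1
  have hh : HasDerivAt (fun y : ℝ => (y : ℂ)) 1 s := by
    have := (hasDerivAt_id s).ofReal_comp
    simpa using this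
  have h3 := HasDerivAt.scomp s h2 hh
  rw [one_smul] at h3
  have e1 : ∀ K : HS d →L[ℂ] HS d,
      (L.comp (ContinuousLinearMap.apply ℂ (HS d) (dlt a))) K = L (K (dlt a)) := fun K => rfl
  simp only [e1] at h3
  unfold Ev
  rw [← hA]
  refine h3.congr_deriv ?_
  rw [ContinuousLinearMap.mul_apply]
  obtain ⟨W, hW⟩ : ∃ W, W = NormedSpace.exp ((s : ℂ) • A) (dlt a) := ⟨_, rfl⟩
  rw [← hW, hA]
  rfl

/-- the weighted norm of the evolution -/
theorem Ev_wt (V ρ : Zd d → ℝ) (B M q : ℝ) (hB : 0 ≤ B) (hV : ∀ x, |V x| ≤ B) (hM : 0 ≤ M)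
    (hρM : ∀ x, |ρ x| ≤ M) (hρ0 : ∀ x, 0 < ρ x) (hq0 : 0 ≤ q)
    (hq : ∀ x i, |ρ x - ρ (x + Pi.single i 1)| ≤ q * ρ (x + Pi.single i 1) ∧
      |ρ x - ρ (x - Pi.single i 1)| ≤ q * ρ (x - Pi.single i 1)) (a : Zd d) (s : ℝ) :
    ‖Mu ρ M hM hρM (Ev V B hB hV a s)‖ ^ 2 ≤
      Real.exp (4 * d * q * |s|) * ‖Mu ρ M hM hρM (dlt a)‖ ^ 2 := by
  obtain ⟨f, hf⟩ : ∃ f : ℝ → ℝ, f = fun s => ‖Mu ρ M hM hρM (Ev V B hB hV a s)‖ ^ 2 := ⟨_, rfl⟩
  obtain ⟨f', hf'⟩ : ∃ f' : ℝ → ℝ, f' = fun s => 2 * (⟪Mu ρ M hM hρM (Ev V B hB hV a s),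
    Mu ρ M hM hρM ((-Complex.I) • Hop V B hB hV (Ev V B hB hV a s))⟫_ℂ).re := ⟨_, rfl⟩
  have hd : ∀ s, HasDerivAt f (f' s) s := by
    intro s
    rw [hf, hf']
    exact nsq_deriv (Ev_deriv V B hB hV a s (Mu ρ M hM hρM))
  obtain ⟨c, hc⟩ : ∃ c, c = 4 * d * q := ⟨_, rfl⟩
  have hb : ∀ s, |f' s| ≤ c * f s := by
    intro s
    rw [hf', hf]
    simp only
    rw [abs_mul, abs_of_pos (by norm_num : (0 : ℝ) < 2)]
    have := comm_re V ρ B M q hB hV hM hρM hρ0 hq0 hq (Ev V B hB hV a s)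
    rw [hc]
    linarith
  have hfs : ‖Mu ρ M hM hρM (Ev V B hB hV a s)‖ ^ 2 = f s := by rw [hf]
  have hf0 : ‖Mu ρ M hM hρM (dlt a)‖ ^ 2 = f 0 := by rw [hf]; simp only; rw [Ev_zero]
  rw [hfs, hf0, ← hc]
  have he : ∀ (k s : ℝ), HasDerivAt (fun s => Real.exp (k * s) * f s)
      (Real.exp (k * s) * k * f s + Real.exp (k * s) * f' s) s := by
    intro k s
    have h1 : HasDerivAt (fun s => Real.exp (k * s)) (Real.exp (k * s) * k) s := by
      have := ((hasDerivAt_id s).const_mul k).exp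
      simpa using this
    exact h1.mul (hd s)
  rcases le_total 0 s with hs | hs
  · rw [abs_of_nonneg hs]
    have hanti : Antitone fun s => Real.exp (-c * s) * f s := by
      apply antitone_of_hasDerivAt_nonpos (fun s => he (-c) s)
      intro s
      change Real.exp (-c * s) * -c * f s + Real.exp (-c * s) * f' s ≤ 0
      have h1 := (abs_le.1 (hb s)).2
      have h2 := Real.exp_pos (-c * s)
      have h3 : Real.exp (-c * s) * -c * f s + Real.exp (-c * s) * f' s =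
          Real.exp (-c * s) * (f' s - c * f s) := by ring
      rw [h3]
      exact mul_nonpos_of_nonneg_of_nonpos h2.le (by linarith)
    have h1 := hanti hs
    simp only [mul_zero, Real.exp_zero, one_mul] at h1
    have h2 : f s = Real.exp (c * s) * (Real.exp (-c * s) * f s) := by
      rw [← mul_assoc, ← Real.exp_add]
      simp
    rw [h2]
    gcongr
  · rw [abs_of_nonpos hs]
    have hmono : Monotone fun s => Real.exp (c * s) * f s := by
      apply monotone_of_hasDerivAt_nonneg (fun s => he c s)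
      intro s
      change 0 ≤ Real.exp (c * s) * c * f s + Real.exp (c * s) * f' s
      have h1 := (abs_le.1 (hb s)).1
      have h2 := Real.exp_pos (c * s)
      have h3 : Real.exp (c * s) * c * f s + Real.exp (c * s) * f' s =
          Real.exp (c * s) * (f' s + c * f s) := by ring
      rw [h3]
      exact mul_nonneg h2.le (by linarith)
    have h1 := hmono hs
    simp only [mul_zero, Real.exp_zero, one_mul] at h1
    have h2 : f s = Real.exp (c * -s) * (Real.exp (c * s) * f s) := by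
      rw [← mul_assoc, ← Real.exp_add]
      simp
    rw [h2]
    gcongr

/-- the evolution decays exponentially in space -/
theorem Ev_exp (V : Zd d → ℝ) (B : ℝ) (hB : 0 ≤ B) (hV : ∀ x, |V x| ≤ B) (a : Zd d) (s : ℝ)
    (F : Finset (Zd d)) :
    ∑ x ∈ F, (Real.exp ‖x - a‖ * ‖Ev V B hB hV a s x‖) ^ 2 ≤ Real.exp (8 * d * |s|) := by
  obtain ⟨N, hN1⟩ : ∃ N, N = ∑ x ∈ F, ‖x - a‖ := ⟨_, rfl⟩
  have hN0 : 0 ≤ N := by rw [hN1]; exact Finset.sum_nonneg fun x _ => norm_nonneg _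
  obtain ⟨ρ, hρ⟩ : ∃ ρ : Zd d → ℝ, ρ = fun x => Real.exp (1 * min ‖x - a‖ N) := ⟨_, rfl⟩
  have hρx : ∀ x, ρ x = Real.exp (1 * min ‖x - a‖ N) := fun x => by rw [hρ]
  have hρ0 : ∀ x, 0 < ρ x := fun x => by rw [hρx]; positivity
  have hρM : ∀ x, |ρ x| ≤ Real.exp (1 * N) := fun x => by
    rw [abs_of_pos (hρ0 x), hρx]
    apply Real.exp_le_exp.2
    apply mul_le_mul_of_nonneg_left (min_le_right _ _) zero_le_one
  have hq : ∀ x i, |ρ x - ρ (x + Pi.single i 1)| ≤ (Real.exp 1 - 1) * ρ (x + Pi.single i 1) ∧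
      |ρ x - ρ (x - Pi.single i 1)| ≤ (Real.exp 1 - 1) * ρ (x - Pi.single i 1) := by
    intro x i
    have hs := norm_single_le (d := d) i
    simp only [hρx]
    constructor
    · apply rho_diff 1 zero_le_one
      refine (abs_min_sub_min_le_max _ _ _ _).trans ?_
      rw [sub_self, abs_zero]
      refine max_le ((abs_norm_sub_norm_le _ _).trans ?_) zero_le_one
      have : x - a - (x + Pi.single i 1 - a) = -Pi.single i 1 := by abel
      rw [this, norm_neg]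
      exact hs
    · apply rho_diff 1 zero_le_one
      refine (abs_min_sub_min_le_max _ _ _ _).trans ?_
      rw [sub_self, abs_zero]
      refine max_le ((abs_norm_sub_norm_le _ _).trans ?_) zero_le_one
      have : x - a - (x - Pi.single i 1 - a) = Pi.single i 1 := by abel
      rw [this]
      exact hs
  have hM : 0 ≤ Real.exp (1 * N) := (Real.exp_pos _).le
  have hq0 : 0 ≤ Real.exp 1 - 1 := by linarith [Real.one_le_exp (zero_le_one (α := ℝ))]
  have h1 := Ev_wt V ρ B _ _ hB hV hM hρM hρ0 hq0 hq a s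
  have h2 : ‖Mu ρ (Real.exp (1 * N)) hM hρM (dlt a)‖ ^ 2 = 1 := by
    refine (hs_sum _).unique ?_
    have e1 : (fun x => ‖Mu ρ (Real.exp (1 * N)) hM hρM (dlt a) x‖ ^ 2) =
        fun x : Zd d => ‖if x = a then (1 : ℂ) else 0‖ ^ 2 := by
      funext x
      rw [Mu_apply, dlt_apply]
      by_cases hx : x = a
      · rw [if_pos hx, hx, hρx, sub_self, norm_zero, min_eq_left hN0]
        simp
      · rw [if_neg hx]
        simp
    rw [e1]
    exact single_sum a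
  rw [h2, mul_one] at h1
  have h3 : ∑ x ∈ F, (Real.exp ‖x - a‖ * ‖Ev V B hB hV a s x‖) ^ 2 ≤
      ‖Mu ρ (Real.exp (1 * N)) hM hρM (Ev V B hB hV a s)‖ ^ 2 := by
    rw [← (hs_sum (Mu ρ (Real.exp (1 * N)) hM hρM (Ev V B hB hV a s))).tsum_eq]
    refine le_trans (le_of_eq (Finset.sum_congr rfl fun x hx => ?_))
      ((hs_sum _).summable.sum_le_tsum F fun x _ => sq_nonneg _)
    have : ‖x - a‖ ≤ N := by
      rw [hN1]
      exact Finset.single_le_sum (f := fun x => ‖x - a‖) (fun x _ => norm_nonneg _) hx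
    rw [Mu_apply, norm_mul, Complex.norm_real, Real.norm_of_nonneg (hρ0 x).le, hρx,
      min_eq_left this, one_mul]
  refine h3.trans (h1.trans (Real.exp_le_exp.2 ?_))
  have he := Real.exp_one_lt_d9
  have : 4 * (d : ℝ) * (Real.exp 1 - 1) ≤ 4 * d * 2 := by
    apply mul_le_mul_of_nonneg_left (by linarith) (by positivity)
  calc 4 * (d : ℝ) * (Real.exp 1 - 1) * |s| ≤ 4 * d * 2 * |s| := by gcongr
    _ = 8 * d * |s| := by ring

/-- a multiplication by a slowly growing function -/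
theorem Ev_mul (V : Zd d → ℝ) (B : ℝ) (hB : 0 ≤ B) (hV : ∀ x, |V x| ≤ B) (a : Zd d) (s : ℝ)
    (g : Zd d → ℝ) (M ε : ℝ) (hM : 0 ≤ M) (hgM : ∀ x, |g x| ≤ M) (hε : 0 ≤ ε)
    (hg : ∀ x, |g x| ≤ ε * Real.exp ‖x - a‖) :
    ‖Mu g M hM hgM (Ev V B hB hV a s)‖ ≤ ε * Real.exp (4 * d * |s|) := by
  have h1 : ‖Mu g M hM hgM (Ev V B hB hV a s)‖ ^ 2 ≤ (ε * Real.exp (4 * d * |s|)) ^ 2 := by
    refine hasSum_le_of_sum_le (hs_sum _) fun F => ?_
    have e1 : (ε * Real.exp (4 * d * |s|)) ^ 2 = ε ^ 2 * Real.exp (8 * d * |s|) := by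
      rw [mul_pow, sq (Real.exp _), ← Real.exp_add]
      congr 2
      ring
    rw [e1]
    refine le_trans ?_ (mul_le_mul_of_nonneg_left (Ev_exp V B hB hV a s F) (sq_nonneg ε))
    rw [Finset.mul_sum]
    refine Finset.sum_le_sum fun x _ => ?_
    rw [Mu_apply, norm_mul, Complex.norm_real, Real.norm_eq_abs, ← mul_pow, ← mul_assoc]
    have := hg x
    gcongr
  exact le_of_sq_le_sq h1 (by positivity)

end Pool.Agent.Q204.GA
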