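import Pool.Agent.Q204.GA.EvoG

/-! The evolution for an unbounded potential of at most linear growth: existence. -/

set_option autoImplicit false
set_option linter.unusedSectionVars false

open scoped BigOperators Topology InnerProductSpace
open MeasureTheory Filter Set

namespace Pool.Agent.Q204.GA

open Pool.Agent.W788.LD.Spec (S)
open Pool.Agent.H4R2.LO (Zd)
open Pool.Agent.TH794.QD

variable {d : ℕ}

/-- the truncated potential -/
noncomputable def Vt (V : Zd d → ℝ) (n : ℕ) (x : Zd d) : ℝ := if ‖x‖ ≤ n then V x else 0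

theorem Vt_bd (V : Zd d → ℝ) (C : ℝ) (hC : 0 ≤ C) (hV : ∀ x, |V x| ≤ C * (1 + ‖x‖)) (n : ℕ) :
    ∀ x, |Vt V n x| ≤ C * (1 + n) := by
  intro x
  unfold Vt
  split_ifs with h
  · refine (hV x).trans ?_
    gcongr
  · rw [abs_zero]
    positivity

theorem Vt_diff (V : Zd d → ℝ) (C : ℝ) (hC : 0 ≤ C) (hV : ∀ x, |V x| ≤ C * (1 + ‖x‖)) (n m : ℕ)
    (hnm : n ≤ m) (a x : Zd d) :
    |Vt V n x - Vt V m x| ≤ 2 * C * Real.exp ‖a‖ * Real.exp (-(n / 2)) * Real.exp ‖x - a‖ := by
  by_cases h : ‖x‖ ≤ n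
  · have h2 : ‖x‖ ≤ m := h.trans (by exact_mod_cast hnm)
    unfold Vt
    rw [if_pos h, if_pos h2, sub_self, abs_zero]
    positivity
  · have h1 : |Vt V n x - Vt V m x| ≤ C * (1 + ‖x‖) := by
      unfold Vt
      rw [if_neg h, zero_sub, abs_neg]
      split_ifs
      · exact hV x
      · rw [abs_zero]
        positivity
    refine h1.trans ?_
    push Not at h
    have h2 : ‖x‖ ≤ ‖x - a‖ + ‖a‖ := by
      have := norm_add_le (x - a) a
      rwa [sub_add_cancel] at this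
    have h3 := Real.add_one_le_exp (‖x‖ / 2)
    have e1 : 2 * C * Real.exp ‖a‖ * Real.exp (-(n / 2)) * Real.exp ‖x - a‖ =
        C * (2 * Real.exp (‖a‖ + -(n / 2) + ‖x - a‖)) := by
      rw [Real.exp_add, Real.exp_add]
      ring
    rw [e1]
    apply mul_le_mul_of_nonneg_left _ hC
    have h4 : Real.exp (‖x‖ / 2) ≤ Real.exp (‖a‖ + -(n / 2) + ‖x - a‖) := by
      apply Real.exp_le_exp.2
      linarith
    linarith

theorem Hop_sub (V V' : Zd d → ℝ) (B B' M : ℝ) (hB : 0 ≤ B) (hB' : 0 ≤ B') (hM : 0 ≤ M)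
    (hV : ∀ x, |V x| ≤ B) (hV' : ∀ x, |V' x| ≤ B') (hg : ∀ x, |V x - V' x| ≤ M) (u : HS d) :
    Hop V B hB hV u - Hop V' B' hB' hV' u = Mu (fun x => V x - V' x) M hM hg u := by
  ext x
  have e1 : (Hop V B hB hV u - Hop V' B' hB' hV' u) x =
      Hop V B hB hV u x - Hop V' B' hB' hV' u x := rfl
  rw [e1, Hop_apply, Hop_apply, Mu_apply]
  push_cast
  ring

theorem re_skew (V : Zd d → ℝ) (B : ℝ) (hB : 0 ≤ B) (hV : ∀ x, |V x| ≤ B) (u : HS d) :
    (⟪u, (-Complex.I) • Hop V B hB hV u⟫_ℂ).re = 0 := by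
  rw [inner_smul_right]
  have h1 := Hop_symm V B hB hV u u
  have h2 : (starRingEnd ℂ) (⟪u, Hop V B hB hV u⟫_ℂ) = ⟪u, Hop V B hB hV u⟫_ℂ := by
    rw [inner_conj_symm, h1]
  have h3 : (⟪u, Hop V B hB hV u⟫_ℂ).im = 0 := Complex.conj_eq_iff_im.1 h2
  simp only [Complex.mul_re, Complex.neg_re, Complex.neg_im, Complex.I_re, Complex.I_im, h3]
  ring

section
variable (V : Zd d → ℝ) (C : ℝ) (hC : 0 ≤ C) (hV : ∀ x, |V x| ≤ C * (1 + ‖x‖)) (a : Zd d)

/-- the evolution of the truncated operator -/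
noncomputable def Wn (n : ℕ) (s : ℝ) : HS d :=
  Ev (Vt V n) (C * (1 + n)) (by positivity) (Vt_bd V C hC hV n) a s

theorem Wn_diff (n m : ℕ) (hnm : n ≤ m) (s : ℝ) :
    ‖Wn V C hC hV a n s - Wn V C hC hV a m s‖ ^ 2 ≤
      4 * (2 * C * Real.exp ‖a‖ * Real.exp (-(n / 2)) * Real.exp (4 * d * |s|)) * |s| := by
  obtain ⟨ε, hε⟩ : ∃ ε, ε = 2 * C * Real.exp ‖a‖ * Real.exp (-(n / 2)) := ⟨_, rfl⟩
  have hε0 : 0 ≤ ε := by rw [hε]; positivity
  rw [← hε]
  have hg : ∀ x, |Vt V n x - Vt V m x| ≤ C * (1 + n) + C * (1 + m) := by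
    intro x
    refine (abs_sub _ _).trans ?_
    have h1 := Vt_bd V C hC hV n x
    have h2 := Vt_bd V C hC hV m x
    linarith
  have hd : ∀ r, HasDerivAt (fun s => ‖Wn V C hC hV a n s - Wn V C hC hV a m s‖ ^ 2)
      (2 * (⟪Wn V C hC hV a n r - Wn V C hC hV a m r,
        (-Complex.I) • Hop (Vt V n) (C * (1 + n)) (by positivity) (Vt_bd V C hC hV n)
          (Wn V C hC hV a n r) -
        (-Complex.I) • Hop (Vt V m) (C * (1 + m)) (by positivity) (Vt_bd V C hC hV m)
          (Wn V C hC hV a m r)⟫_ℂ).re) r := by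
    intro r
    apply nsq_deriv
    exact (Ev_deriv _ _ _ _ a r (ContinuousLinearMap.id ℂ (HS d))).sub
      (Ev_deriv _ _ _ _ a r (ContinuousLinearMap.id ℂ (HS d)))
  have hb : ∀ r ∈ Set.Icc (-|s|) |s|, ‖2 * (⟪Wn V C hC hV a n r - Wn V C hC hV a m r,
        (-Complex.I) • Hop (Vt V n) (C * (1 + n)) (by positivity) (Vt_bd V C hC hV n)
          (Wn V C hC hV a n r) -
        (-Complex.I) • Hop (Vt V m) (C * (1 + m)) (by positivity) (Vt_bd V C hC hV m)
          (Wn V C hC hV a m r)⟫_ℂ).re‖ ≤ 4 * (ε * Real.exp (4 * d * |s|)) := by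
    intro r hr
    have hrs : |r| ≤ |s| := abs_le.2 hr
    obtain ⟨D, hD⟩ : ∃ D, D = Wn V C hC hV a n r - Wn V C hC hV a m r := ⟨_, rfl⟩
    obtain ⟨w, hw⟩ : ∃ w, w = Wn V C hC hV a m r := ⟨_, rfl⟩
    have hwn : Wn V C hC hV a n r = D + w := by rw [hD, hw, sub_add_cancel]
    rw [← hD, ← hw, hwn]
    have e1 : (-Complex.I) • Hop (Vt V n) (C * (1 + n)) (by positivity) (Vt_bd V C hC hV n)
          (D + w) -
        (-Complex.I) • Hop (Vt V m) (C * (1 + m)) (by positivity) (Vt_bd V C hC hV m) w =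
        (-Complex.I) • Hop (Vt V n) (C * (1 + n)) (by positivity) (Vt_bd V C hC hV n) D +
        (-Complex.I) • Mu (fun x => Vt V n x - Vt V m x) (C * (1 + n) + C * (1 + m))
          (by positivity) hg w := by
      rw [← Hop_sub (Vt V n) (Vt V m) (C * (1 + n)) (C * (1 + m)) _ (by positivity)
        (by positivity) (by positivity) (Vt_bd V C hC hV n) (Vt_bd V C hC hV m) hg w, map_add,
        smul_add, smul_sub]
      abel
    rw [e1, inner_add_right, Complex.add_re, re_skew, zero_add]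
    have h1 : |(⟪D, (-Complex.I) • Mu (fun x => Vt V n x - Vt V m x) (C * (1 + n) + C * (1 + m))
          (by positivity) hg w⟫_ℂ).re| ≤ ‖D‖ * (ε * Real.exp (4 * d * |s|)) := by
      refine (Complex.abs_re_le_norm _).trans ((norm_inner_le_norm _ _).trans ?_)
      apply mul_le_mul_of_nonneg_left _ (norm_nonneg _)
      rw [norm_smul, norm_neg, Complex.norm_I, one_mul, hw]
      refine (Ev_mul _ _ _ _ a r _ _ ε (by positivity) hg hε0 (fun x => ?_)).trans ?_
      · rw [hε]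
        exact Vt_diff V C hC hV n m hnm a x
      · gcongr
    have h2 : ‖D‖ ≤ 2 := by
      rw [hD]
      refine (norm_sub_le _ _).trans ?_
      have a1 : ‖Wn V C hC hV a n r‖ = 1 := Ev_norm _ _ _ _ a r
      have a2 : ‖Wn V C hC hV a m r‖ = 1 := Ev_norm _ _ _ _ a r
      rw [a1, a2]
      norm_num
    rw [Real.norm_eq_abs, abs_mul, abs_of_pos (by norm_num : (0 : ℝ) < 2)]
    have h3 : 0 ≤ ε * Real.exp (4 * d * |s|) := by positivity
    have h4 := mul_le_mul_of_nonneg_right h2 h3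
    linarith
  have h1 := Convex.norm_image_sub_le_of_norm_hasDerivWithin_le
    (fun r hr => (hd r).hasDerivWithinAt (s := Set.Icc (-|s|) |s|)) hb (convex_Icc _ _)
    (x := 0) (y := s) (by constructor <;> simp) (by
      have := neg_abs_le s
      exact ⟨this, le_abs_self s⟩)
  have h0 : ‖Wn V C hC hV a n 0 - Wn V C hC hV a m 0‖ ^ 2 = 0 := by
    have a1 : Wn V C hC hV a n 0 = dlt a := Ev_zero _ _ _ _ a
    have a2 : Wn V C hC hV a m 0 = dlt a := Ev_zero _ _ _ _ a
    rw [a1, a2, sub_self, norm_zero]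
    norm_num
  simp only [sub_zero] at h1
  rw [h0, sub_zero, Real.norm_eq_abs, Real.norm_eq_abs] at h1
  exact (le_abs_self _).trans h1

/-- the rate -/
noncomputable def bn (n : ℕ) (s : ℝ) : ℝ :=
  Real.sqrt (4 * (2 * C * Real.exp ‖a‖ * Real.exp (-(n / 2)) * Real.exp (4 * d * |s|)) * |s|)

include hC in
theorem bn_mono (n : ℕ) (s T : ℝ) (h : |s| ≤ T) : bn C a n s ≤ bn C a n T := by
  unfold bn
  apply Real.sqrt_le_sqrt
  have h0 := abs_nonneg s
  have h1 : |T| = T := abs_of_nonneg (h0.trans h)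
  rw [h1]
  gcongr

theorem bn_lim (s : ℝ) : Tendsto (fun n => bn C a n s) atTop (𝓝 0) := by
  have h1 : Tendsto (fun n : ℕ => Real.exp (-((n : ℝ) / 2))) atTop (𝓝 0) := by
    apply Real.tendsto_exp_neg_atTop_nhds_zero.comp
    exact tendsto_natCast_atTop_atTop.atTop_div_const (by norm_num)
  have h2 : Tendsto (fun n : ℕ => 4 * (2 * C * Real.exp ‖a‖ * Real.exp (-((n : ℝ) / 2)) *
      Real.exp (4 * d * |s|)) * |s|) atTop (𝓝 (4 * (2 * C * Real.exp ‖a‖ * 0 *
      Real.exp (4 * d * |s|)) * |s|)) :=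
    (((h1.const_mul (2 * C * Real.exp ‖a‖)).mul_const _).const_mul 4).mul_const _
  have h3 := (Real.continuous_sqrt.tendsto _).comp h2
  simp only [mul_zero, zero_mul, Real.sqrt_zero] at h3
  exact h3

theorem W_exists : ∃ W : ℝ → HS d, ∀ s n, ‖Wn V C hC hV a n s - W s‖ ≤ bn C a n s := by
  have h1 : ∀ s, ∃ w : HS d, ∀ n, ‖Wn V C hC hV a n s - w‖ ≤ bn C a n s := by
    intro s
    have hle : ∀ n m, n ≤ m → ‖Wn V C hC hV a n s - Wn V C hC hV a m s‖ ≤ bn C a n s := by
      intro n m hnm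
      exact Real.le_sqrt_of_sq_le (Wn_diff V C hC hV a n m hnm s)
    have hc : CauchySeq fun n => Wn V C hC hV a n s :=
      cauchySeq_of_le_tendsto_0' (bn C a · s) (fun n m hnm => by
        rw [dist_eq_norm]
        exact hle n m hnm) (bn_lim C a s)
    obtain ⟨w, hw⟩ := cauchySeq_tendsto_of_complete hc
    refine ⟨w, fun n => ?_⟩
    have h2 : Tendsto (fun m => ‖Wn V C hC hV a n s - Wn V C hC hV a m s‖) atTop
        (𝓝 ‖Wn V C hC hV a n s - w‖) := (hw.const_sub _).norm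
    exact le_of_tendsto h2 ((eventually_ge_atTop n).mono fun m hm => hle n m hm)
  choose W hW using h1
  exact ⟨W, hW⟩

theorem W_lim (W : ℝ → HS d) (hW : ∀ s n, ‖Wn V C hC hV a n s - W s‖ ≤ bn C a n s) (s : ℝ) :
    Tendsto (fun n => Wn V C hC hV a n s) atTop (𝓝 (W s)) := by
  rw [tendsto_iff_norm_sub_tendsto_zero]
  exact squeeze_zero (fun n => norm_nonneg _) (fun n => hW s n) (bn_lim C a s)

theorem W_sol (W : ℝ → HS d) (hW : ∀ s n, ‖Wn V C hC hV a n s - W s‖ ≤ bn C a n s) :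
    Sol d V a (fun s x => W s x) := by
  have hlim := W_lim V C hC hV a W hW
  have hpt : ∀ s x, Tendsto (fun n => Wn V C hC hV a n s x) atTop (𝓝 (W s x)) := by
    intro s x
    exact ((evl x).continuous.tendsto _).comp (hlim s)
  refine ⟨fun x => ?_, fun s x => ?_, fun s => ?_⟩
  · have h1 : Wn V C hC hV a 0 0 = W 0 := by
      have h2 := hW 0 0
      have h3 : bn C a 0 0 = 0 := by
        unfold bn
        simp
      rw [h3] at h2
      exact sub_eq_zero.1 (norm_le_zero_iff.1 h2)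
    change W 0 x = _
    rw [← h1]
    have a1 : Wn V C hC hV a 0 0 = dlt a := Ev_zero _ _ _ _ a
    rw [a1, dlt_apply]
  · obtain ⟨T, hT⟩ : ∃ T, T = |s| + 1 := ⟨_, rfl⟩
    have hT0 : 0 ≤ T := by rw [hT]; positivity
    have hsT : s ∈ Set.Ioo (-T) T := by
      have := neg_abs_le s
      have := le_abs_self s
      constructor <;> linarith
    have key := hasDerivAt_of_tendstoUniformlyOn (l := atTop) (s := Set.Ioo (-T) T)
      (f := fun n r => Wn V C hC hV a n r x)
      (f' := fun n r => -Complex.I * (-S (fun y => Wn V C hC hV a n r y) x +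
        (Vt V n x : ℂ) * Wn V C hC hV a n r x)) (g := fun r => W r x)
      (g' := fun r => -Complex.I * (-S (fun y => W r y) x + (V x : ℂ) * W r x)) isOpen_Ioo ?_ ?_
      (fun r _ => hpt r x) hsT
    · exact key
    · rw [Metric.tendstoUniformlyOn_iff]
      intro ε hε
      have h1 := (bn_lim C a T).const_mul (2 * d + |V x|)
      rw [mul_zero] at h1
      filter_upwards [h1.eventually_lt_const hε, eventually_ge_atTop ⌈‖x‖⌉₊] with n hn hnx r hr
      have hVx : Vt V n x = V x := by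
        unfold Vt
        rw [if_pos]
        exact (Nat.le_ceil _).trans (by exact_mod_cast hnx)
      rw [hVx, dist_eq_norm]
      have hr1 : |r| ≤ T := abs_le.2 ⟨hr.1.le, hr.2.le⟩
      have h2 : ‖W r - Wn V C hC hV a n r‖ ≤ bn C a n T := by
        rw [norm_sub_rev]
        exact (hW r n).trans (bn_mono C hC a n r T hr1)
      have h3 : ∀ y, ‖W r y - Wn V C hC hV a n r y‖ ≤ bn C a n T := by
        intro y
        refine le_trans ?_ h2
        exact lp.norm_apply_le_norm (by norm_num) (W r - Wn V C hC hV a n r) y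
      have e2 : -Complex.I * (-S (fun y => W r y) x + (V x : ℂ) * W r x) -
          -Complex.I * (-S (fun y => Wn V C hC hV a n r y) x + (V x : ℂ) * Wn V C hC hV a n r x) =
          -Complex.I * (-∑ i : Fin d, ((W r (x + Pi.single i 1) -
            Wn V C hC hV a n r (x + Pi.single i 1)) + (W r (x - Pi.single i 1) -
            Wn V C hC hV a n r (x - Pi.single i 1))) +
            (V x : ℂ) * (W r x - Wn V C hC hV a n r x)) := by
        unfold S
        have e3 : ∑ i : Fin d, ((W r (x + Pi.single i 1) -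
            Wn V C hC hV a n r (x + Pi.single i 1)) + (W r (x - Pi.single i 1) -
            Wn V C hC hV a n r (x - Pi.single i 1))) =
            ∑ i : Fin d, (W r (x + Pi.single i 1) + W r (x - Pi.single i 1)) -
            ∑ i : Fin d, (Wn V C hC hV a n r (x + Pi.single i 1) +
              Wn V C hC hV a n r (x - Pi.single i 1)) := by
          rw [← Finset.sum_sub_distrib]
          exact Finset.sum_congr rfl fun i _ => by ring
        rw [e3]
        ring
      rw [e2, norm_mul, norm_neg, Complex.norm_I, one_mul]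
      refine lt_of_le_of_lt ((norm_add_le _ _).trans ?_) hn
      rw [norm_neg, norm_mul, Complex.norm_real, Real.norm_eq_abs]
      have h4 : ‖∑ i : Fin d, ((W r (x + Pi.single i 1) -
            Wn V C hC hV a n r (x + Pi.single i 1)) + (W r (x - Pi.single i 1) -
            Wn V C hC hV a n r (x - Pi.single i 1)))‖ ≤ 2 * d * bn C a n T := by
        refine (norm_sum_le _ _).trans ((Finset.sum_le_sum fun i _ => (norm_add_le _ _).trans
          (add_le_add (h3 _) (h3 _))).trans (le_of_eq ?_))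
        rw [Finset.sum_const, Finset.card_univ, Fintype.card_fin, nsmul_eq_mul]
        ring
      have h5 := mul_le_mul_of_nonneg_left (h3 x) (abs_nonneg (V x))
      linarith
    · refine Eventually.of_forall fun n r _ => ?_
      have h1 := Ev_deriv (Vt V n) (C * (1 + n)) (by positivity) (Vt_bd V C hC hV n) a r
        (ContinuousLinearMap.id ℂ (HS d))
      have h2 := ((evl x).restrictScalars ℝ).hasFDerivAt.comp_hasDerivAt r h1
      refine h2.congr_deriv ?_
      change evl x ((-Complex.I) • Hop (Vt V n) (C * (1 + n)) (by positivity)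
        (Vt_bd V C hC hV n) (Wn V C hC hV a n r)) = _
      rw [map_smul, smul_eq_mul, evl_apply, Hop_apply]
  · have h1 : Tendsto (fun n => ‖Wn V C hC hV a n s‖) atTop (𝓝 ‖W s‖) := (hlim s).norm
    have h2 : (fun n => ‖Wn V C hC hV a n s‖) = fun _ => 1 := by
      funext n
      exact Ev_norm _ _ _ _ a s
    rw [h2] at h1
    have h3 : ‖W s‖ = 1 := (tendsto_nhds_unique h1 tendsto_const_nhds)
    have h4 := hs_sum (W s)
    rw [h3, one_pow] at h4
    exact h4

/-- the overlaps with the eigenvectors -/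
theorem W_over (W : ℝ → HS d) (hW : ∀ s n, ‖Wn V C hC hV a n s - W s‖ ≤ bn C a n s)
    (φ : HS d) (E : ℝ) (hφ : ∀ x, -S (fun y => φ y) x + (V x : ℂ) * φ x = (E : ℂ) * φ x) (s : ℝ) :
    ‖⟪φ, W s⟫_ℂ‖ = ‖φ a‖ := by
  have hlim := W_lim V C hC hV a W hW s
  -- the defect
  obtain ⟨ψ, hψ⟩ : ∃ ψ : HS d, ψ = (E : ℂ) • φ + ∑ i : Fin d, (Tr (Pi.single i 1) φ +
    Tr (-Pi.single i 1) φ) := ⟨_, rfl⟩
  have hψx : ∀ x, ψ x = (V x : ℂ) * φ x := by
    intro x
    have e1 : ψ x = (E : ℂ) * φ x + S (fun y => φ y) x := by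
      rw [← evl_apply x, hψ, map_add, map_smul, map_sum, smul_eq_mul, evl_apply]
      unfold S
      congr 1
    rw [e1, ← hφ x]
    ring
  obtain ⟨r, hr⟩ : ∃ r : ℕ → HS d, r = fun n => Hop (Vt V n) (C * (1 + n)) (by positivity)
    (Vt_bd V C hC hV n) φ - (E : ℂ) • φ := ⟨_, rfl⟩
  have hrx : ∀ n x, r n x = if ‖x‖ ≤ n then 0 else -ψ x := by
    intro n x
    have e1 : r n x = Hop (Vt V n) (C * (1 + n)) (by positivity) (Vt_bd V C hC hV n) φ x -
        (E : ℂ) * φ x := by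
      rw [hr]
      rfl
    rw [e1, Hop_apply, hψx, ← hφ x]
    unfold Vt
    split_ifs with h
    · ring
    · push_cast
      ring
  have hrn : Tendsto (fun n => ‖r n‖ ^ 2) atTop (𝓝 0) := by
    have h1 : Tendsto (fun n => ∑' x, ‖r n x‖ ^ 2) atTop (𝓝 (∑' _x : Zd d, (0 : ℝ))) := by
      apply tendsto_tsum_of_dominated_convergence (bound := fun x => ‖ψ x‖ ^ 2)
        (hs_sum ψ).summable
      · intro x
        apply tendsto_const_nhds.congr'
        filter_upwards [eventually_ge_atTop ⌈‖x‖⌉₊] with n hn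
        rw [hrx, if_pos ((Nat.le_ceil _).trans (by exact_mod_cast hn))]
        simp
      · refine Eventually.of_forall fun n x => ?_
        rw [Real.norm_of_nonneg (sq_nonneg _), hrx]
        split_ifs with h
        · rw [norm_zero, zero_pow two_ne_zero]
          positivity
        · rw [norm_neg]
    rw [tsum_zero] at h1
    refine h1.congr fun n => ?_
    exact (hs_sum (r n)).tsum_eq
  have hrn1 : Tendsto (fun n => ‖r n‖) atTop (𝓝 0) := by
    have h2 := (Real.continuous_sqrt.tendsto _).comp hrn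
    rw [Real.sqrt_zero] at h2
    refine h2.congr fun n => ?_
    exact Real.sqrt_sq (norm_nonneg _)
  -- the overlap of the truncated evolution
  have hk : ∀ n, ‖Complex.exp ((E : ℂ) * (s : ℂ) * Complex.I) * ⟪φ, Wn V C hC hV a n s⟫_ℂ -
      ⟪φ, dlt a⟫_ℂ‖ ≤ ‖r n‖ * |s| := by
    intro n
    have hd : ∀ t : ℝ, HasDerivAt (fun t : ℝ => Complex.exp ((E : ℂ) * (t : ℂ) * Complex.I) *
        ⟪φ, Wn V C hC hV a n t⟫_ℂ) (Complex.exp ((E : ℂ) * (t : ℂ) * Complex.I) *
        (-Complex.I * ⟪r n, Wn V C hC hV a n t⟫_ℂ)) t := by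
      intro t
      have h1 : HasDerivAt (fun t : ℝ => Wn V C hC hV a n t)
          ((-Complex.I) • Hop (Vt V n) (C * (1 + n)) (by positivity)
            (Vt_bd V C hC hV n) (Wn V C hC hV a n t)) t :=
        Ev_deriv (Vt V n) (C * (1 + n)) (by positivity) (Vt_bd V C hC hV n) a t
          (ContinuousLinearMap.id ℂ (HS d))
      have h2 := (hasDerivAt_const t φ).inner ℂ h1
      rw [inner_zero_left, add_zero, inner_smul_right] at h2
      have h3 : HasDerivAt (fun t : ℝ => Complex.exp ((E : ℂ) * (t : ℂ) * Complex.I))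
          (Complex.exp ((E : ℂ) * (t : ℂ) * Complex.I) * ((E : ℂ) * Complex.I)) t := by
        have h4 : HasDerivAt (fun y : ℝ => (y : ℂ)) 1 t := by
          have := (hasDerivAt_id t).ofReal_comp
          simpa using this
        have h5 := ((h4.const_mul (E : ℂ)).mul_const Complex.I).cexp
        rw [mul_one] at h5
        exact h5
      refine (h3.mul h2).congr_deriv ?_
      have h6 : ⟪r n, Wn V C hC hV a n t⟫_ℂ = ⟪φ, Hop (Vt V n) (C * (1 + n)) (by positivity)
            (Vt_bd V C hC hV n) (Wn V C hC hV a n t)⟫_ℂ - (E : ℂ) * ⟪φ, Wn V C hC hV a n t⟫_ℂ := by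
        rw [hr]
        simp only
        rw [inner_sub_left, Hop_symm, inner_smul_left, Complex.conj_ofReal]
      rw [h6]
      ring
    have hb : ∀ t ∈ Set.Icc (-|s|) |s|, ‖Complex.exp ((E : ℂ) * (t : ℂ) * Complex.I) *
        (-Complex.I * ⟪r n, Wn V C hC hV a n t⟫_ℂ)‖ ≤ ‖r n‖ := by
      intro t _
      have e1 : (E : ℂ) * (t : ℂ) * Complex.I = ((E * t : ℝ) : ℂ) * Complex.I := by push_cast; ring
      rw [norm_mul, e1, Complex.norm_exp_ofReal_mul_I, one_mul, norm_mul, norm_neg,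
        Complex.norm_I, one_mul]
      refine (norm_inner_le_norm _ _).trans ?_
      have a1 : ‖Wn V C hC hV a n t‖ = 1 := Ev_norm _ _ _ _ a t
      rw [a1, mul_one]
    have h1 := Convex.norm_image_sub_le_of_norm_hasDerivWithin_le
      (fun t ht => (hd t).hasDerivWithinAt (s := Set.Icc (-|s|) |s|)) hb (convex_Icc _ _)
      (x := 0) (y := s) (by constructor <;> simp) (by
        have := neg_abs_le s
        exact ⟨this, le_abs_self s⟩)
    have a1 : Wn V C hC hV a n 0 = dlt a := Ev_zero _ _ _ _ a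
    simp only [Complex.ofReal_zero, mul_zero, zero_mul, Complex.exp_zero, one_mul, sub_zero,
      Real.norm_eq_abs, a1] at h1
    exact h1
  have hk2 : Tendsto (fun n => ‖Complex.exp ((E : ℂ) * (s : ℂ) * Complex.I) *
      ⟪φ, Wn V C hC hV a n s⟫_ℂ - ⟪φ, dlt a⟫_ℂ‖) atTop
      (𝓝 ‖Complex.exp ((E : ℂ) * (s : ℂ) * Complex.I) * ⟪φ, W s⟫_ℂ - ⟪φ, dlt a⟫_ℂ‖) := by
    apply Tendsto.norm
    apply Tendsto.sub_const
    apply Tendsto.const_mul
    exact tendsto_const_nhds.inner hlim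
  have hk3 : ‖Complex.exp ((E : ℂ) * (s : ℂ) * Complex.I) * ⟪φ, W s⟫_ℂ - ⟪φ, dlt a⟫_ℂ‖ ≤ 0 := by
    have h1 := hrn1.mul_const |s|
    rw [zero_mul] at h1
    exact le_of_tendsto_of_tendsto' hk2 h1 hk
  have hk4 : Complex.exp ((E : ℂ) * (s : ℂ) * Complex.I) * ⟪φ, W s⟫_ℂ = ⟪φ, dlt a⟫_ℂ :=
    sub_eq_zero.1 (norm_le_zero_iff.1 hk3)
  have e1 : (E : ℂ) * (s : ℂ) * Complex.I = ((E * s : ℝ) : ℂ) * Complex.I := by push_cast; ring
  have h5 : ‖⟪φ, W s⟫_ℂ‖ = ‖⟪φ, dlt a⟫_ℂ‖ := by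
    rw [← hk4, norm_mul, e1, Complex.norm_exp_ofReal_mul_I, one_mul]
  rw [h5]
  have h6 := lp.hasSum_inner (𝕜 := ℂ) φ (dlt a)
  have h7 : ⟪φ, dlt a⟫_ℂ = ⟪φ a, dlt a a⟫_ℂ := by
    refine h6.unique (hasSum_single a fun x hx => ?_)
    rw [dlt_apply, if_neg hx, inner_zero_right]
  rw [h7, dlt_apply, if_pos rfl, RCLike.inner_apply, one_mul, RCLike.norm_conj]

end

/-- **the evolution for a potential of at most linear growth** -/
theorem sol_overU (V : Zd d → ℝ) (C : ℝ) (hC : 0 ≤ C) (hV : ∀ x, |V x| ≤ C * (1 + ‖x‖))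
    (a : Zd d) : ∃ ψ : ℝ → Zd d → ℂ, Sol d V a ψ ∧ ∀ s, ∃ u : HS d, (∀ x, u x = ψ s x) ∧
      ‖u‖ = 1 ∧ ∀ (φ : HS d) (E : ℝ),
        (∀ x, -S (fun y => φ y) x + (V x : ℂ) * φ x = (E : ℂ) * φ x) →
        ‖⟪φ, u⟫_ℂ‖ = ‖φ a‖ := by
  obtain ⟨W, hW⟩ := W_exists V C hC hV a
  have h1 := W_sol V C hC hV a W hW
  refine ⟨fun s x => W s x, h1, fun s => ⟨W s, fun x => rfl, ?_, fun φ E hφ => ?_⟩⟩
  · have h2 := (h1.norm s).unique (hs_sum (W s))
    rw [← pow_left_inj₀ (norm_nonneg _) zero_le_one two_ne_zero, ← h2, one_pow]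
  · exact W_over V C hC hV a W hW φ E hφ s

end Pool.Agent.Q204.GA
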