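import Pool.Agent.H4R2.LO.Main
import Pool.Agent.Y661.BG.Dom

/-! Gaussian potentials: the growth at infinity and the clipped potential. -/

set_option autoImplicit false
set_option linter.unusedSectionVars false

open scoped BigOperators ENNReal
open MeasureTheory ProbabilityTheory

namespace Pool.Agent.Q204.GA

open Pool.Agent.H4R2.LO (Zd bx)
open Pool.Agent.Y661.BG (cl cl_meas cl_abs cl_eq cl_between tail)

variable {d : ℕ}

/-- the law of an iid standard Gaussian potential -/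
noncomputable abbrev PG (d : ℕ) : Measure (Zd d → ℝ) :=
  Measure.infinitePi fun _ : Zd d => gaussianReal 0 1

theorem coord (x : Zd d) (b : ℝ) (hb : 0 ≤ b) :
    PG d {ξ | b < |ξ x|} ≤ ENNReal.ofReal (2 * Real.exp (-(b ^ 2 / 2))) := by
  have h1 : (PG d).map (fun ω : Zd d → ℝ => ω x) = gaussianReal 0 1 :=
    Measure.infinitePi_map_eval (fun _ : Zd d => gaussianReal 0 1) x
  have h2 : PG d {ξ | b < |ξ x|} = gaussianReal 0 1 {s | b < |s|} := by
    rw [← h1, Measure.map_apply (measurable_pi_apply x)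
      (measurableSet_lt measurable_const (by fun_prop))]
    rfl
  rw [h2, ← ofReal_measureReal]
  exact ENNReal.ofReal_le_ofReal (tail b hb)

/-- the potential is at most `B` in the box of radius `R` and grows at most linearly -/
def Gr (d : ℕ) (B R : ℝ) : Set (Zd d → ℝ) :=
  {ξ | (∀ x, ‖x‖ ≤ R → |ξ x| ≤ B) ∧ ∀ x, |ξ x| ≤ B * (1 + ‖x‖)}

theorem Gr_meas (B R : ℝ) : MeasurableSet (Gr d B R) := by
  have e1 : Gr d B R = (⋂ x : Zd d, {ξ | ‖x‖ ≤ R → |ξ x| ≤ B}) ∩
      ⋂ x : Zd d, {ξ | |ξ x| ≤ B * (1 + ‖x‖)} := by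
    ext ξ
    simp only [Gr, Set.mem_setOf_eq, Set.mem_inter_iff, Set.mem_iInter]
  rw [e1]
  refine (MeasurableSet.iInter fun x => ?_).inter (MeasurableSet.iInter fun x => ?_)
  · by_cases hx : ‖x‖ ≤ R
    · have : {ξ : Zd d → ℝ | ‖x‖ ≤ R → |ξ x| ≤ B} = {ξ | |ξ x| ≤ B} := by
        ext ξ
        simp [hx]
      rw [this]
      exact measurableSet_le (by fun_prop) measurable_const
    · have : {ξ : Zd d → ℝ | ‖x‖ ≤ R → |ξ x| ≤ B} = Set.univ := by
        ext ξ
        simp [hx]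
      rw [this]
      exact MeasurableSet.univ
  · exact measurableSet_le (by fun_prop) measurable_const

theorem Gr_prob (d : ℕ) : ∃ C : ℝ, 0 < C ∧ ∀ B R : ℝ, 1 ≤ B → 1 ≤ R →
    1 - C * R ^ d * Real.exp (-(B ^ 2 / 2)) ≤ (PG d).real (Gr d B R) := by
  have hs := Pool.Agent.H4R2.LO.Main.summable_exp (d := d) 1 one_pos
  simp only [one_mul] at hs
  obtain ⟨C0, hC0⟩ : ∃ C0, C0 = ∑' x : Zd d, Real.exp (-‖x‖) := ⟨_, rfl⟩
  have hC00 : 0 ≤ C0 := by rw [hC0]; exact tsum_nonneg fun x => (Real.exp_pos _).le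
  refine ⟨2 * 3 ^ d + 2 * C0, by positivity, fun B R hB hR => ?_⟩
  have hB0 : 0 ≤ B := by linarith
  have hR0 : 0 ≤ R := by linarith
  obtain ⟨X, hX⟩ : ∃ X, X = Real.exp (-(B ^ 2 / 2)) := ⟨_, rfl⟩
  have hX0 : 0 < X := by rw [hX]; positivity
  -- the two parts of the complement
  have hsub : (Gr d B R)ᶜ ⊆ (⋃ x ∈ bx (0 : Zd d) ⌊R⌋₊, {ξ | B < |ξ x|}) ∪
      ⋃ x : Zd d, {ξ | B * (1 + ‖x‖) < |ξ x|} := by
    intro ξ hξ
    by_cases h1 : ∀ x, ‖x‖ ≤ R → |ξ x| ≤ B
    · right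
      have h2 : ¬ ∀ x, |ξ x| ≤ B * (1 + ‖x‖) := fun h => hξ ⟨h1, h⟩
      push Not at h2
      obtain ⟨x, hx⟩ := h2
      exact Set.mem_iUnion.2 ⟨x, hx⟩
    · left
      push Not at h1
      obtain ⟨x, hx, hx2⟩ := h1
      refine Set.mem_iUnion₂.2 ⟨x, ?_, hx2⟩
      rw [Pool.Agent.H4R2.LO.Em.mem_bx]
      apply Nat.le_floor
      have h5 := Pool.Agent.H4R2.LO.Em.dd_norm (0 : Zd d) x
      rw [zero_sub, norm_neg] at h5
      rw [h5]
      exact hx
  have hm1 : PG d (⋃ x ∈ bx (0 : Zd d) ⌊R⌋₊, {ξ | B < |ξ x|}) ≤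
      ENNReal.ofReal (2 * 3 ^ d * R ^ d * X) := by
    refine (measure_biUnion_finset_le _ _).trans ?_
    refine (Finset.sum_le_sum fun x _ => coord x B hB0).trans ?_
    rw [Finset.sum_const, nsmul_eq_mul, Pool.Agent.H4R2.LO.Em.card_bx, ← ENNReal.ofReal_natCast,
      ← ENNReal.ofReal_mul (by positivity)]
    apply ENNReal.ofReal_le_ofReal
    rw [← hX]
    have h1 : ((((2 * ⌊R⌋₊ + 1) ^ d : ℕ) : ℝ)) ≤ (3 * R) ^ d := by
      push_cast
      apply pow_le_pow_left₀ (by positivity)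
      have := Nat.floor_le hR0
      linarith
    calc ((((2 * ⌊R⌋₊ + 1) ^ d : ℕ) : ℝ)) * (2 * X) ≤ (3 * R) ^ d * (2 * X) := by gcongr
      _ = _ := by rw [mul_pow]; ring
  have hm2 : PG d (⋃ x : Zd d, {ξ | B * (1 + ‖x‖) < |ξ x|}) ≤ ENNReal.ofReal (2 * C0 * X) := by
    refine (measure_iUnion_le _).trans ?_
    have h1 : ∀ x : Zd d, PG d {ξ | B * (1 + ‖x‖) < |ξ x|} ≤
        ENNReal.ofReal (2 * X * Real.exp (-‖x‖)) := by
      intro x
      refine (coord x _ (by positivity)).trans (ENNReal.ofReal_le_ofReal ?_)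
      rw [mul_assoc, hX, ← Real.exp_add]
      apply mul_le_mul_of_nonneg_left _ (by norm_num)
      apply Real.exp_le_exp.2
      have hx := norm_nonneg x
      have hBB : 1 ≤ B ^ 2 := one_le_pow₀ hB
      have e1 : (B * (1 + ‖x‖)) ^ 2 = B ^ 2 + B ^ 2 * (2 * ‖x‖) + B ^ 2 * ‖x‖ ^ 2 := by ring
      have e2 : 1 * (2 * ‖x‖) ≤ B ^ 2 * (2 * ‖x‖) := by gcongr
      have e3 : 0 ≤ B ^ 2 * ‖x‖ ^ 2 := by positivity
      linarith
    refine (ENNReal.tsum_le_tsum h1).trans ?_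
    rw [← ENNReal.ofReal_tsum_of_nonneg (fun x => by positivity) (hs.mul_left _), tsum_mul_left,
      ← hC0]
    apply ENNReal.ofReal_le_ofReal
    linarith
  have hm3 : (PG d).real (Gr d B R)ᶜ ≤ 2 * 3 ^ d * R ^ d * X + 2 * C0 * X := by
    have h1 : PG d (Gr d B R)ᶜ ≤ ENNReal.ofReal (2 * 3 ^ d * R ^ d * X + 2 * C0 * X) := by
      rw [ENNReal.ofReal_add (by positivity) (by positivity)]
      exact (measure_mono hsub).trans ((measure_union_le _ _).trans (add_le_add hm1 hm2))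
    exact ENNReal.toReal_le_of_le_ofReal (by positivity) h1
  have h4 := probReal_add_probReal_compl (μ := PG d) (Gr_meas (d := d) B R)
  have h5 : 2 * 3 ^ d * R ^ d * X + 2 * C0 * X ≤ (2 * 3 ^ d + 2 * C0) * R ^ d * X := by
    have h6 : (1 : ℝ) ≤ R ^ d := one_le_pow₀ hR
    have h7 : 2 * C0 * X * 1 ≤ 2 * C0 * X * R ^ d := by gcongr
    linarith
  rw [← hX]
  linarith

/-- the law of the clipped and rescaled Gaussian -/
noncomputable def nub (B : ℝ) : Measure ℝ := (gaussianReal 0 1).map fun s => cl B s / B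

theorem nub_meas (B : ℝ) : Measurable fun s => cl B s / B := (cl_meas B).div_const B

instance nub_prob (B : ℝ) : IsProbabilityMeasure (nub B) :=
  Measure.isProbabilityMeasure_map (nub_meas B).aemeasurable

theorem nub_bd (B : ℝ) (hB : 0 < B) : ∀ᵐ s ∂(nub B), |s| ≤ 1 := by
  unfold nub
  rw [ae_map_iff (nub_meas B).aemeasurable (measurableSet_le (by fun_prop) (by fun_prop))]
  refine Filter.Eventually.of_forall fun s => ?_
  rw [abs_div, abs_of_pos hB, div_le_one hB]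
  exact cl_abs B hB.le s

theorem nub_mean (B : ℝ) (hB : 0 < B) : ∫ s, s ∂(nub B) = 0 := by
  have h1 := Pool.Agent.Y661.BG.nu_mean B hB.le
  rw [Pool.Agent.Y661.BG.int_nu (fun s => s) continuous_id B] at h1
  unfold nub
  rw [integral_map (nub_meas B).aemeasurable (by fun_prop)]
  have h2 : (fun s : ℝ => cl B s / B) = fun s => (1 / B) * cl B s := by
    funext s
    ring
  rw [h2, integral_const_mul]
  have h3 : ∫ s, cl B s ∂(gaussianReal 0 1) = 0 := h1
  rw [h3, mul_zero]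

/-- an event for the clipped potential as an event for the Gaussian potential -/
theorem clip_event (B : ℝ) (G : Set (Zd d → ℝ)) (hG : MeasurableSet G) :
    MeasurableSet {ξ : Zd d → ℝ | (fun x => cl B (ξ x) / B) ∈ G} ∧
    (PG d).real {ξ : Zd d → ℝ | (fun x => cl B (ξ x) / B) ∈ G} =
      (Measure.infinitePi fun _ : Zd d => nub B).real G := by
  have hT : Measurable (fun (ω : Zd d → ℝ) x => cl B (ω x) / B) :=
    measurable_pi_lambda _ fun x => (nub_meas B).comp (measurable_pi_apply x)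
  have hlaw : (PG d).map (fun ω x => cl B (ω x) / B) =
      Measure.infinitePi fun _ : Zd d => nub B :=
    Measure.infinitePi_map_pi (μ := fun _ : Zd d => gaussianReal 0 1)
      (f := fun _ (s : ℝ) => cl B s / B) (fun _ => nub_meas B)
  refine ⟨hT hG, ?_⟩
  rw [← hlaw, map_measureReal_apply hT hG]
  rfl

/-- the difference between the potential and the clipped potential -/
theorem clip_diff (B R : ℝ) (hB : 0 ≤ B) (ξ : Zd d → ℝ) (hξ : ξ ∈ Gr d B R) (x : Zd d) :
    |ξ x - cl B (ξ x)| ≤ if ‖x‖ ≤ R then 0 else B * (1 + ‖x‖) := by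
  split_ifs with h
  · rw [cl_eq B _ (hξ.1 x h), sub_self, abs_zero]
  · refine le_trans ?_ (hξ.2 x)
    rcases cl_between B hB (ξ x) with ⟨h1, h2⟩ | ⟨h1, h2⟩
    · rw [abs_of_nonneg (by linarith), abs_of_nonneg (by linarith)]
      linarith
    · rw [abs_of_nonpos (by linarith), abs_of_nonpos (by linarith)]
      linarith

end Pool.Agent.Q204.GA
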