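import Pool.Agent.Q204.GA.DifI
import Pool.Agent.Q204.GA.EvoH
import Pool.Agent.Q62.QD.NonG

/-! Gaussian disorder: the evolution leaves the neighbourhood of the starting point. -/

set_option autoImplicit false
set_option linter.unusedSectionVars false

open scoped BigOperators Topology
open MeasureTheory ProbabilityTheory Filter Set

namespace Pool.Agent.Q204.GA

open Pool.Agent.W788.BK
open Pool.Agent.W788.LD.Spec (S)
open Pool.Agent.H4R2.LO (Zd)
open Pool.Agent.TH794.QD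
open Pool.Agent.TH794.QE
open Pool.Agent.TH794.HK
open Pool.Agent.Q62.QD

open Classical in
/-- **the evolution leaves the neighbourhood of the starting point** -/
theorem leaveG (d : ℕ) (hd3 : 3 ≤ d) (ε : ℝ) (hε : 0 < ε) :
    ∃ δ : ℝ, 0 < δ ∧ ∃ σ0 : ℝ, 0 < σ0 ∧ ∀ σ : ℝ, 0 < σ → σ ≤ σ0 →
      ∃ G : Set (Zd d → ℝ), MeasurableSet G ∧
        1 - Real.exp (-σ ^ (-(1 / 5000) : ℝ)) ≤ (PG d).real G ∧
        ∀ ξ ∈ G, (∃ C : ℝ, 0 ≤ C ∧ ∀ x, |ξ x| ≤ C * (1 + ‖x‖)) ∧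
          ∀ a : Zd d, ‖a‖ ≤ Real.exp (σ ^ (-(1 / 5000) : ℝ)) →
          ∀ ψ : ℝ → Zd d → ℂ, Sol d (fun x => -(σ * ξ x)) a ψ →
          ∀ T : ℝ, σ ^ (-(2 + 1 / 70) : ℝ) ≤ T → T ≤ σ ^ (-(2 + 1 / 43) : ℝ) →
          ∀ R : ℝ, R * Real.sqrt (σ ^ 2 / T) ≤ δ → near ψ a T R ≤ ε := by
  have hd : 2 ≤ d := by omega
  obtain ⟨Q0, hQ0, hQ⟩ := nu_small sO d hd (ε / 16) (by positivity)
  obtain ⟨N, hNd⟩ : ∃ N : ℕ, N = ⌈16 / ε⌉₊ + 1 := ⟨_, rfl⟩
  have hN1 : 1 ≤ N := by omega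
  have hN2 : 16 / ε ≤ N := by
    have := Nat.le_ceil (16 / ε)
    rw [hNd]
    push_cast
    linarith
  have hN0 : (0 : ℝ) < N := by exact_mod_cast (by omega : 0 < N)
  obtain ⟨θ, hθ⟩ : ∃ θ, θ = Real.sqrt Q0 := ⟨_, rfl⟩
  have hθ0 : 0 < θ := by rw [hθ]; exact Real.sqrt_pos.2 hQ0
  have hθ2 : θ ^ 2 = Q0 := by rw [hθ, Real.sq_sqrt hQ0.le]
  obtain ⟨c0, hc0, hL⟩ := qdG d hd3
    (fun τ => Real.exp (-τ)) exp1_int ((N : ℝ) ^ 2 * Q0) (ε / 16) (by positivity)
    (by positivity)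
  refine ⟨1 / (N * θ), by positivity, c0, hc0, fun σ hσ hσσ => ?_⟩
  obtain ⟨G, hG, hP, hGL⟩ := hL σ hσ hσσ
  refine ⟨G, hG, hP, fun ω hω => ⟨(hGL ω hω).1, ?_⟩⟩
  intro a ha ψ hψ T hT1 hT2 R hR
  have hkey := (hGL ω hω).2 a ha ψ hψ T hT1 hT2
  obtain ⟨i0, hi0⟩ : ∃ i0 : Fin d, i0 = ⟨0, by omega⟩ := ⟨_, rfl⟩
  obtain ⟨z, hz⟩ : ∃ z : Zd d → ℝ, z = fun x =>
    θ * Real.sqrt (σ ^ 2 / T) * ((x i0 : ℝ) - a i0) := ⟨_, rfl⟩
  obtain ⟨w, hw⟩ : ∃ w : ℕ → ℕ → Zd d → ℂ, w = fun (k l : ℕ) (x : Zd d) =>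
    Complex.exp (Complex.I * (((((k : ℝ) - l) * z x : ℝ)) : ℂ)) := ⟨_, rfl⟩
  have hw1 : ∀ k l x, ‖w k l x‖ ≤ 1 := by
    intro k l x
    rw [hw]
    simp only
    rw [mul_comm, Complex.norm_exp_ofReal_mul_I]
  have hzP : ∀ x : Zd d, ‖x - a‖ ≤ R → (N : ℝ) * |z x| ≤ 1 := by
    intro x hx
    have h1 : |(x i0 : ℝ) - a i0| ≤ R := by
      refine le_trans ?_ hx
      have h2 := coord_le (x - a) i0
      simpa using h2
    rw [hz]
    simp only
    rw [abs_mul, abs_of_nonneg (by positivity)]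
    calc (N : ℝ) * (θ * Real.sqrt (σ ^ 2 / T) * |(x i0 : ℝ) - a i0|) ≤
        N * (θ * Real.sqrt (σ ^ 2 / T) * R) := by gcongr
      _ = N * θ * (R * Real.sqrt (σ ^ 2 / T)) := by ring
      _ ≤ N * θ * (1 / (N * θ)) := by gcongr
      _ = 1 := by field_simp
  -- integrability
  have hXi : ∀ k l, IntegrableOn
      (fun τ => ((Real.exp (-τ) : ℝ) : ℂ) * Xw (w k l) (ψ (T * τ))) (Ioi 0) := by
    intro k l
    exact exp1_int.ofReal.mul_bdd (X_meas hψ (w k l) T).aestronglyMeasurable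
      (Filter.Eventually.of_forall fun τ => X_bd hψ (w k l) (hw1 k l) _)
  have hRi : ∀ k l, IntegrableOn
      (fun τ => Real.exp (-τ) * (Xw (w k l) (ψ (T * τ))).re) (Ioi 0) := by
    intro k l
    have h1 := (hXi k l).re
    simp only [RCLike.re_eq_complex_re, Complex.re_ofReal_mul] at h1
    exact h1
  have hRv : ∀ k l, ∫ τ in Ioi (0 : ℝ), Real.exp (-τ) * (Xw (w k l) (ψ (T * τ))).re =
      (∫ τ in Ioi (0 : ℝ), ((Real.exp (-τ) : ℝ) : ℂ) * Xw (w k l) (ψ (T * τ))).re := by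
    intro k l
    have h1 := integral_re (hXi k l)
    simp only [RCLike.re_eq_complex_re] at h1
    rw [← h1]
    refine integral_congr_ae (Filter.Eventually.of_forall fun τ => ?_)
    simp only
    rw [Complex.re_ofReal_mul]
  -- one pair
  have hone : ∀ k ∈ Finset.range N, ∀ l ∈ Finset.range N,
      ∫ τ in Ioi (0 : ℝ), Real.exp (-τ) * (Xw (w k l) (ψ (T * τ))).re ≤
        (if k = l then 1 else 0) + ε / 8 := by
    intro k hk l hl
    rw [hRv]
    by_cases hkl : k = l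
    · rw [if_pos hkl]
      refine (Complex.re_le_norm _).trans ?_
      have h1 : ‖∫ τ in Ioi (0 : ℝ), ((Real.exp (-τ) : ℝ) : ℂ) * Xw (w k l) (ψ (T * τ))‖ ≤ 1 := by
        refine (norm_integral_le_of_norm_le exp1_int (Filter.Eventually.of_forall fun τ => ?_)).trans
          (le_of_eq exp1_val)
        rw [norm_mul, Complex.norm_real, Real.norm_eq_abs, abs_of_pos (Real.exp_pos _)]
        exact mul_le_of_le_one_right (Real.exp_pos _).le (X_bd hψ (w k l) (hw1 k l) _)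
      linarith
    · rw [if_neg hkl]
      obtain ⟨q, hq⟩ : ∃ q : Fin d → ℝ, q = fun i => if i = i0 then ((k : ℝ) - l) * θ else 0 :=
        ⟨_, rfl⟩
      have hqs : ∑ i, q i ^ 2 = ((k : ℝ) - l) ^ 2 * Q0 := by
        rw [hq]
        have h1 : ∀ i : Fin d, (if i = i0 then ((k : ℝ) - l) * θ else 0) ^ 2 =
            if i = i0 then ((k : ℝ) - l) ^ 2 * Q0 else 0 := by
          intro i
          split_ifs
          · rw [mul_pow, hθ2]
          · norm_num
        simp only [h1]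
        rw [Finset.sum_ite_eq' Finset.univ i0, if_pos (Finset.mem_univ _)]
      have hk1 : (k : ℝ) ≤ N := by exact_mod_cast (Finset.mem_range.1 hk).le
      have hl1 : (l : ℝ) ≤ N := by exact_mod_cast (Finset.mem_range.1 hl).le
      have hk0 : (0 : ℝ) ≤ k := Nat.cast_nonneg k
      have hl0 : (0 : ℝ) ≤ l := Nat.cast_nonneg l
      have hkl2 : ((k : ℝ) - l) ^ 2 ≤ (N : ℝ) ^ 2 := by
        rw [← sq_abs ((k : ℝ) - l)]
        refine pow_le_pow_left₀ (abs_nonneg _) ?_ 2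
        rw [abs_le]
        constructor <;> linarith
      have hkl1 : 1 ≤ ((k : ℝ) - l) ^ 2 := by
        have h1 : (1 : ℤ) ≤ ((k : ℤ) - l) ^ 2 := by
          have h2 : ((k : ℤ) - l) ≠ 0 := by omega
          have h3 : 0 < ((k : ℤ) - l) ^ 2 := by positivity
          omega
        exact_mod_cast h1
      have h2 := hkey q (by
        rw [hqs]
        gcongr)
      have hph : (fun x => ph (fun i => Real.sqrt (σ ^ 2 / T) * q i) (x - a)) = w k l := by
        funext x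
        rw [hw, hz, hq]
        unfold ph
        simp only
        congr 3
        rw [Finset.sum_eq_single i0]
        · rw [if_pos rfl]
          simp only [Pi.sub_apply, Int.cast_sub]
          ring
        · intro i _ hi
          rw [if_neg hi]
          ring
        · intro h
          exact absurd (Finset.mem_univ _) h
      rw [hph, hqs] at h2
      have h3 := hQ (((k : ℝ) - l) ^ 2 * Q0) (le_mul_of_one_le_left hQ0.le hkl1)
      obtain ⟨A, hA⟩ : ∃ A : ℂ, A = ∫ τ in Ioi (0 : ℝ), ((Real.exp (-τ) : ℝ) : ℂ) *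
        Xw (w k l) (ψ (T * τ)) := ⟨_, rfl⟩
      obtain ⟨B, hB⟩ : ∃ B : ℝ, B = ∫ τ in Ioi (0 : ℝ), Real.exp (-τ) *
        Nq d (((k : ℝ) - l) ^ 2 * Q0) τ := ⟨_, rfl⟩
      rw [← hA, ← hB] at h2
      rw [← hB] at h3
      rw [← hA]
      have h4 : A.re - B ≤ ‖A - (B : ℂ)‖ := by
        refine le_trans (le_of_eq ?_) (Complex.re_le_norm _)
        simp
      linarith [h3.2]
  -- the mass
  have hmn : ∀ τ : ℝ, ∑' x, (if ‖x - a‖ ≤ R then ‖ψ (T * τ) x‖ ^ 2 else 0) ≤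
      4 / (N : ℝ) ^ 2 * ∑ k ∈ Finset.range N, ∑ l ∈ Finset.range N,
        (Xw (w k l) (ψ (T * τ))).re := by
    intro τ
    have h1 := mass_near N hN1 z (fun x => ‖x - a‖ ≤ R) hzP (ψ (T * τ)) (hψ.norm _).summable
    rw [hw]
    exact h1
  have hdb : IntegrableOn (fun τ => 4 / (N : ℝ) ^ 2 * ∑ k ∈ Finset.range N,
      ∑ l ∈ Finset.range N, Real.exp (-τ) * (Xw (w k l) (ψ (T * τ))).re) (Ioi 0) :=
    (integrable_finsetSum _ fun k _ => integrable_finsetSum _ fun l _ => hRi k l).const_mul _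
  unfold near
  have h5 : ∫ τ in Ioi (0 : ℝ), Real.exp (-τ) *
      ∑' x, (if ‖x - a‖ ≤ R then ‖ψ (T * τ) x‖ ^ 2 else 0) ≤
      ∫ τ in Ioi (0 : ℝ), 4 / (N : ℝ) ^ 2 * ∑ k ∈ Finset.range N,
        ∑ l ∈ Finset.range N, Real.exp (-τ) * (Xw (w k l) (ψ (T * τ))).re := by
    refine integral_mono_of_nonneg (Filter.Eventually.of_forall fun τ => ?_) hdb
      (Filter.Eventually.of_forall fun τ => ?_)
    · refine mul_nonneg (Real.exp_pos _).le (tsum_nonneg fun x => ?_)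
      split_ifs <;> positivity
    · simp only
      refine (mul_le_mul_of_nonneg_left (hmn τ) (Real.exp_pos _).le).trans (le_of_eq ?_)
      rw [← mul_assoc, mul_comm (Real.exp (-τ)), mul_assoc, Finset.mul_sum]
      congr 1
      refine Finset.sum_congr rfl fun k _ => ?_
      rw [Finset.mul_sum]
  refine h5.trans ?_
  rw [integral_const_mul, integral_finsetSum _ fun k _ => integrable_finsetSum _ fun l _ => hRi k l]
  have h6 : ∑ k ∈ Finset.range N, ∫ τ in Ioi (0 : ℝ), ∑ l ∈ Finset.range N,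
      Real.exp (-τ) * (Xw (w k l) (ψ (T * τ))).re ≤ N + (N : ℝ) ^ 2 * (ε / 8) := by
    have h7 : ∀ k ∈ Finset.range N, ∫ τ in Ioi (0 : ℝ), ∑ l ∈ Finset.range N,
        Real.exp (-τ) * (Xw (w k l) (ψ (T * τ))).re ≤ 1 + N * (ε / 8) := by
      intro k hk
      rw [integral_finsetSum _ fun l _ => hRi k l]
      refine (Finset.sum_le_sum fun l hl => hone k hk l hl).trans ?_
      rw [Finset.sum_add_distrib, Finset.sum_ite_eq, if_pos hk, Finset.sum_const,
        Finset.card_range, nsmul_eq_mul]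
    refine (Finset.sum_le_sum h7).trans (le_of_eq ?_)
    rw [Finset.sum_const, Finset.card_range, nsmul_eq_mul]
    ring
  calc 4 / (N : ℝ) ^ 2 * ∑ k ∈ Finset.range N, ∫ τ in Ioi (0 : ℝ), ∑ l ∈ Finset.range N,
      Real.exp (-τ) * (Xw (w k l) (ψ (T * τ))).re ≤
      4 / (N : ℝ) ^ 2 * (N + (N : ℝ) ^ 2 * (ε / 8)) := by gcongr
    _ = 4 / N + ε / 2 := by
        field_simp
        ring
    _ ≤ ε / 4 + ε / 2 := by
        have h8 : 4 / (N : ℝ) ≤ ε / 4 := by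
          rw [div_le_div_iff₀ hN0 (by norm_num)]
          rw [div_le_iff₀ hε] at hN2
          linarith
        linarith
    _ ≤ ε := by linarith

end Pool.Agent.Q204.GA
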