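import Pool.Agent.Q204.GA.LenA

/-! Families of localized eigenfunctions for unbounded potentials: deterministic part. -/

set_option autoImplicit false
set_option linter.unusedSectionVars false

open scoped BigOperators Topology InnerProductSpace
open MeasureTheory Filter Set

namespace Pool.Agent.Q204.GA

open Pool.Agent.W788.LD.Spec (S)
open Pool.Agent.H4R2.LO (Zd)
open Pool.Agent.TH794.QD
open Pool.Agent.TH794.QE
open Pool.Agent.Q62.QD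

variable {d : ℕ}

/-- the overlap of an eigenfunction and a resolvent function -/
theorem ov_eq (V : Zd d → ℝ) (φ u f : HS d) (E : ℝ) (z : ℂ)
    (hφ : ∀ x, -S (fun y => φ y) x + (V x : ℂ) * φ x = (E : ℂ) * φ x)
    (hu : ∀ x, -S (fun y => u y) x + (V x : ℂ) * u x - z * u x = f x) :
    ⟪φ, f⟫_ℂ = ((E : ℂ) - z) * ⟪φ, u⟫_ℂ := by
  obtain ⟨s1, s2, e1⟩ := Pool.Agent.W788.LD.Spec.symm (fun x => φ x) (fun x => u x)
    (hs_sum φ).summable (hs_sum u).summable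
  have i1 := lp.hasSum_inner (𝕜 := ℂ) φ f
  have i2 := lp.hasSum_inner (𝕜 := ℂ) φ u
  have i3 := ((i2.mul_left ((E : ℂ) - z)).add s2.hasSum).sub s1.hasSum
  have e2 : (fun x => ⟪φ x, f x⟫_ℂ) = fun x => ((E : ℂ) - z) * ⟪φ x, u x⟫_ℂ +
      (starRingEnd ℂ) (S (fun y => φ y) x) * u x - (starRingEnd ℂ) (φ x) * S (fun y => u y) x := by
    funext x
    rw [RCLike.inner_apply, RCLike.inner_apply, ← hu x]
    have h1 := congrArg (starRingEnd ℂ) (hφ x)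
    simp only [map_add, map_neg, map_mul, Complex.conj_ofReal] at h1
    linear_combination (u x) * h1
  rw [e2] at i1
  have h2 := i1.unique i3
  rw [h2, e1]
  ring

open Classical in
/-- the deterministic bound -/
theorem boundU {V : Zd d → ℝ} {B : ℝ} (hB : 0 ≤ B) (hV : ∀ x, |V x| ≤ B * (1 + ‖x‖))
    {a : Zd d} {T R ε : ℝ}
    (hR : 0 ≤ R) (hnear : ∀ ψ : ℝ → Zd d → ℂ, Sol d V a ψ → near ψ a T R ≤ ε)
    {ι : Type} [Fintype ι] {φ : ι → Zd d → ℂ} (hφ : Fam d V φ) {θ : ℝ} (hθ0 : 0 ≤ θ)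
    (hθ : θ ≤ 1 / 2) (ht : ∀ i, ∑' x, (if ‖x - a‖ ≤ R then 0 else ‖φ i x‖ ^ 2) ≤ θ) :
    ∑ i, ‖φ i a‖ ^ 2 ≤ 2 * ε + 4 * (2 * R + 1) ^ d * θ := by
  obtain ⟨Φ, hΦ⟩ : ∃ Φ : ι → HS d, Φ = fun i => hmk (φ i) (hφ.norm i).summable := ⟨_, rfl⟩
  have hΦa : ∀ i x, Φ i x = φ i x := by
    intro i x
    rw [hΦ]
    rfl
  have ho : Orthonormal ℂ Φ := by
    constructor
    · intro i
      have h1 := hs_sum (Φ i)
      simp only [hΦa] at h1
      have h2 := h1.unique (hφ.norm i)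
      rw [← pow_left_inj₀ (norm_nonneg _) zero_le_one two_ne_zero, h2, one_pow]
    · intro i j hij
      have h1 := lp.hasSum_inner (𝕜 := ℂ) (Φ i) (Φ j)
      rw [← h1.tsum_eq, ← hφ.orth i j hij]
      refine tsum_congr fun x => ?_
      rw [RCLike.inner_apply, hΦa, hΦa, mul_comm]
  have he : ∀ i, ∃ E : ℝ, ∀ x, -S (fun y => Φ i y) x + (V x : ℂ) * Φ i x = (E : ℂ) * Φ i x := by
    intro i
    obtain ⟨E, hE⟩ := hφ.eig i
    refine ⟨E, fun x => ?_⟩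
    have e1 : (fun y => (Φ i) y) = φ i := by
      funext y
      exact hΦa i y
    rw [e1, hΦa, hE x]
  obtain ⟨ψ, hψ, hov⟩ := sol_overU V B hB hV a
  have h1 := fam_near a R hR Φ ho θ hθ (by simpa only [hΦa] using ht) ψ hψ (by
    intro s
    obtain ⟨u, hu1, hu2, hu3⟩ := hov s
    refine ⟨u, hu1, hu2, fun i => ?_⟩
    obtain ⟨E, hE⟩ := he i
    exact hu3 (Φ i) E hE) T hθ0
  simp only [hΦa] at h1
  have h2 := hnear ψ hψ
  linarith

open Classical in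
/-- the deterministic bound -/
theorem boundW {V : Zd d → ℝ} {a : Zd d} {e η R ε C : ℝ}
    (hη : 0 < η) (hR : 0 ≤ R) {u : Zd d → ℂ} (hu : Rs d V a e η u)
    (hC : η * ∑' x, ‖u x‖ ^ 2 ≤ C)
    (hnear : η * ∑' x, (if ‖x - a‖ ≤ R then ‖u x‖ ^ 2 else 0) ≤ ε)
    {ι : Type} [Fintype ι] {φ : ι → Zd d → ℂ} (hφ : FamW d V e η φ) {θ : ℝ} (hθ0 : 0 ≤ θ)
    (hθ : θ ≤ 1 / 2) (ht : ∀ i, ∑' x, (if ‖x - a‖ ≤ R then 0 else ‖φ i x‖ ^ 2) ≤ θ) :
    ∑ i, ‖φ i a‖ ^ 2 ≤ (4 * ε + 8 * C * ((2 * R + 1) ^ d * θ)) * η := by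
  obtain ⟨Φ, hΦ⟩ : ∃ Φ : ι → HS d, Φ = fun i => hmk (φ i) (hφ.norm i).summable := ⟨_, rfl⟩
  have hΦa : ∀ i x, Φ i x = φ i x := by
    intro i x
    rw [hΦ]
    rfl
  have ho : Orthonormal ℂ Φ := by
    constructor
    · intro i
      have h1 := hs_sum (Φ i)
      simp only [hΦa] at h1
      have h2 := h1.unique (hφ.norm i)
      rw [← pow_left_inj₀ (norm_nonneg _) zero_le_one two_ne_zero, h2, one_pow]
    · intro i j hij
      have h1 := lp.hasSum_inner (𝕜 := ℂ) (Φ i) (Φ j)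
      rw [← h1.tsum_eq, ← hφ.orth i j hij]
      refine tsum_congr fun x => ?_
      rw [RCLike.inner_apply, hΦa, hΦa, mul_comm]
  obtain ⟨U, hU⟩ : ∃ U : HS d, U = hmk u hu.sq := ⟨_, rfl⟩
  have hUa : ∀ x, U x = u x := by
    intro x
    rw [hU]
    rfl
  have hs1 : HasSum (fun x : Zd d => ‖if x = a then (1 : ℂ) else 0‖ ^ 2) 1 := by
    have := hasSum_single (f := fun x : Zd d => ‖if x = a then (1 : ℂ) else 0‖ ^ 2) a
      (fun x hx => by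
        rw [if_neg hx]
        simp)
    simp only [if_true, norm_one, one_pow] at this
    exact this
  obtain ⟨δ, hδ⟩ : ∃ δ : HS d, δ = hmk (fun x => if x = a then (1 : ℂ) else 0) hs1.summable :=
    ⟨_, rfl⟩
  obtain ⟨z, hz⟩ : ∃ z : ℂ, z = (e : ℂ) + (η : ℂ) * Complex.I := ⟨_, rfl⟩
  have hov : ∀ i, ‖φ i a‖ ^ 2 ≤ 2 * η ^ 2 * ‖⟪Φ i, U⟫_ℂ‖ ^ 2 := by
    intro i
    obtain ⟨E, hE1, hE2⟩ := hφ.eig i
    have h6 := lp.hasSum_inner (𝕜 := ℂ) (Φ i) δ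
    have h7 : ⟪Φ i, δ⟫_ℂ = ⟪Φ i a, δ a⟫_ℂ := by
      refine h6.unique (hasSum_single a fun x hx => ?_)
      have h8 : δ x = 0 := by
        rw [hδ, hmk_apply, if_neg hx]
      rw [h8, inner_zero_right]
    have h8 : δ a = 1 := by
      rw [hδ, hmk_apply, if_pos rfl]
    have h9 : ‖⟪Φ i, δ⟫_ℂ‖ = ‖φ i a‖ := by
      rw [h7, h8, RCLike.inner_apply, one_mul, RCLike.norm_conj, hΦa]
    have h10 : ⟪Φ i, δ⟫_ℂ = ((E : ℂ) - z) * ⟪Φ i, U⟫_ℂ :=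
      ov_eq V (Φ i) U δ E z (fun x => by
        have e1 : (fun y => (Φ i) y) = φ i := by
          funext y
          exact hΦa i y
        rw [e1, hΦa, hE2 x]) (fun x => by
        have e1 : (fun y => U y) = u := by
          funext y
          exact hUa y
        rw [e1, hUa, hz, hδ]
        exact hu.eq x)
    have h11 : ‖(E : ℂ) - z‖ ^ 2 ≤ 2 * η ^ 2 := by
      rw [← Complex.normSq_eq_norm_sq, Complex.normSq_apply, hz]
      have e1 : ((E : ℂ) - ((e : ℂ) + (η : ℂ) * Complex.I)).re = E - e := by simp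
      have e2 : ((E : ℂ) - ((e : ℂ) + (η : ℂ) * Complex.I)).im = -η := by simp
      rw [e1, e2]
      have h12 : (E - e) ^ 2 ≤ η ^ 2 := by
        rw [← sq_abs]
        exact pow_le_pow_left₀ (abs_nonneg _) hE1 2
      nlinarith
    rw [← h9, h10, norm_mul, mul_pow]
    gcongr
  have hgen := fam_gen Φ ho (fun x => ‖x - a‖ ≤ R) θ (by simpa only [hΦa] using ht) U
  simp only [hUa] at hgen
  have hnU : ‖U‖ ^ 2 = ∑' x, ‖u x‖ ^ 2 := by
    rw [← (hs_sum U).tsum_eq]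
    simp only [hUa]
  rw [hnU] at hgen
  have hcard := fam_card a R hR Φ ho θ hθ (by simpa only [hΦa] using ht)
  obtain ⟨A, hA⟩ : ∃ A, A = ∑' x, (if ‖x - a‖ ≤ R then ‖u x‖ ^ 2 else 0) := ⟨_, rfl⟩
  obtain ⟨D, hD⟩ : ∃ D, D = ∑' x, ‖u x‖ ^ 2 := ⟨_, rfl⟩
  rw [← hA] at hnear hgen
  rw [← hD] at hC hgen
  have hD0 : 0 ≤ D := by rw [hD]; exact tsum_nonneg fun x => sq_nonneg _
  calc ∑ i, ‖φ i a‖ ^ 2 ≤ ∑ i, 2 * η ^ 2 * ‖⟪Φ i, U⟫_ℂ‖ ^ 2 := Finset.sum_le_sum fun i _ => hov i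
    _ = 2 * η ^ 2 * ∑ i, ‖⟪Φ i, U⟫_ℂ‖ ^ 2 := by rw [Finset.mul_sum]
    _ ≤ 2 * η ^ 2 * (2 * A + 2 * Fintype.card ι * θ * D) := by gcongr
    _ = (4 * (η * A) + 4 * Fintype.card ι * θ * (η * D)) * η := by ring
    _ ≤ (4 * ε + 4 * (2 * (2 * R + 1) ^ d) * θ * C) * η := by
        have h0 : 0 ≤ η * D := by positivity
        gcongr
    _ = _ := by ring

end Pool.Agent.Q204.GA
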