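import Pool.Agent.Q204.GA.LenC

/-! Gaussian disorder: few localized eigenfunctions. -/

set_option autoImplicit false
set_option linter.unusedSectionVars false

open scoped BigOperators Topology InnerProductSpace
open MeasureTheory ProbabilityTheory Filter Set

namespace Pool.Agent.Q204.GA

open Pool.Agent.W788.LD.Spec (S)
open Pool.Agent.H4R2.LO (Zd)
open Pool.Agent.TH794.QD
open Pool.Agent.TH794.QE
open Pool.Agent.Q62.QD

variable {d : ℕ}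

theorem tail_pow (R σ : ℝ) (hσ : 0 < σ) (hσ1 : σ ≤ 1 / 4) (hR1 : 1 / σ ≤ R) :
    0 < R ∧ 4 ≤ R ∧ (1 / R) ^ (d + 1) ≤ 1 / 2 ∧
      (2 * (2 * R) + 1) ^ d * (1 / R) ^ (d + 1) ≤ 6 ^ d * σ := by
  have hR0 : 0 < R := lt_of_lt_of_le (by positivity) hR1
  have hR4 : 4 ≤ R := by
    refine le_trans ?_ hR1
    rw [le_div_iff₀ hσ]
    linarith
  refine ⟨hR0, hR4, ?_, ?_⟩
  · have h1 : 1 / R ≤ 1 / 2 := by
      rw [div_le_div_iff₀ hR0 (by norm_num)]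
      linarith
    calc (1 / R) ^ (d + 1) ≤ (1 / 2) ^ (d + 1) := pow_le_pow_left₀ (by positivity) h1 _
      _ ≤ (1 / 2) ^ 1 := pow_le_pow_of_le_one (by norm_num) (by norm_num) (by omega)
      _ = 1 / 2 := pow_one _
  · have h4 : 1 / R ≤ σ := by
      rw [div_le_iff₀ hR0]
      rw [div_le_iff₀ hσ] at hR1
      linarith
    calc (2 * (2 * R) + 1) ^ d * (1 / R) ^ (d + 1) ≤ (6 * R) ^ d * (1 / R) ^ (d + 1) := by
          have : 2 * (2 * R) + 1 ≤ 6 * R := by linarith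
          gcongr
      _ = 6 ^ d * (1 / R) := by
          rw [mul_pow, div_pow, pow_succ R, one_pow]
          field_simp
      _ ≤ 6 ^ d * σ := by gcongr

open Classical in
theorem htail (u : Zd d → ℂ) (x y : Zd d) (R : ℝ) (hs : Summable fun z => ‖u z‖ ^ 2)
    (hxy : ‖x - y‖ ≤ R) :
    ∑' z, (if ‖z - x‖ ≤ 2 * R then 0 else ‖u z‖ ^ 2) ≤
      ∑' z, (if ‖z - y‖ ≤ R then 0 else ‖u z‖ ^ 2) := by
  refine Summable.tsum_le_tsum (fun z => ?_) ?_ ?_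
  · by_cases hz : ‖z - x‖ ≤ 2 * R
    · rw [if_pos hz]
      split_ifs <;> positivity
    · rw [if_neg hz]
      have hz2 : ¬ ‖z - y‖ ≤ R := by
        intro hz3
        apply hz
        calc ‖z - x‖ = ‖(z - y) - (x - y)‖ := by
              congr 1
              abel
          _ ≤ ‖z - y‖ + ‖x - y‖ := norm_sub_le _ _
          _ ≤ R + R := add_le_add hz3 hxy
          _ = 2 * R := by ring
      rw [if_neg hz2]
  · refine Summable.of_nonneg_of_le (fun x => ?_) (fun x => ?_) hs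
    · split_ifs <;> positivity
    · split_ifs
      · positivity
      · exact le_rfl
  · refine Summable.of_nonneg_of_le (fun x => ?_) (fun x => ?_) hs
    · split_ifs <;> positivity
    · split_ifs
      · positivity
      · exact le_rfl

open Classical in
/-- **few localized eigenfunctions, all energies** -/
theorem loclenG (hd3 : 3 ≤ d) (ε : ℝ) (hε : 0 < ε) :
    ∃ δ : ℝ, 0 < δ ∧ ∃ σ0 : ℝ, 0 < σ0 ∧ ∀ σ : ℝ, 0 < σ → σ ≤ σ0 →
      ∃ G : Set (Zd d → ℝ), MeasurableSet G ∧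
        1 - Real.exp (-σ ^ (-(1 / 5000) : ℝ)) ≤ (PG d).real G ∧
        ∀ ξ ∈ G, ∀ R : ℝ, 1 / σ ≤ R → R ≤ δ * σ ^ (-(2 + 1 / 86) : ℝ) →
          (∀ a : Zd d, ‖a‖ ≤ Real.exp (σ ^ (-(1 / 5000) : ℝ)) →
            ∀ (ι : Type) [Fintype ι] (φ : ι → Zd d → ℂ), Fam d (fun x => -(σ * ξ x)) φ →
            (∀ i, ∑' x, (if ‖x - a‖ ≤ R then 0 else ‖φ i x‖ ^ 2) ≤ (1 / R) ^ (d + 1)) →
            ∑ i, ‖φ i a‖ ^ 2 ≤ ε) ∧
          ∀ L : ℝ, R ≤ L → L + R ≤ Real.exp (σ ^ (-(1 / 5000) : ℝ)) →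
            ∀ (n : ℕ) (φ : Fin n → Zd d → ℂ) (y : Fin n → Zd d),
            Fam d (fun x => -(σ * ξ x)) φ → (∀ i, ‖y i‖ ≤ L) →
            (∀ i, ∑' x, (if ‖x - y i‖ ≤ R then 0 else ‖φ i x‖ ^ 2) ≤ (1 / R) ^ (d + 1)) →
            (n : ℝ) ≤ ε * (2 * L + 1) ^ d := by
  have h2d : (1 : ℝ) ≤ 2 * 2 ^ d := by
    have : (1 : ℝ) ≤ 2 ^ d := one_le_pow₀ (by norm_num)
    linarith
  obtain ⟨ε', hε'⟩ : ∃ ε', ε' = ε / (2 * 2 ^ d) := ⟨_, rfl⟩
  have hε'0 : 0 < ε' := by rw [hε']; positivity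
  have hε'1 : ε' ≤ ε := by rw [hε']; exact div_le_self hε.le h2d
  obtain ⟨δ1, hδ1, s0, hs0, hL⟩ := leaveG d hd3 (ε' / 4) (by positivity)
  refine ⟨δ1 / 2, by positivity, min s0 (min (1 / 4) (ε' / (8 * 6 ^ d))),
    lt_min hs0 (lt_min (by norm_num) (by positivity)), fun σ hσ hσσ => ?_⟩
  have hσ0 : σ ≤ s0 := hσσ.trans (min_le_left _ _)
  have hσ1 : σ ≤ 1 / 4 := hσσ.trans ((min_le_right _ _).trans (min_le_left _ _))
  have hσ2 : σ ≤ ε' / (8 * 6 ^ d) := hσσ.trans ((min_le_right _ _).trans (min_le_right _ _))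
  obtain ⟨G, hG, hP, hGL⟩ := hL σ hσ hσ0
  refine ⟨G, hG, hP, fun ξ hξ R hR1 hR2 => ?_⟩
  obtain ⟨⟨C, hC, hξC⟩, hnear⟩ := hGL ξ hξ
  obtain ⟨hR0, hR4, hθ, hpow⟩ := tail_pow (d := d) R σ hσ hσ1 hR1
  obtain ⟨T, hT⟩ : ∃ T, T = σ ^ (-(2 + 1 / 43) : ℝ) := ⟨_, rfl⟩
  have hT0 : 0 < T := by rw [hT]; positivity
  have hT1 : σ ^ (-(2 + 1 / 70) : ℝ) ≤ T := by
    rw [hT]
    exact Real.rpow_le_rpow_of_exponent_ge hσ (by linarith) (by norm_num)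
  have hkey : (2 * R) * Real.sqrt (σ ^ 2 / T) ≤ δ1 := by
    have e1 : Real.sqrt (σ ^ 2 / T) = σ ^ (2 + 1 / 86 : ℝ) := by
      rw [Real.sqrt_eq_iff_mul_self_eq (by positivity) (by positivity), ← Real.rpow_add hσ, hT,
        Real.rpow_neg hσ.le, div_inv_eq_mul, ← Real.rpow_two, ← Real.rpow_add hσ]
      norm_num
    rw [e1]
    calc (2 * R) * σ ^ (2 + 1 / 86 : ℝ) ≤
        (2 * (δ1 / 2 * σ ^ (-(2 + 1 / 86) : ℝ))) * σ ^ (2 + 1 / 86 : ℝ) := by gcongr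
      _ = δ1 * (σ ^ (-(2 + 1 / 86) : ℝ) * σ ^ (2 + 1 / 86 : ℝ)) := by ring
      _ = δ1 := by
          rw [← Real.rpow_add hσ]
          norm_num
  -- the local bound, with the radius `2 R`
  have hmain : ∀ a : Zd d, ‖a‖ ≤ Real.exp (σ ^ (-(1 / 5000) : ℝ)) →
      ∀ (ι : Type) [Fintype ι] (φ : ι → Zd d → ℂ),
      Fam d (fun x => -(σ * ξ x)) φ →
      (∀ i, ∑' x, (if ‖x - a‖ ≤ 2 * R then 0 else ‖φ i x‖ ^ 2) ≤ (1 / R) ^ (d + 1)) →
      ∑ i, ‖φ i a‖ ^ 2 ≤ ε' := by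
    intro a ha ι _ φ hφ ht
    have h1 := boundU (V := fun x => -(σ * ξ x)) (B := σ * C) (by positivity) (fun x => by
      rw [abs_neg, abs_mul, abs_of_pos hσ, mul_assoc]
      exact mul_le_mul_of_nonneg_left (hξC x) hσ.le) (a := a) (T := T) (R := 2 * R)
      (ε := ε' / 4) (by positivity) (fun ψ hψ => hnear a ha ψ hψ T hT1 hT.le (2 * R) hkey) hφ
      (by positivity) hθ ht
    refine h1.trans ?_
    have h2 : 4 * (2 * (2 * R) + 1) ^ d * (1 / R) ^ (d + 1) ≤ ε' / 2 := by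
      calc 4 * (2 * (2 * R) + 1) ^ d * (1 / R) ^ (d + 1) =
          4 * ((2 * (2 * R) + 1) ^ d * (1 / R) ^ (d + 1)) := by ring
        _ ≤ 4 * (6 ^ d * (ε' / (8 * 6 ^ d))) := by
            have : (6 : ℝ) ^ d * σ ≤ 6 ^ d * (ε' / (8 * 6 ^ d)) := by gcongr
            linarith
        _ = ε' / 2 := by
            field_simp
            norm_num
    linarith
  constructor
  · intro a ha ι _ φ hφ ht
    refine (hmain a ha ι φ hφ fun i => ?_).trans hε'1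
    refine (htail (φ i) a a R (hφ.norm i).summable ?_).trans (ht i)
    rw [sub_self, norm_zero]
    exact hR0.le
  · intro L hRL hLR n φ y hφ hy ht
    have h1 := count (ε := ε') (by linarith) hRL n φ y hφ.norm hy ht (by positivity)
      fun x hx => ?_
    · refine h1.trans (le_of_eq ?_)
      rw [hε']
      field_simp
    · refine hmain x (hx.trans hLR) {i : Fin n // ‖x - y i‖ ≤ R} (fun i => φ i.1) ?_ ?_
      · exact ⟨fun i => hφ.norm i.1, fun i j hij => hφ.orth i.1 j.1 fun h => hij (Subtype.ext h),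
          fun i => hφ.eig i.1⟩
      · intro i
        exact (htail (φ i.1) x (y i.1) R (hφ.norm i.1).summable i.2).trans (ht i.1)

open Classical in
/-- **few localized eigenfunctions in every energy window** -/
theorem windowsG (hd3 : 3 ≤ d) (κ : ℝ) (hκ : 0 < κ) (hκ1 : κ ≤ 1) (ε : ℝ) (hε : 0 < ε) :
    ∃ δ : ℝ, 0 < δ ∧ ∃ σ0 : ℝ, 0 < σ0 ∧ ∀ σ : ℝ, 0 < σ → σ ≤ σ0 →
      ∃ G : Set (Zd d → ℝ), MeasurableSet G ∧
        1 - Real.exp (-σ ^ (-(1 / 5000) : ℝ)) ≤ (PG d).real G ∧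
        ∀ ξ ∈ G, ∀ E : ℝ, Bk d κ E →
          ∀ η : ℝ, σ ^ (2 + 1 / 41 : ℝ) ≤ η → η ≤ σ ^ (2 + 1 / 80 : ℝ) →
          ∀ R : ℝ, 1 / σ ≤ R → R * Real.sqrt (η * σ ^ 2) ≤ δ →
          (∀ a : Zd d, ‖a‖ ≤ Real.exp (σ ^ (-(1 / 5000) : ℝ)) →
            ∀ (ι : Type) [Fintype ι] (φ : ι → Zd d → ℂ),
            FamW d (fun x => -(σ * ξ x)) (-E) η φ →
            (∀ i, ∑' x, (if ‖x - a‖ ≤ R then 0 else ‖φ i x‖ ^ 2) ≤ (1 / R) ^ (d + 1)) →
            ∑ i, ‖φ i a‖ ^ 2 ≤ ε * η) ∧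
          ∀ L : ℝ, R ≤ L → L + R ≤ Real.exp (σ ^ (-(1 / 5000) : ℝ)) →
            ∀ (n : ℕ) (φ : Fin n → Zd d → ℂ) (y : Fin n → Zd d),
            FamW d (fun x => -(σ * ξ x)) (-E) η φ → (∀ i, ‖y i‖ ≤ L) →
            (∀ i, ∑' x, (if ‖x - y i‖ ≤ R then 0 else ‖φ i x‖ ^ 2) ≤ (1 / R) ^ (d + 1)) →
            (n : ℝ) ≤ ε * η * (2 * L + 1) ^ d := by
  have h2d : (1 : ℝ) ≤ 2 * 2 ^ d := by
    have : (1 : ℝ) ≤ 2 ^ d := one_le_pow₀ (by norm_num)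
    linarith
  obtain ⟨ε', hε'⟩ : ∃ ε', ε' = ε / (2 * 2 ^ d) := ⟨_, rfl⟩
  have hε'0 : 0 < ε' := by rw [hε']; positivity
  have hε'1 : ε' ≤ ε := by rw [hε']; exact div_le_self hε.le h2d
  obtain ⟨C, hC, hlv⟩ := leaveRG d hd3 κ hκ hκ1
  obtain ⟨δ1, hδ1, s0, hs0, hL⟩ := hlv (ε' / 8) (by positivity)
  refine ⟨δ1 / 2, by positivity, min s0 (min (1 / 4) (ε' / (16 * C * 6 ^ d))),
    lt_min hs0 (lt_min (by norm_num) (by positivity)), fun σ hσ hσσ => ?_⟩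
  have hσ0 : σ ≤ s0 := hσσ.trans (min_le_left _ _)
  have hσ1 : σ ≤ 1 / 4 := hσσ.trans ((min_le_right _ _).trans (min_le_left _ _))
  have hσ2 : σ ≤ ε' / (16 * C * 6 ^ d) :=
    hσσ.trans ((min_le_right _ _).trans (min_le_right _ _))
  obtain ⟨G, hG, hP, hGL⟩ := hL σ hσ hσ0
  refine ⟨G, hG, hP, fun ξ hξ E hE η hη1 hη2 R hR1 hR2 => ?_⟩
  obtain ⟨-, hres⟩ := hGL ξ hξ
  have hη0 : 0 < η := lt_of_lt_of_le (Real.rpow_pos_of_pos hσ _) hη1
  obtain ⟨hR0, hR4, hθ, hpow⟩ := tail_pow (d := d) R σ hσ hσ1 hR1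
  have hkey : (2 * R) * Real.sqrt (η * σ ^ 2) ≤ δ1 := by linarith
  -- the local bound, with the radius `2 R`
  have hmain : ∀ a : Zd d, ‖a‖ ≤ Real.exp (σ ^ (-(1 / 5000) : ℝ)) →
      ∀ (ι : Type) [Fintype ι] (φ : ι → Zd d → ℂ),
      FamW d (fun x => -(σ * ξ x)) (-E) η φ →
      (∀ i, ∑' x, (if ‖x - a‖ ≤ 2 * R then 0 else ‖φ i x‖ ^ 2) ≤ (1 / R) ^ (d + 1)) →
      ∑ i, ‖φ i a‖ ^ 2 ≤ ε' * η := by
    intro a ha ι _ φ hφ ht
    obtain ⟨u, hu, h1, h2⟩ := hres a ha E hE η hη1 hη2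
    refine (boundW hη0 (by positivity) hu h1 (h2 (2 * R) hkey) hφ (by positivity) hθ
      ht).trans ?_
    have h4 : 8 * C * ((2 * (2 * R) + 1) ^ d * (1 / R) ^ (d + 1)) ≤ ε' / 2 := by
      calc 8 * C * ((2 * (2 * R) + 1) ^ d * (1 / R) ^ (d + 1)) ≤ 8 * C * (6 ^ d * σ) := by gcongr
        _ ≤ 8 * C * (6 ^ d * (ε' / (16 * C * 6 ^ d))) := by gcongr
        _ = ε' / 2 := by
            field_simp
            norm_num
    have h5 : 4 * (ε' / 8) + 8 * C * ((2 * (2 * R) + 1) ^ d * (1 / R) ^ (d + 1)) ≤ ε' := by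
      linarith
    gcongr
  constructor
  · intro a ha ι _ φ hφ ht
    refine (hmain a ha ι φ hφ fun i => ?_).trans (by gcongr)
    refine (htail (φ i) a a R (hφ.norm i).summable ?_).trans (ht i)
    rw [sub_self, norm_zero]
    exact hR0.le
  · intro L hRL hLR n φ y hφ hy ht
    have h1 := count (ε := ε' * η) (by linarith) hRL n φ y hφ.norm hy ht (by positivity)
      fun x hx => ?_
    · refine h1.trans (le_of_eq ?_)
      rw [hε']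
      field_simp
    · refine hmain x (hx.trans hLR) {i : Fin n // ‖x - y i‖ ≤ R} (fun i => φ i.1) ?_ ?_
      · exact ⟨fun i => hφ.norm i.1, fun i j hij => hφ.orth i.1 j.1 fun h => hij (Subtype.ext h),
          fun i => hφ.eig i.1⟩
      · intro i
        exact (htail (φ i.1) x (y i.1) R (hφ.norm i.1).summable i.2).trans (ht i.1)

end Pool.Agent.Q204.GA
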