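import Pool.Agent.Q204.GA.Plus
import Pool.Agent.Q62.QD.Base
import Pool.Agent.W340.BK.Conc
import Pool.Agent.W351.BK.Mb
import Pool.Agent.W363.BK.Site

/-! The local law and the flatness for Gaussian potentials. -/

set_option autoImplicit false
set_option linter.unusedSectionVars false

open scoped BigOperators ENNReal
open MeasureTheory ProbabilityTheory

namespace Pool.Agent.Q204.GA

open Pool.Agent.W788.LD.Spec (S)
open Pool.Agent.H4R2.LO (Zd bx)
open Pool.Agent.Y661.BG (cl cl_abs cl_eq)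
open Pool.Agent.TH794.LL2 (LG LLaw Po engine2 KK KK_ge)
open Pool.Agent.W788.BK.Num (ev2)
open Pool.Agent.W788.BK (SM1 flat1 C1 C1_ge)
open Pool.Agent.Q62.QD

variable {d : ℕ}

/-- the parameters -/
theorem par_conv (σ : ℝ) (hσ : 0 < σ) (Y : ℝ) (hY : Y = Real.log (1 / σ)) (q : ℝ) :
    σ ^ (q : ℝ) = Real.exp (-q * Y) := by
  have : Real.log σ = -Y := by rw [hY, one_div, Real.log_inv, neg_neg]
  rw [Real.rpow_def_of_pos hσ, this]
  congr 1
  ring

/-- **the local law for the Gaussian potential** -/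
theorem lawG (d : ℕ) (hd : 3 ≤ d) : ∃ σ0 : ℝ, 0 < σ0 ∧ ∀ σ : ℝ, 0 < σ → σ ≤ σ0 →
    ∃ G : Set (Zd d → ℝ), MeasurableSet G ∧
      1 - Real.exp (-σ ^ (-(1 / 102) : ℝ)) ≤ (PG d).real G ∧
      ∀ ξ ∈ G, ∀ a : Zd d, ‖a‖ ≤ Real.exp (σ ^ (-(1 / 102) : ℝ)) →
        ∀ m m0 : Measure ℝ, IsFiniteMeasure m → IsFiniteMeasure m0 →
        ResP d (fun x => σ * ξ x) a m → ResP d (fun _ => 0) a m0 →
        ∀ E s : ℝ, σ ^ (207 / 100 : ℝ) ≤ s →
          |m.real (Set.Icc (E - s) (E + s)) - m0.real (Set.Icc (E - s) (E + s))| ≤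
            σ ^ (1 / 210 : ℝ) * s := by
  obtain ⟨y0, h0⟩ := engine2 sES sTH sFL sIN sO sSU sQB sLO sAD d hd 1 one_pos
  obtain ⟨C, hC, hGd⟩ := Gd_prob d
  obtain ⟨K, hK⟩ : ∃ K, K = KK d := ⟨_, rfl⟩
  have hK3 : 3 ≤ K := by rw [hK]; exact KK_ge d
  obtain ⟨y2, hy2⟩ := Filter.eventually_atTop.1
    ((ev2 12 (-(11 / 1000)) (-(1 / 200)) 0 (by norm_num)).and
    ((ev2 (800 * K) (-(211 / 100)) (-(421 / 200)) 1 (by norm_num)).and
    (cnum d (by omega) (211 / 100) (1 / 100) (by norm_num) (by norm_num) (11 / 1000))))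
  obtain ⟨Y2, hY2⟩ := Filter.eventually_atTop.1
    (pnum C hC d (99 / 10000) (1 / 102) (1 / 50) (by norm_num) (by norm_num) (by norm_num)
      (by norm_num))
  obtain ⟨Y1, hY1⟩ : ∃ Y1, Y1 = 2 * |y0| + 2 * |y2| + |Y2| + 2 := ⟨_, rfl⟩
  refine ⟨Real.exp (-Y1), Real.exp_pos _, fun σ hσ hσ0 => ?_⟩
  obtain ⟨Y, hY⟩ : ∃ Y, Y = Real.log (1 / σ) := ⟨_, rfl⟩
  have hlogσ : Real.log σ = -Y := by rw [hY, one_div, Real.log_inv, neg_neg]
  have hYY : Y1 ≤ Y := by
    have h1 := Real.log_le_log hσ hσ0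
    rw [Real.log_exp, hlogσ] at h1
    linarith
  have b0 := abs_nonneg y0
  have b2 := abs_nonneg y2
  have b3 := abs_nonneg Y2
  have hY0 : 0 < Y := by linarith
  obtain ⟨y, hy⟩ : ∃ y, y = 99 / 100 * Y := ⟨_, rfl⟩
  have hyy0 : y0 ≤ y := by linarith [le_abs_self y0]
  have hyy2 : y2 ≤ y := by linarith [le_abs_self y2]
  have hYY2 : Y2 ≤ Y := by linarith [le_abs_self Y2]
  have hyone : 1 ≤ y := by linarith
  obtain ⟨n1, n3, n4⟩ := hy2 y hyy2
  simp only [pow_zero, mul_one, pow_one] at n1 n3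
  have n5 := hY2 Y hYY2
  obtain ⟨B, hB⟩ : ∃ B, B = Real.exp (1 / 100 * Y) := ⟨_, rfl⟩
  have hB0 : 0 < B := by rw [hB]; positivity
  have hB1 : 1 ≤ B := by rw [hB]; exact Real.one_le_exp (by positivity)
  obtain ⟨t, ht⟩ : ∃ t, t = Real.exp (-(211 / 100) * y) := ⟨_, rfl⟩
  obtain ⟨κ, hκ⟩ : ∃ κ, κ = t / (8 * d) := ⟨_, rfl⟩
  obtain ⟨R, hR⟩ : ∃ R, R = 2 * Real.exp (Real.exp (1 / 100 * y)) := ⟨_, rfl⟩
  obtain ⟨k1, k2, k3, k4, k5, k6⟩ := n4 t κ R ht hκ hR
  have hσe : Real.exp (-Y) = σ := by rw [← hlogσ, Real.exp_log hσ]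
  have hc : Real.exp (-1 * y) = σ * B := by
    rw [← hσe, hB, ← Real.exp_add, hy]
    congr 1
    ring
  obtain ⟨Gf, G, hG, hP, hGf1, hGf2, hL, hF⟩ := h0 y hyy0 _ (nub_prob B) (nub_bd B hB0)
    (nub_mean B hB0)
  rw [← hK] at hGf1 hGf2
  obtain ⟨hm, hPr⟩ := hGd B R _ hB1 (by linarith) G hG hP
  refine ⟨Gd d B R G, hm, ?_, ?_⟩
  · refine le_trans ?_ hPr
    rw [par_conv σ hσ Y hY]
    have e1 : -(-(1 / 102)) * Y = 1 / 102 * Y := by ring
    have e2 : B ^ 2 = Real.exp (1 / 50 * Y) := by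
      rw [hB, sq, ← Real.exp_add]
      congr 1
      ring
    have e3 : 1 / 100 * y = 99 / 10000 * Y := by rw [hy]; ring
    have e4 : y / 100 = 99 / 10000 * Y := by rw [hy]; ring
    rw [e1, e2, hR, e3, e4]
    linarith
  · intro ξ hξ a ha m m0 hmf hm0f hr hr0 E s hs
    have hξ2 : (fun x => cl B (ξ x) / B) ∈ G := hξ.2
    have ha2 : ‖a‖ ≤ Real.exp (Real.exp (y / 100)) := by
      refine ha.trans (Real.exp_le_exp.2 ?_)
      rw [par_conv σ hσ Y hY]
      apply Real.exp_le_exp.2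
      rw [hy]
      linarith
    have ha3 : ‖a‖ ≤ R / 2 := by
      rw [hR]
      have e4 : 1 / 100 * y = y / 100 := by ring
      rw [e4]
      linarith
    have ht0 : 0 < t := by rw [ht]; positivity
    have p1 : ∀ E, |Po m E t - Gf E| ≤ 2 * Real.exp (-(11 / 1000) * y) := by
      intro E
      refine (po_gaussP σ κ R B t (Real.exp (-1 * y)) hσ.le k1 hB0 k2 k3 ht0 k4 hc ξ hξ.1 a ha3 m
        hr Gf (Real.exp (-(11 / 1000) * y)) (fun E ur ui h => ?_) E).trans ?_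
      · rw [ht] at h
        exact hL _ hξ2 a ha2 E ur ui h
      · have e5 : 2 * (σ * (B * Real.exp (-(κ * R / 8)))) * (t⁻¹) ^ 2 =
            (σ * B) * (2 * Real.exp (-(κ * R / 8)) * (t⁻¹) ^ 2) := by ring
        rw [e5, ← hc]
        have e6 : Real.exp (-1 * y) ≤ 1 := Real.exp_le_one_iff.2 (by linarith)
        have e7 := mul_le_mul e6 k5 (by positivity) zero_le_one
        linarith
    have p2 : ∀ E, |Po m0 E t - Gf E| ≤ Real.exp (-(11 / 1000) * y) := by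
      intro E
      obtain ⟨u, hu, hPo⟩ := hr0.rp E t ht0
      have hLG := hu.lg (σ := 0) (ξ := fun _ => 0) (fun x => by ring)
      rw [hPo]
      rw [ht] at hLG
      exact hF 0 _ a E _ _ (fun x => by ring) hLG
    have hmass := hr.mass
    have hmass0 := hr0.mass
    -- reflect
    have p1' : ∀ E, |Po m E (Real.exp (-(211 / 100) * y)) - (fun E' => Gf (-E')) (0 - E)| ≤
        2 * Real.exp (-(11 / 1000) * y) := by
      intro E
      rw [← ht]
      simpa using p1 E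
    have p2' : ∀ E, |Po m0 E (Real.exp (-(211 / 100) * y)) - (fun E' => Gf (-E')) (0 - E)| ≤
        Real.exp (-(11 / 1000) * y) := by
      intro E
      rw [← ht]
      simpa using p2 E
    have hs2 : Real.exp (-(21 / 10) * y) ≤ s := by
      refine le_trans ?_ hs
      rw [par_conv σ hσ Y hY]
      apply Real.exp_le_exp.2
      rw [hy]
      linarith
    refine (detP K y 0 hyone (by linarith) n1 n3 _ (fun E => hGf1 _) m m0 hmass hmass0 p1' p2' E s
      hs2).trans ?_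
    have hs0 : 0 ≤ s := (Real.exp_pos _).le.trans hs2
    apply mul_le_mul_of_nonneg_right _ hs0
    rw [par_conv σ hσ Y hY]
    apply Real.exp_le_exp.2
    rw [hy]
    linarith

/-- the spectral measure for `-S - V` -/
theorem refl_res {V : Zd d → ℝ} {f : Zd d → ℂ} {m : Measure ℝ}
    (hres : ∀ z : ℂ, z.im ≠ 0 → ∃ u : Zd d → ℂ, (Summable fun x => ‖u x‖ ^ 2) ∧
      (∀ x, S u x + (V x : ℂ) * u x - z * u x = f x) ∧
      ∫ t : ℝ, ((t : ℂ) - z)⁻¹ ∂m = ∑' x, (starRingEnd ℂ) (f x) * u x) :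
    ∀ z : ℂ, z.im ≠ 0 → ∃ u : Zd d → ℂ, (Summable fun x => ‖u x‖ ^ 2) ∧
      (∀ x, -S u x + ((-V x : ℝ) : ℂ) * u x - z * u x = f x) ∧
      ∫ t : ℝ, ((t : ℂ) - z)⁻¹ ∂(m.map fun t => -t) = ∑' x, (starRingEnd ℂ) (f x) * u x := by
  intro z hz
  obtain ⟨u, h1, h2, h3⟩ := hres (-z) (by simpa using hz)
  refine ⟨fun x => -u x, by simpa using h1, fun x => ?_, ?_⟩
  · rw [← h2 x]
    have e1 : S (fun x => -u x) x = -S u x := by
      unfold S
      rw [← Finset.sum_neg_distrib]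
      exact Finset.sum_congr rfl fun i _ => by ring
    rw [e1]
    push_cast
    ring
  · have hmeas : Measurable fun t : ℝ => ((t : ℂ) - z)⁻¹ := by fun_prop
    rw [integral_map (by fun_prop) hmeas.aestronglyMeasurable]
    have e2 : (fun t : ℝ => (((-t : ℝ) : ℂ) - z)⁻¹) = fun t : ℝ => -((t : ℂ) - -z)⁻¹ := by
      funext t
      rw [← inv_neg]
      congr 1
      push_cast
      ring
    rw [e2, integral_neg, h3, ← tsum_neg]
    refine tsum_congr fun x => ?_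
    ring

/-- **flat spectral measures and eigenfunctions for the Gaussian potential** -/
theorem flatG (d : ℕ) (hd : 3 ≤ d) : ∃ σ0 K : ℝ, 0 < σ0 ∧ 0 < K ∧ ∀ σ : ℝ, 0 < σ → σ ≤ σ0 →
    ∃ G : Set (Zd d → ℝ), MeasurableSet G ∧
      1 - Real.exp (-σ ^ (-(1 / 102) : ℝ)) ≤ (PG d).real G ∧
      ∀ ξ ∈ G,
        (∀ (f : Zd d → ℂ) (A : Finset (Zd d)),
          (∀ a ∈ A, ‖a‖ ≤ Real.exp (σ ^ (-(1 / 102) : ℝ))) → (∀ a, a ∉ A → f a = 0) →
          ∀ m : Measure ℝ, IsFiniteMeasure m →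
          (∀ z : ℂ, z.im ≠ 0 → ∃ u : Zd d → ℂ, (Summable fun x => ‖u x‖ ^ 2) ∧
            (∀ x, S u x + ((σ * ξ x : ℝ) : ℂ) * u x - z * u x = f x) ∧
            ∫ t : ℝ, ((t : ℂ) - z)⁻¹ ∂m = ∑' x, (starRingEnd ℂ) (f x) * u x) →
          ∀ E s : ℝ, σ ^ (21 / 10 : ℝ) ≤ s → m.real (Set.Icc (E - s) (E + s)) ≤
            K * Real.log (1 / σ) * s * (∑ a ∈ A, ‖f a‖) ^ 2) ∧
        (∀ (E : ℝ) (u : Zd d → ℂ), (Summable fun x => ‖u x‖ ^ 2) →
          (∀ x, S u x + ((σ * ξ x : ℝ) : ℂ) * u x = (E : ℂ) * u x) →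
          ∀ a : Zd d, ‖a‖ ≤ Real.exp (σ ^ (-(1 / 102) : ℝ)) →
          ‖u a‖ ^ 2 ≤ K * Real.log (1 / σ) * σ ^ (21 / 10 : ℝ) * ∑' x, ‖u x‖ ^ 2) := by
  obtain ⟨y0, h0⟩ := Pool.Agent.W788.BK.engine (Pool.Agent.W261.BK.third Pool.Agent.W540.BK.fac)
    (Pool.Agent.W240.BK.fluct (Pool.Agent.W240.BK.var Pool.Agent.W193.BK.ES.es))
    Pool.Agent.W475.BK.inv Pool.Agent.W351.BK.mb
    (Pool.Agent.W340.BK.Conc.conc Pool.Agent.W193.BK.ES.es)
    Pool.Agent.W975.BK.sup Pool.Agent.W363.BK.site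
    (Pool.Agent.W465.BK.qb (Pool.Agent.W240.BK.two Pool.Agent.W918.BK.Osc.osc))
    Pool.Agent.W475.BK.low Pool.Agent.W790.BK.ADM.adm d hd 1 one_pos
  obtain ⟨C, hC, hGd⟩ := Gd_prob d
  have hC1 := C1_ge
  obtain ⟨y2, hy2⟩ := Filter.eventually_atTop.1
    (cnum d (by omega) (17 / 8) (1 / 100) (by norm_num) (by norm_num) (11 / 1000))
  obtain ⟨Y2, hY2⟩ := Filter.eventually_atTop.1
    (pnum C hC d (99 / 10000) (1 / 102) (1 / 50) (by norm_num) (by norm_num) (by norm_num)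
      (by norm_num))
  obtain ⟨Y1, hY1⟩ : ∃ Y1, Y1 = 2 * |y0| + 2 * |y2| + |Y2| + 2 := ⟨_, rfl⟩
  refine ⟨Real.exp (-Y1), 40 * (192 * (C1 * (17 / 8))), Real.exp_pos _, by positivity,
    fun σ hσ hσ0 => ?_⟩
  obtain ⟨Y, hY⟩ : ∃ Y, Y = Real.log (1 / σ) := ⟨_, rfl⟩
  have hlogσ : Real.log σ = -Y := by rw [hY, one_div, Real.log_inv, neg_neg]
  have hYY : Y1 ≤ Y := by
    have h1 := Real.log_le_log hσ hσ0
    rw [Real.log_exp, hlogσ] at h1
    linarith
  have b0 := abs_nonneg y0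
  have b2 := abs_nonneg y2
  have b3 := abs_nonneg Y2
  have hY0 : 0 < Y := by linarith
  obtain ⟨y, hy⟩ : ∃ y, y = 99 / 100 * Y := ⟨_, rfl⟩
  have hyy0 : y0 ≤ y := by linarith [le_abs_self y0]
  have hyy2 : y2 ≤ y := by linarith [le_abs_self y2]
  have hYY2 : Y2 ≤ Y := by linarith [le_abs_self Y2]
  have hyone : 1 ≤ y := by linarith
  have n4 := hy2 y hyy2
  have n5 := hY2 Y hYY2
  obtain ⟨B, hB⟩ : ∃ B, B = Real.exp (1 / 100 * Y) := ⟨_, rfl⟩
  have hB0 : 0 < B := by rw [hB]; positivity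
  have hB1 : 1 ≤ B := by rw [hB]; exact Real.one_le_exp (by positivity)
  obtain ⟨t, ht⟩ : ∃ t, t = Real.exp (-(17 / 8) * y) := ⟨_, rfl⟩
  have ht0 : 0 < t := by rw [ht]; positivity
  obtain ⟨κ, hκ⟩ : ∃ κ, κ = t / (8 * d) := ⟨_, rfl⟩
  obtain ⟨R, hR⟩ : ∃ R, R = 2 * Real.exp (Real.exp (1 / 100 * y)) := ⟨_, rfl⟩
  obtain ⟨k1, k2, k3, k4, k5, k6⟩ := n4 t κ R ht hκ hR
  have hσe : Real.exp (-Y) = σ := by rw [← hlogσ, Real.exp_log hσ]
  have hc : Real.exp (-1 * y) = σ * B := by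
    rw [← hσe, hB, ← Real.exp_add, hy]
    congr 1
    ring
  obtain ⟨G, hG, hP, hb⟩ := h0 y hyy0 _ (nub_prob B) (nub_bd B hB0) (nub_mean B hB0)
  obtain ⟨hm, hPr⟩ := hGd B R _ hB1 (by linarith) G hG hP
  rw [← hY]
  have e4 : 1 / 100 * y = y / 100 := by ring
  have hρ : Real.exp (σ ^ (-(1 / 102) : ℝ)) ≤ Real.exp (Real.exp (y / 100)) := by
    apply Real.exp_le_exp.2
    rw [par_conv σ hσ Y hY]
    apply Real.exp_le_exp.2
    rw [hy]
    linarith
  have hts : t ≤ σ ^ (21 / 10 : ℝ) := by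
    rw [ht, par_conv σ hσ Y hY]
    apply Real.exp_le_exp.2
    rw [hy]
    linarith
  refine ⟨Gd d B R G, hm, ?_, ?_⟩
  · refine le_trans ?_ hPr
    rw [par_conv σ hσ Y hY]
    have e1 : -(-(1 / 102)) * Y = 1 / 102 * Y := by ring
    have e2 : B ^ 2 = Real.exp (1 / 50 * Y) := by
      rw [hB, sq, ← Real.exp_add]
      congr 1
      ring
    have e3 : 1 / 100 * y = 99 / 10000 * Y := by rw [hy]; ring
    have e4 : y / 100 = 99 / 10000 * Y := by rw [hy]; ring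
    rw [e1, e2, hR, e3, e4]
    linarith
  · intro ξ hξ
    have hξ2 : (fun x => cl B (ξ x) / B) ∈ G := hξ.2
    have hsm := hb _ hξ2
    rw [← ht] at hsm
    have hsm2 := SM1_cut (d := d) (Real.exp (-1 * y)) σ (Real.exp (Real.exp (y / 100))) R t
      (192 * (C1 * (17 / 8 * y))) (fun x => cl B (ξ x) / B) ξ ht0 (by positivity) (by linarith)
      (by rw [hR, e4]; linarith) (fun x hx => by
        rw [hc, cl_eq B _ (hξ.1.1 x hx)]
        field_simp) (by linarith) hsm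
    have ht1 : t ≤ 1 / 2 := by
      have h1 : t ≤ Real.exp (-1) := by
        rw [ht]
        apply Real.exp_le_exp.2
        linarith
      have h2 : Real.exp (-1) ≤ 1 / 2 := by
        rw [Real.exp_neg, one_div]
        apply inv_anti₀ (by norm_num)
        have := Real.exp_one_gt_d9
        linarith
      linarith
    obtain ⟨f1, f2⟩ := flat1 σ _ t _ ht0 ht1 (by positivity) ξ hsm2 (fun x => -(σ * ξ x)) 0
      (fun x => by ring)
    have hyY : y ≤ Y := by rw [hy]; linarith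
    constructor
    · intro f A hA hfA m hmf hres E s hs
      have hmf2 : IsFiniteMeasure (m.map fun t : ℝ => -t) := inferInstance
      have h1 := f1 f A (fun a ha => (hA a ha).trans hρ) hfA (m.map fun t : ℝ => -t) hmf2
        (refl_res (V := fun x => σ * ξ x) hres) (-E) s (hts.trans hs)
      have h2 : (m.map fun t : ℝ => -t).real (Set.Icc (-E - s) (-E + s)) =
          m.real (Set.Icc (E - s) (E + s)) := by
        rw [map_measureReal_apply measurable_neg measurableSet_Icc]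
        congr 1
        ext x
        simp only [Set.mem_preimage, Set.mem_Icc]
        constructor <;> rintro ⟨h3, h4⟩ <;> constructor <;> linarith
      rw [h2] at h1
      refine h1.trans ?_
      have hs0 : 0 ≤ s := ht0.le.trans (hts.trans hs)
      apply mul_le_mul_of_nonneg_right _ (sq_nonneg _)
      apply mul_le_mul_of_nonneg_right _ hs0
      have : C1 * y ≤ C1 * Y := by gcongr
      linarith
    · intro E u hu heq a ha
      have h1 := f2 (-E) u hu (fun x => by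
        have h2 := heq x
        push_cast at h2 ⊢
        linear_combination -h2) a (ha.trans hρ)
      refine h1.trans ?_
      have h3 : 0 ≤ ∑' x, ‖u x‖ ^ 2 := tsum_nonneg fun x => by positivity
      apply mul_le_mul_of_nonneg_right _ h3
      have h4 : C1 * y * t ≤ C1 * Y * σ ^ (21 / 10 : ℝ) := by gcongr
      have h5 : 0 ≤ C1 * Y * σ ^ (21 / 10 : ℝ) := by positivity
      linarith

end Pool.Agent.Q204.GA
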