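import Pool.Agent.Q204.GA.Cmp
import Pool.Agent.Q204.GA.Gau
import Pool.Agent.TH794.LL2.Fin2
import Pool.Agent.W788.BK.Fin

/-! The local law and the flatness for Gaussian potentials, from the clipped ones. -/

set_option autoImplicit false
set_option linter.unusedSectionVars false

open scoped BigOperators ENNReal
open MeasureTheory ProbabilityTheory

namespace Pool.Agent.Q204.GA

open Pool.Agent.W788.LD.Spec (S)
open Pool.Agent.H4R2.LO (Zd bx)
open Pool.Agent.Y661.BG (cl)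
open Pool.Agent.TH794.QE (Rs rs_exists)
open Pool.Agent.TH794.LL2 (LG LLaw Res Po po_spec mass_spec meas_compare)
open Pool.Agent.W788.BK (SM1)

variable {d : ℕ}

/-- the geometry of the cut potential -/
theorem eps_geo (κ R B : ℝ) (hκ : 0 < κ) (hB : 0 ≤ B) (hR : 32 / κ ^ 2 ≤ R) (hR2 : 2 ≤ R)
    (a x : Zd d) (ha : ‖a‖ ≤ R / 2) :
    (if ‖x‖ ≤ R then 0 else B * (1 + ‖x‖)) ≤
      (B * Real.exp (-(κ * R / 8))) * Real.exp (κ * ‖x - a‖) := by
  split_ifs with h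
  · positivity
  · push Not at h
    obtain ⟨r, hr⟩ : ∃ r, r = ‖x - a‖ := ⟨_, rfl⟩
    have h1 : ‖x‖ ≤ r + ‖a‖ := by
      have := norm_add_le (x - a) a
      rw [sub_add_cancel] at this
      rw [hr]
      exact this
    have h2 : R / 2 ≤ r := by linarith
    have h3 : ‖x‖ ≤ 2 * r := by linarith
    rw [← hr, mul_assoc, ← Real.exp_add]
    apply mul_le_mul_of_nonneg_left _ hB
    have h4 : 3 / 4 * (κ * r) ≤ -(κ * R / 8) + κ * r := by nlinarith
    have h5 : 0 ≤ 3 / 4 * (κ * r) := by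
      have : 0 ≤ r := by linarith
      positivity
    have h6 := Real.quadratic_le_exp_of_nonneg h5
    have h7 : 16 ≤ κ ^ 2 * r := by
      rw [div_le_iff₀ (by positivity)] at hR
      nlinarith [sq_nonneg κ]
    have h8 : 16 * r ≤ κ ^ 2 * r * r := by
      apply mul_le_mul_of_nonneg_right h7
      linarith
    have h9 : (3 / 4 * (κ * r)) ^ 2 / 2 = 9 / 32 * (κ ^ 2 * r * r) := by ring
    have h10 := Real.exp_le_exp.2 h4
    rw [h9] at h6
    linarith

/-- the comparison of the resolvents -/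
theorem rs_cmp (c0 σ κ R B t e : ℝ) (hσ : 0 ≤ σ) (hκ : 0 < κ) (hB : 0 ≤ B)
    (hR : 32 / κ ^ 2 ≤ R) (hR2 : 2 ≤ R) (ht : 0 < t) (hκt : 2 * d * (Real.exp κ - 1) ≤ t / 2)
    (ξ : Zd d → ℝ) (hξ : ξ ∈ Gr d B R) (a : Zd d) (ha : ‖a‖ ≤ R / 2) (u u' : Zd d → ℂ)
    (h : Rs d (fun x => c0 + σ * ξ x) a e t u)
    (h' : Rs d (fun x => c0 + σ * cl B (ξ x)) a e t u') :
    (Summable fun x => ‖u x - u' x‖ ^ 2) ∧
    ∑' x, ‖u x - u' x‖ ^ 2 ≤ (2 * (σ * (B * Real.exp (-(κ * R / 8)))) * (t⁻¹) ^ 2) ^ 2 := by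
  refine cmp ht h h' κ _ hκ.le hκt fun x => ?_
  have e1 : c0 + σ * ξ x - (c0 + σ * cl B (ξ x)) = σ * (ξ x - cl B (ξ x)) := by ring
  rw [e1, abs_mul, abs_of_nonneg hσ, mul_assoc]
  apply mul_le_mul_of_nonneg_left _ hσ
  exact (clip_diff B R hB ξ hξ x).trans (eps_geo κ R B hκ hB hR hR2 a x ha)

/-- the value at a site -/
theorem rs_cmp_pt (c0 σ κ R B t e : ℝ) (hσ : 0 ≤ σ) (hκ : 0 < κ) (hB : 0 ≤ B)
    (hR : 32 / κ ^ 2 ≤ R) (hR2 : 2 ≤ R) (ht : 0 < t) (hκt : 2 * d * (Real.exp κ - 1) ≤ t / 2)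
    (ξ : Zd d → ℝ) (hξ : ξ ∈ Gr d B R) (a : Zd d) (ha : ‖a‖ ≤ R / 2) (u u' : Zd d → ℂ)
    (h : Rs d (fun x => c0 + σ * ξ x) a e t u)
    (h' : Rs d (fun x => c0 + σ * cl B (ξ x)) a e t u') (x : Zd d) :
    ‖u x - u' x‖ ≤ 2 * (σ * (B * Real.exp (-(κ * R / 8)))) * (t⁻¹) ^ 2 := by
  obtain ⟨h1, h2⟩ := rs_cmp c0 σ κ R B t e hσ hκ hB hR hR2 ht hκt ξ hξ a ha u u' h h'
  have h3 := (h1.le_tsum x fun y _ => sq_nonneg _).trans h2
  exact le_of_sq_le_sq h3 (by positivity)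

/-- the spectral measure of the Gaussian operator: its Poisson integral -/
theorem po_gauss (c0 σ κ R B t c' : ℝ) (hσ : 0 ≤ σ) (hκ : 0 < κ) (hB : 0 < B)
    (hR : 32 / κ ^ 2 ≤ R) (hR2 : 2 ≤ R) (ht : 0 < t) (hκt : 2 * d * (Real.exp κ - 1) ≤ t / 2)
    (hc' : c' = σ * B)
    (ξ : Zd d → ℝ) (hξ : ξ ∈ Gr d B R) (a : Zd d) (ha : ‖a‖ ≤ R / 2)
    (m : Measure ℝ) [IsFiniteMeasure m] (hm : Res d (fun x => c0 + σ * ξ x) a m)
    (Gf : ℝ → ℝ) (e1 : ℝ)
    (hL : ∀ (E : ℝ) (ur ui : Zd d → ℝ),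
      LG d c' (fun x => -(cl B (ξ x) / B)) a E t ur ui → |ui a - Gf E| ≤ e1) (E : ℝ) :
    |Po m E t - Gf (c0 - E)| ≤ e1 + 2 * (σ * (B * Real.exp (-(κ * R / 8)))) * (t⁻¹) ^ 2 := by
  obtain ⟨u', hu'⟩ := rs_exists (fun x => c0 + σ * cl B (ξ x)) (|c0| + σ * B) (fun x => by
    refine (abs_add_le _ _).trans ?_
    rw [abs_mul, abs_of_nonneg hσ]
    have := Pool.Agent.Y661.BG.cl_abs B hB.le (ξ x)
    gcongr) a E t ht
  obtain ⟨u, hu, heq, hint⟩ := hm ((E : ℂ) + (t : ℂ) * Complex.I) (by simp [ht.ne'])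
  have hRu : Rs d (fun x => c0 + σ * ξ x) a E t u := ⟨hu, fun x => by
    rw [heq x]
    by_cases hx : x = a
    · rw [if_pos hx, hx, Pi.single_eq_same]
    · rw [if_neg hx, Pi.single_eq_of_ne hx]⟩
  have hpt := rs_cmp_pt c0 σ κ R B t E hσ hκ hB.le hR hR2 ht hκt ξ hξ a ha u u' hRu hu' a
  have hPo : Po m E t = (u a).im := by
    have h1 := Pool.Agent.TH794.LL2.Po_im m E t ht
    rw [hint] at h1
    have h2 : ∑' x, (starRingEnd ℂ) ((Pi.single a 1 : Zd d → ℂ) x) * u x = u a := by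
      rw [tsum_eq_single a]
      · rw [Pi.single_eq_same, map_one, one_mul]
      · intro x hx
        rw [Pi.single_eq_of_ne hx, map_zero, zero_mul]
    rw [h2] at h1
    exact h1.symm
  have hn : ∀ x, ‖u' x‖ ^ 2 = (u' x).re ^ 2 + (u' x).im ^ 2 := by
    intro x
    rw [← Complex.normSq_eq_norm_sq, Complex.normSq_apply]
    ring
  have hcx : ∀ x, c0 + σ * cl B (ξ x) = c0 - c' * (-(cl B (ξ x) / B)) := by
    intro x
    rw [hc']
    field_simp
    ring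
  have hLG : LG d c' (fun x => -(cl B (ξ x) / B)) a (c0 - E) t (fun x => -(u' x).re)
      (fun x => (u' x).im) := by
    refine ⟨?_, ?_, ?_, ?_⟩
    · refine Summable.of_nonneg_of_le (fun x => sq_nonneg _) (fun x => ?_) hu'.sq
      rw [hn x]
      nlinarith [sq_nonneg (u' x).im]
    · refine Summable.of_nonneg_of_le (fun x => sq_nonneg _) (fun x => ?_) hu'.sq
      rw [hn x]
      nlinarith [sq_nonneg (u' x).re]
    · intro x
      have h3 := congrArg Complex.re (hu'.eq x)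
      have h4 : (if x = a then (1 : ℂ) else 0).re = if x = a then 1 else 0 := by
        by_cases hx : x = a
        · rw [if_pos hx, if_pos hx, Complex.one_re]
        · rw [if_neg hx, if_neg hx, Complex.zero_re]
      rw [h4, hcx x] at h3
      have h5 : ∑ i : Fin d, (-(u' (x + Pi.single i 1)).re + -(u' (x - Pi.single i 1)).re) =
          -∑ i : Fin d, ((u' (x + Pi.single i 1)).re + (u' (x - Pi.single i 1)).re) := by
        rw [← Finset.sum_neg_distrib]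
        exact Finset.sum_congr rfl fun i _ => by ring
      rw [h5]
      generalize -(cl B (ξ x) / B) = g at h3 ⊢
      simp [S] at h3
      linarith
    · intro x
      have h3 := congrArg Complex.im (hu'.eq x)
      have h4 : (if x = a then (1 : ℂ) else 0).im = 0 := by
        by_cases hx : x = a
        · rw [if_pos hx, Complex.one_im]
        · rw [if_neg hx, Complex.zero_im]
      rw [h4, hcx x] at h3
      generalize -(cl B (ξ x) / B) = g at h3 ⊢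
      simp [S] at h3
      linarith
  have h6 := hL _ _ _ hLG
  rw [hPo]
  have h7 := Complex.abs_im_le_norm (u a - u' a)
  rw [Complex.sub_im] at h7
  have h8 := abs_sub_le (u a).im (u' a).im (Gf (c0 - E))
  linarith

/-- the deterministic part -/
theorem detP (K y c0 : ℝ) (hy1 : 1 ≤ y) (hK : 1 ≤ K)
    (n1 : 12 * Real.exp (-(11 / 1000) * y) ≤ Real.exp (-(1 / 200) * y))
    (n3 : 800 * K * y * Real.exp (-(211 / 100) * y) ≤ Real.exp (-(421 / 200) * y))
    (Gf : ℝ → ℝ) (hG : ∀ E, |Gf E| ≤ K) (m m0 : Measure ℝ) [IsFiniteMeasure m]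
    [IsFiniteMeasure m0] (hmass : m.real Set.univ ≤ 1) (hmass0 : m0.real Set.univ ≤ 1)
    (p1 : ∀ E, |Po m E (Real.exp (-(211 / 100) * y)) - Gf (c0 - E)| ≤
      2 * Real.exp (-(11 / 1000) * y))
    (p2 : ∀ E, |Po m0 E (Real.exp (-(211 / 100) * y)) - Gf (c0 - E)| ≤
      Real.exp (-(11 / 1000) * y))
    (E s : ℝ) (hs : Real.exp (-(21 / 10) * y) ≤ s) :
    |m.real (Set.Icc (E - s) (E + s)) - m0.real (Set.Icc (E - s) (E + s))| ≤
      Real.exp (-(1 / 200) * y) * s := by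
  obtain ⟨t, ht⟩ : ∃ t, t = Real.exp (-(211 / 100) * y) := ⟨_, rfl⟩
  obtain ⟨e3, he3⟩ : ∃ e3, e3 = Real.exp (-(11 / 1000) * y) := ⟨_, rfl⟩
  rw [← ht, ← he3] at p1 p2
  rw [← ht] at n3
  rw [← he3] at n1
  have ht0 : 0 < t := by rw [ht]; positivity
  have he30 : 0 < e3 := by rw [he3]; positivity
  have he31 : e3 ≤ 1 / 2 := by
    have h1 : Real.exp (-(1 / 200) * y) ≤ 1 := Real.exp_le_one_iff.2 (by linarith)
    linarith
  have hs0 : 0 < s := lt_of_lt_of_le (Real.exp_pos _) hs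
  obtain ⟨N, hN⟩ : ∃ N : ℕ, N = ⌈4 * y⌉₊ := ⟨_, rfl⟩
  have hN1 : 4 * y ≤ N := by rw [hN]; exact Nat.le_ceil _
  have hN2 : (N : ℝ) ≤ 4 * y + 1 := by
    rw [hN]
    exact (Nat.ceil_lt_add_one (by linarith)).le
  have hpow : (1 / 2 : ℝ) ^ N ≤ t := by
    have h1 : (1 / 2 : ℝ) ^ N = Real.exp (-(N * Real.log 2)) := by
      rw [Real.exp_neg, mul_comm, Real.exp_mul, Real.exp_log (by norm_num), Real.rpow_natCast,
        one_div, inv_pow]
    rw [h1, ht]
    apply Real.exp_le_exp.2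
    have h2 := Real.log_two_gt_d9
    have h3 : 4 * y * 0.69 ≤ N * Real.log 2 := mul_le_mul hN1 (by linarith) (by norm_num)
      (by positivity)
    linarith
  have hc := meas_compare m m0 hmass hmass0 t (K + 1) (3 * e3) ht0
    (fun E => by
      have h1 := (abs_le.1 (p1 E)).2
      have h2 := (abs_le.1 (hG (c0 - E))).2
      linarith)
    (fun E => by
      have h1 := (abs_le.1 (p2 E)).2
      have h2 := (abs_le.1 (hG (c0 - E))).2
      linarith)
    (fun E => by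
      have h1 := p1 E
      have h2 := p2 E
      have h4 := abs_sub_le (Po m E t) (Gf (c0 - E)) (Po m0 E t)
      rw [abs_sub_comm (Gf (c0 - E)) (Po m0 E t)] at h4
      linarith) E s hs0.le N
  refine hc.trans ?_
  have q1 : (3 * e3) * s ≤ 1 / 2 * Real.exp (-(1 / 200) * y) * s := by
    apply mul_le_mul_of_nonneg_right _ hs0.le
    linarith
  have q2 : 4 * ((N + 1 : ℝ) * (8 * (K + 1) * t) + 2 * (1 / 2 : ℝ) ^ N) ≤
      1 / 2 * Real.exp (-(1 / 200) * y) * s := by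
    calc 4 * ((N + 1 : ℝ) * (8 * (K + 1) * t) + 2 * (1 / 2 : ℝ) ^ N) ≤
        4 * ((6 * y) * (8 * (2 * K) * t) + 2 * t) := by
          have h1 : (N : ℝ) + 1 ≤ 6 * y := by linarith
          have h2 : K + 1 ≤ 2 * K := by linarith
          gcongr
      _ ≤ 400 * K * y * t := by
          have h3 : t ≤ K * y * t := by
            apply le_mul_of_one_le_left ht0.le
            exact one_le_mul_of_one_le_of_one_le hK hy1
          linarith
      _ = 1 / 2 * (800 * K * y * t) := by ring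
      _ ≤ 1 / 2 * Real.exp (-(421 / 200) * y) := by linarith
      _ = 1 / 2 * Real.exp (-(1 / 200) * y) * Real.exp (-(21 / 10) * y) := by
          rw [mul_assoc, ← Real.exp_add]
          congr 2
          ring
      _ ≤ _ := by gcongr
  linarith

/-! ### the smoothing estimate -/

/-- the tent -/
noncomputable def tent (a : Zd d) (r : ℝ) (x : Zd d) : ℝ := max (1 - ‖x - a‖ / r) 0

theorem tent_nonneg (a : Zd d) (r : ℝ) (x : Zd d) : 0 ≤ tent a r x := le_max_right _ _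

theorem tent_le (a : Zd d) (r : ℝ) (hr : 0 < r) (x : Zd d) : tent a r x ≤ 1 := by
  refine max_le ?_ zero_le_one
  have : 0 ≤ ‖x - a‖ / r := by positivity
  linarith

theorem tent_self (a : Zd d) (r : ℝ) : tent a r a = 1 := by
  unfold tent
  rw [sub_self, norm_zero, zero_div, sub_zero, max_eq_left zero_le_one]

theorem tent_far (a : Zd d) (r : ℝ) (hr : 0 < r) (x : Zd d) (h : r ≤ ‖x - a‖) :
    tent a r x = 0 := by
  unfold tent
  apply max_eq_right
  have : 1 ≤ ‖x - a‖ / r := (one_le_div hr).2 h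
  linarith

theorem tent_diff (a : Zd d) (r : ℝ) (hr : 0 < r) (x y : Zd d) (h : ‖x - y‖ ≤ 1) :
    |tent a r x - tent a r y| ≤ 1 / r := by
  unfold tent
  refine (abs_max_sub_max_le_max _ _ _ _).trans ?_
  rw [sub_self, abs_zero]
  refine max_le ?_ (by positivity)
  have e1 : 1 - ‖x - a‖ / r - (1 - ‖y - a‖ / r) = -((‖x - a‖ - ‖y - a‖) / r) := by ring
  rw [e1, abs_neg, abs_div, abs_of_pos hr]
  apply div_le_div_of_nonneg_right _ hr.le
  refine (abs_norm_sub_norm_le _ _).trans ?_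
  have : x - a - (y - a) = x - y := by abel
  rw [this]
  exact h

/-- the smoothing estimate only depends on the potential in a box, up to constants -/
theorem SM1_cut (σ' σ ρ R t g : ℝ) (ξ' ξ : Zd d → ℝ) (ht : 0 < t) (hg : 0 ≤ g) (hR : 0 < R)
    (hρ : ρ ≤ R / 2) (hV : ∀ x, ‖x‖ ≤ R → σ * ξ x = σ' * ξ' x)
    (hRt : 16 * (d : ℝ) ^ 2 * 4 ≤ 5 * t ^ 2 * R ^ 2)
    (h : SM1 d σ' ρ t g ξ') : SM1 d σ ρ t (2 * g) ξ := by
  intro E u f hu hf heq a ha
  obtain ⟨r, hr⟩ : ∃ r, r = R / 2 := ⟨_, rfl⟩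
  have hr0 : 0 < r := by rw [hr]; positivity
  obtain ⟨χ, hχ⟩ : ∃ χ, χ = tent a r := ⟨_, rfl⟩
  have hχ0 : ∀ x, 0 ≤ χ x := fun x => by rw [hχ]; exact tent_nonneg a r x
  have hχ1 : ∀ x, χ x ≤ 1 := fun x => by rw [hχ]; exact tent_le a r hr0 x
  have hχa : χ a = 1 := by rw [hχ]; exact tent_self a r
  have hχd : ∀ x y : Zd d, ‖x - y‖ ≤ 1 → |χ x - χ y| ≤ 1 / r := fun x y h => by
    rw [hχ]
    exact tent_diff a r hr0 x y h
  have hχf : ∀ x, χ x ≠ 0 → ‖x‖ ≤ R := by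
    intro x hx
    by_contra hxR
    apply hx
    rw [hχ]
    apply tent_far a r hr0
    have h1 := norm_add_le (x - a) a
    rw [sub_add_cancel] at h1
    linarith
  -- the functions
  obtain ⟨v, hv⟩ : ∃ v : Zd d → ℝ, v = fun x => χ x * u x := ⟨_, rfl⟩
  have hvx : ∀ x, v x = χ x * u x := fun x => by rw [hv]
  obtain ⟨q, hq⟩ : ∃ q : Zd d → ℝ, q = fun x => ∑ i : Fin d,
    ((χ (x + Pi.single i 1) - χ x) * u (x + Pi.single i 1) +
      (χ (x - Pi.single i 1) - χ x) * u (x - Pi.single i 1)) := ⟨_, rfl⟩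
  have hqx : ∀ x, q x = ∑ i : Fin d,
    ((χ (x + Pi.single i 1) - χ x) * u (x + Pi.single i 1) +
      (χ (x - Pi.single i 1) - χ x) * u (x - Pi.single i 1)) := fun x => by rw [hq]
  have hsh : ∀ e' : Zd d, HasSum (fun x => u (x + e') ^ 2) (∑' x, u x ^ 2) := by
    intro e'
    exact (Equiv.addRight e').hasSum_iff.2 hu.hasSum
  have hQ : HasSum (fun x : Zd d => 2 * d * (1 / r) ^ 2 * ∑ i : Fin d,
      (u (x + Pi.single i 1) ^ 2 + u (x - Pi.single i 1) ^ 2))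
      (2 * d * (1 / r) ^ 2 * (2 * d * ∑' x, u x ^ 2)) := by
    apply HasSum.mul_left
    have h1 : ∀ i ∈ (Finset.univ : Finset (Fin d)),
        HasSum (fun x : Zd d => u (x + Pi.single i 1) ^ 2 + u (x - Pi.single i 1) ^ 2)
          (2 * ∑' x, u x ^ 2) := by
      intro i _
      have h2 := (hsh (Pi.single i 1 : Zd d)).add (hsh (-(Pi.single i 1 : Zd d)))
      simp only [← sub_eq_add_neg] at h2
      rw [two_mul]
      exact h2
    have h2 := hasSum_sum h1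
    simp only [Finset.sum_const, Finset.card_univ, Fintype.card_fin, nsmul_eq_mul] at h2
    have e1 : 2 * d * ∑' x, u x ^ 2 = d * (2 * ∑' x, u x ^ 2) := by ring
    rw [e1]
    exact h2
  have hqb : ∀ x, q x ^ 2 ≤ 2 * d * (1 / r) ^ 2 * ∑ i : Fin d,
      (u (x + Pi.single i 1) ^ 2 + u (x - Pi.single i 1) ^ 2) := by
    intro x
    rw [hqx]
    refine (sq_sum_le_card_mul_sum_sq).trans ?_
    rw [Finset.card_univ, Fintype.card_fin]
    have e1 : 2 * (d : ℝ) * (1 / r) ^ 2 * ∑ i : Fin d,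
        (u (x + Pi.single i 1) ^ 2 + u (x - Pi.single i 1) ^ 2) = (d : ℝ) * ∑ i : Fin d,
        2 * (1 / r) ^ 2 * (u (x + Pi.single i 1) ^ 2 + u (x - Pi.single i 1) ^ 2) := by
      rw [← Finset.mul_sum]
      ring
    rw [e1]
    apply mul_le_mul_of_nonneg_left _ (Nat.cast_nonneg d)
    refine Finset.sum_le_sum fun i _ => ?_
    have hs := norm_single_le (d := d) i
    have a1 := hχd (x + Pi.single i 1) x (by rw [add_sub_cancel_left]; exact hs)
    have a2 := hχd (x - Pi.single i 1) x (by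
      have : x - Pi.single i 1 - x = -Pi.single i 1 := by abel
      rw [this, norm_neg]
      exact hs)
    have b1 : (χ (x + Pi.single i 1) - χ x) ^ 2 ≤ (1 / r) ^ 2 := sq_le_sq' (by
      linarith [(abs_le.1 a1).1]) (abs_le.1 a1).2
    have b2 : (χ (x - Pi.single i 1) - χ x) ^ 2 ≤ (1 / r) ^ 2 := sq_le_sq' (by
      linarith [(abs_le.1 a2).1]) (abs_le.1 a2).2
    have c1 := mul_le_mul_of_nonneg_right b1 (sq_nonneg (u (x + Pi.single i 1)))
    have c2 := mul_le_mul_of_nonneg_right b2 (sq_nonneg (u (x - Pi.single i 1)))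
    nlinarith [sq_nonneg ((χ (x + Pi.single i 1) - χ x) * u (x + Pi.single i 1) -
      (χ (x - Pi.single i 1) - χ x) * u (x - Pi.single i 1))]
  have hsq : Summable fun x => q x ^ 2 :=
    Summable.of_nonneg_of_le (fun x => sq_nonneg _) hqb hQ.summable
  have hq2 : ∑' x, q x ^ 2 ≤ 2 * d * (1 / r) ^ 2 * (2 * d * ∑' x, u x ^ 2) := by
    rw [← hQ.tsum_eq]
    exact hsq.tsum_le_tsum hqb hQ.summable
  have hv2 : ∀ x, v x ^ 2 ≤ u x ^ 2 := by
    intro x
    rw [hvx, mul_pow]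
    have : χ x ^ 2 ≤ 1 := pow_le_one₀ (hχ0 x) (hχ1 x)
    nlinarith [sq_nonneg (u x)]
  have hsv : Summable fun x => v x ^ 2 := Summable.of_nonneg_of_le (fun x => sq_nonneg _) hv2 hu
  obtain ⟨w, hw⟩ : ∃ w : Zd d → ℝ, w = fun x => χ x * f x + q x := ⟨_, rfl⟩
  have hw2 : ∀ x, w x ^ 2 ≤ 2 * f x ^ 2 + 2 * q x ^ 2 := by
    intro x
    rw [hw]
    simp only
    have : χ x ^ 2 ≤ 1 := pow_le_one₀ (hχ0 x) (hχ1 x)
    nlinarith [sq_nonneg (f x), sq_nonneg (χ x * f x - q x)]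
  have hsw : Summable fun x => w x ^ 2 := Summable.of_nonneg_of_le (fun x => sq_nonneg _) hw2
    ((hf.mul_left 2).add (hsq.mul_left 2))
  have hw3 : ∑' x, w x ^ 2 ≤ 2 * ∑' x, f x ^ 2 + 2 * ∑' x, q x ^ 2 := by
    rw [← tsum_mul_left, ← tsum_mul_left, ← (hf.mul_left 2).tsum_add (hsq.mul_left 2)]
    exact hsw.tsum_le_tsum hw2 ((hf.mul_left 2).add (hsq.mul_left 2))
  have hveq : ∀ x, ∑ i, (v (x + Pi.single i 1) + v (x - Pi.single i 1)) + σ' * ξ' x * v x =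
      E * v x + w x := by
    intro x
    have e1 : ∑ i, (v (x + Pi.single i 1) + v (x - Pi.single i 1)) =
        χ x * ∑ i, (u (x + Pi.single i 1) + u (x - Pi.single i 1)) + q x := by
      rw [hqx, Finset.mul_sum, ← Finset.sum_add_distrib]
      refine Finset.sum_congr rfl fun i _ => ?_
      rw [hvx, hvx]
      ring
    have e2 : σ' * ξ' x * v x = σ * ξ x * v x := by
      by_cases hx : χ x = 0
      · rw [hvx, hx]
        ring
      · rw [hV x (hχf x hx)]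
    rw [e1, e2, hw, hvx]
    simp only
    linear_combination (χ x) * heq x
  have h1 := h E v w hsv hsw hveq a ha
  rw [hvx, hχa, one_mul] at h1
  have hV2 : ∑' x, v x ^ 2 ≤ ∑' x, u x ^ 2 := hsv.tsum_le_tsum hv2 hu
  obtain ⟨U, hU⟩ : ∃ U, U = ∑' x, u x ^ 2 := ⟨_, rfl⟩
  obtain ⟨F, hF⟩ : ∃ F, F = ∑' x, f x ^ 2 := ⟨_, rfl⟩
  rw [← hU] at hV2 hq2
  rw [← hF] at hw3
  rw [← hU, ← hF]
  have hU0 : 0 ≤ U := by rw [hU]; exact tsum_nonneg fun x => sq_nonneg _
  have hF0 : 0 ≤ F := by rw [hF]; exact tsum_nonneg fun x => sq_nonneg _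
  have hq3 : 4 * t⁻¹ * ∑' x, q x ^ 2 ≤ 5 * t * U := by
    have h2 : 4 * t⁻¹ * ∑' x, q x ^ 2 ≤ 4 * t⁻¹ * (2 * d * (1 / r) ^ 2 * (2 * d * U)) := by gcongr
    refine h2.trans ?_
    have h3 : 4 * t⁻¹ * (2 * d * (1 / r) ^ 2 * (2 * d * U)) =
        (16 * (d : ℝ) ^ 2 * 4) / (t * R ^ 2) * U := by
      rw [hr]
      field_simp
      ring
    rw [h3]
    apply mul_le_mul_of_nonneg_right _ hU0
    rw [div_le_iff₀ (by positivity)]
    linarith
  refine h1.trans ?_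
  have h4 : 5 * t * ∑' x, v x ^ 2 + 2 * t⁻¹ * ∑' x, w x ^ 2 ≤
      2 * (5 * t * U + 2 * t⁻¹ * F) := by
    have h5 : 5 * t * ∑' x, v x ^ 2 ≤ 5 * t * U := by gcongr
    have h6 : 2 * t⁻¹ * ∑' x, w x ^ 2 ≤ 2 * t⁻¹ * (2 * F + 2 * ∑' x, q x ^ 2) := by gcongr
    have h7 : 2 * t⁻¹ * (2 * F + 2 * ∑' x, q x ^ 2) = 4 * t⁻¹ * F + 4 * t⁻¹ * ∑' x, q x ^ 2 := by
      ring
    linarith
  calc g * (5 * t * ∑' x, v x ^ 2 + 2 * t⁻¹ * ∑' x, w x ^ 2) ≤
      g * (2 * (5 * t * U + 2 * t⁻¹ * F)) := by gcongr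
    _ = _ := by ring

end Pool.Agent.Q204.GA
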