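import Pool.Agent.Q204.GA.LocG

/-! The operators `S + V` with a Gaussian potential: resolvents, comparison, spectral measures. -/

set_option autoImplicit false
set_option linter.unusedSectionVars false

open scoped BigOperators ENNReal
open MeasureTheory ProbabilityTheory

namespace Pool.Agent.Q204.GA

open Pool.Agent.W788.LD.Spec (S)
open Pool.Agent.H4R2.LO (Zd bx)
open Pool.Agent.Y661.BG (cl cl_abs)
open Pool.Agent.TH794.QE (Rs rs_exists)
open Pool.Agent.TH794.LL2 (LG Po Po_im mass_le)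
open Pool.Agent.W788.BK.Num (ev2)

variable {d : ℕ}

/-- the resolvent function of `S + V` at `e + i t` -/
structure Rp (d : ℕ) (V : Zd d → ℝ) (a : Zd d) (e t : ℝ) (u : Zd d → ℂ) : Prop where
  sq : Summable fun x => ‖u x‖ ^ 2
  eq : ∀ x, S u x + (V x : ℂ) * u x - ((e : ℂ) + (t : ℂ) * Complex.I) * u x =
    if x = a then 1 else 0

theorem S_negconj (u : Zd d → ℂ) (x : Zd d) :
    S (fun y => -(starRingEnd ℂ) (u y)) x = -(starRingEnd ℂ) (S u x) := by
  unfold S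
  rw [map_sum, ← Finset.sum_neg_distrib]
  refine Finset.sum_congr rfl fun i _ => ?_
  rw [map_add]
  ring

theorem Rp.toRs {V : Zd d → ℝ} {a : Zd d} {e t : ℝ} {u : Zd d → ℂ} (h : Rp d V a e t u) :
    Rs d (fun x => -V x) a (-e) t fun x => -(starRingEnd ℂ) (u x) := by
  refine ⟨?_, fun x => ?_⟩
  · simpa using h.sq
  · rw [S_negconj]
    have h1 := congrArg (starRingEnd ℂ) (h.eq x)
    simp only [map_sub, map_add, map_mul, Complex.conj_ofReal, Complex.conj_I] at h1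
    have h2 : (starRingEnd ℂ) (if x = a then (1 : ℂ) else 0) = if x = a then 1 else 0 := by
      split_ifs <;> simp
    rw [h2] at h1
    rw [← h1]
    push_cast
    ring

theorem Rs.toRp {V : Zd d → ℝ} {a : Zd d} {e t : ℝ} {u : Zd d → ℂ}
    (h : Rs d (fun x => -V x) a (-e) t u) : Rp d V a e t fun x => -(starRingEnd ℂ) (u x) := by
  refine ⟨?_, fun x => ?_⟩
  · simpa using h.sq
  · rw [S_negconj]
    have h1 := congrArg (starRingEnd ℂ) (h.eq x)
    simp only [map_sub, map_add, map_mul, Complex.conj_ofReal, Complex.conj_I, map_neg,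
      Complex.ofReal_neg] at h1
    have h2 : (starRingEnd ℂ) (if x = a then (1 : ℂ) else 0) = if x = a then 1 else 0 := by
      split_ifs <;> simp
    rw [h2] at h1
    rw [← h1]
    ring

theorem rp_exists (V : Zd d → ℝ) (B : ℝ) (hV : ∀ x, |V x| ≤ B) (a : Zd d) (e t : ℝ)
    (ht : 0 < t) : ∃ u : Zd d → ℂ, Rp d V a e t u := by
  obtain ⟨u, hu⟩ := rs_exists (fun x => -V x) B (fun x => by rw [abs_neg]; exact hV x) a (-e) t ht
  exact ⟨_, Rs.toRp hu⟩

theorem Rp.lg {V ξ : Zd d → ℝ} {σ : ℝ} (hV : ∀ x, V x = σ * ξ x) {a : Zd d} {e t : ℝ}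
    {u : Zd d → ℂ} (h : Rp d V a e t u) :
    LG d σ ξ a e t (fun x => (u x).re) (fun x => (u x).im) := by
  have hn : ∀ x, ‖u x‖ ^ 2 = (u x).re ^ 2 + (u x).im ^ 2 := by
    intro x
    rw [← Complex.normSq_eq_norm_sq, Complex.normSq_apply]
    ring
  refine ⟨?_, ?_, ?_, ?_⟩
  · refine Summable.of_nonneg_of_le (fun x => sq_nonneg _) (fun x => ?_) h.sq
    rw [hn x]
    nlinarith [sq_nonneg (u x).im]
  · refine Summable.of_nonneg_of_le (fun x => sq_nonneg _) (fun x => ?_) h.sq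
    rw [hn x]
    nlinarith [sq_nonneg (u x).re]
  · intro x
    have h3 := congrArg Complex.re (h.eq x)
    have h4 : (if x = a then (1 : ℂ) else 0).re = if x = a then 1 else 0 := by
      by_cases hx : x = a
      · rw [if_pos hx, if_pos hx, Complex.one_re]
      · rw [if_neg hx, if_neg hx, Complex.zero_re]
    rw [h4, hV x] at h3
    simp [S] at h3
    linarith
  · intro x
    have h3 := congrArg Complex.im (h.eq x)
    have h4 : (if x = a then (1 : ℂ) else 0).im = 0 := by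
      by_cases hx : x = a
      · rw [if_pos hx, Complex.one_im]
      · rw [if_neg hx, Complex.zero_im]
    rw [h4, hV x] at h3
    simp [S] at h3
    linarith

/-- the comparison of the resolvents -/
theorem rp_cmp (σ κ R B t e : ℝ) (hσ : 0 ≤ σ) (hκ : 0 < κ) (hB : 0 ≤ B)
    (hR : 32 / κ ^ 2 ≤ R) (hR2 : 2 ≤ R) (ht : 0 < t) (hκt : 2 * d * (Real.exp κ - 1) ≤ t / 2)
    (ξ : Zd d → ℝ) (hξ : ξ ∈ Gr d B R) (a : Zd d) (ha : ‖a‖ ≤ R / 2) (u u' : Zd d → ℂ)
    (h : Rp d (fun x => σ * ξ x) a e t u)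
    (h' : Rp d (fun x => σ * cl B (ξ x)) a e t u') :
    (Summable fun x => ‖u x - u' x‖ ^ 2) ∧
    ∑' x, ‖u x - u' x‖ ^ 2 ≤ (2 * (σ * (B * Real.exp (-(κ * R / 8)))) * (t⁻¹) ^ 2) ^ 2 := by
  have h1 := cmp ht h.toRs h'.toRs κ (σ * (B * Real.exp (-(κ * R / 8)))) hκ.le hκt fun x => by
    have e1 : -(σ * ξ x) - -(σ * cl B (ξ x)) = -(σ * (ξ x - cl B (ξ x))) := by ring
    rw [e1, abs_neg, abs_mul, abs_of_nonneg hσ, mul_assoc]
    apply mul_le_mul_of_nonneg_left _ hσ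
    exact (clip_diff B R hB ξ hξ x).trans (eps_geo κ R B hκ hB hR hR2 a x ha)
  have e2 : ∀ x, ‖-(starRingEnd ℂ) (u x) - -(starRingEnd ℂ) (u' x)‖ = ‖u x - u' x‖ := by
    intro x
    have e3 : -(starRingEnd ℂ) (u x) - -(starRingEnd ℂ) (u' x) =
        -(starRingEnd ℂ) (u x - u' x) := by
      rw [map_sub]
      ring
    rw [e3, norm_neg, Complex.norm_conj]
  simp only [e2] at h1
  exact h1

theorem rp_cmp_pt (σ κ R B t e : ℝ) (hσ : 0 ≤ σ) (hκ : 0 < κ) (hB : 0 ≤ B)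
    (hR : 32 / κ ^ 2 ≤ R) (hR2 : 2 ≤ R) (ht : 0 < t) (hκt : 2 * d * (Real.exp κ - 1) ≤ t / 2)
    (ξ : Zd d → ℝ) (hξ : ξ ∈ Gr d B R) (a : Zd d) (ha : ‖a‖ ≤ R / 2) (u u' : Zd d → ℂ)
    (h : Rp d (fun x => σ * ξ x) a e t u)
    (h' : Rp d (fun x => σ * cl B (ξ x)) a e t u') (x : Zd d) :
    ‖u x - u' x‖ ≤ 2 * (σ * (B * Real.exp (-(κ * R / 8)))) * (t⁻¹) ^ 2 := by
  obtain ⟨h1, h2⟩ := rp_cmp σ κ R B t e hσ hκ hB hR hR2 ht hκt ξ hξ a ha u u' h h'
  have h3 := (h1.le_tsum x fun y _ => sq_nonneg _).trans h2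
  exact le_of_sq_le_sq h3 (by positivity)

/-- `m` is the spectral measure of `δ_a` for `S + V` -/
def ResP (d : ℕ) (V : Zd d → ℝ) (a : Zd d) (m : Measure ℝ) : Prop :=
  ∀ z : ℂ, z.im ≠ 0 → ∃ u : Zd d → ℂ, (Summable fun x => ‖u x‖ ^ 2) ∧
      (∀ x, S u x + (V x : ℂ) * u x - z * u x = if x = a then 1 else 0) ∧
      ∫ t : ℝ, ((t : ℂ) - z)⁻¹ ∂m = u a

theorem ResP.rp {V : Zd d → ℝ} {a : Zd d} {m : Measure ℝ} [IsFiniteMeasure m] (h : ResP d V a m)
    (E t : ℝ) (ht : 0 < t) : ∃ u : Zd d → ℂ, Rp d V a E t u ∧ Po m E t = (u a).im := by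
  obtain ⟨u, hu, heq, hint⟩ := h ((E : ℂ) + (t : ℂ) * Complex.I) (by simp [ht.ne'])
  refine ⟨u, ⟨hu, heq⟩, ?_⟩
  have h1 := Po_im m E t ht
  rw [hint] at h1
  exact h1.symm

theorem ResP.mass {V : Zd d → ℝ} {a : Zd d} {m : Measure ℝ} [IsFiniteMeasure m]
    (h : ResP d V a m) : m.real Set.univ ≤ 1 := by
  apply mass_le
  intro t ht
  obtain ⟨u, hu, hPo⟩ := h.rp 0 t ht
  have hLG := hu.lg (σ := 1) (ξ := V) (fun x => (one_mul _).symm)
  have h2 := hLG.ward
  have h1 := hLG.norm ht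
  rw [hPo, ← h2]
  calc t * (t * (∑' x, (u x).re ^ 2 + ∑' x, (u x).im ^ 2)) ≤ t * (t * (t⁻¹) ^ 2) := by gcongr
    _ = 1 := by field_simp

/-- the spectral measure of the Gaussian operator: its Poisson integral -/
theorem po_gaussP (σ κ R B t c' : ℝ) (hσ : 0 ≤ σ) (hκ : 0 < κ) (hB : 0 < B)
    (hR : 32 / κ ^ 2 ≤ R) (hR2 : 2 ≤ R) (ht : 0 < t) (hκt : 2 * d * (Real.exp κ - 1) ≤ t / 2)
    (hc' : c' = σ * B)
    (ξ : Zd d → ℝ) (hξ : ξ ∈ Gr d B R) (a : Zd d) (ha : ‖a‖ ≤ R / 2)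
    (m : Measure ℝ) [IsFiniteMeasure m] (hm : ResP d (fun x => σ * ξ x) a m)
    (Gf : ℝ → ℝ) (e1 : ℝ)
    (hL : ∀ (E : ℝ) (ur ui : Zd d → ℝ),
      LG d c' (fun x => cl B (ξ x) / B) a E t ur ui → |ui a - Gf E| ≤ e1) (E : ℝ) :
    |Po m E t - Gf E| ≤ e1 + 2 * (σ * (B * Real.exp (-(κ * R / 8)))) * (t⁻¹) ^ 2 := by
  obtain ⟨u', hu'⟩ := rp_exists (fun x => σ * cl B (ξ x)) (σ * B) (fun x => by
    rw [abs_mul, abs_of_nonneg hσ]
    have := cl_abs B hB.le (ξ x)
    gcongr) a E t ht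
  obtain ⟨u, hRu, hPo⟩ := hm.rp E t ht
  have hpt := rp_cmp_pt σ κ R B t E hσ hκ hB.le hR hR2 ht hκt ξ hξ a ha u u' hRu hu' a
  have hLG := hu'.lg (σ := c') (ξ := fun x => cl B (ξ x) / B) (fun x => by
    rw [hc']
    field_simp)
  have h6 := hL _ _ _ hLG
  rw [hPo]
  have h7 := Complex.abs_im_le_norm (u a - u' a)
  rw [Complex.sub_im] at h7
  have h8 := abs_sub_le (u a).im (u' a).im (Gf E)
  linarith

/-! ### the good set -/

/-- the good Gaussian potentials -/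
def Gd (d : ℕ) (B R : ℝ) (G : Set (Zd d → ℝ)) : Set (Zd d → ℝ) :=
  Gr d B R ∩ {ξ | (fun x => cl B (ξ x) / B) ∈ G}

theorem Gd_prob (d : ℕ) : ∃ C : ℝ, 0 < C ∧ ∀ B R ε : ℝ, 1 ≤ B → 1 ≤ R → ∀ G : Set (Zd d → ℝ),
    MeasurableSet G → 1 - ε ≤ (Measure.infinitePi fun _ : Zd d => nub B).real G →
    MeasurableSet (Gd d B R G) ∧
    1 - (C * R ^ d * Real.exp (-(B ^ 2 / 2)) + ε) ≤ (PG d).real (Gd d B R G) := by
  obtain ⟨C, hC, h⟩ := Gr_prob d
  refine ⟨C, hC, fun B R ε hB hR G hG hP => ?_⟩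
  obtain ⟨m1, e1⟩ := clip_event B G hG
  have m2 := Gr_meas (d := d) B R
  refine ⟨m2.inter m1, ?_⟩
  have h1 := h B R hB hR
  rw [← e1] at hP
  have h2 : (Gd d B R G)ᶜ = (Gr d B R)ᶜ ∪ {ξ | (fun x => cl B (ξ x) / B) ∈ G}ᶜ := by
    unfold Gd
    rw [Set.compl_inter]
  have h3 := measureReal_union_le (μ := PG d) (Gr d B R)ᶜ {ξ | (fun x => cl B (ξ x) / B) ∈ G}ᶜ
  rw [← h2] at h3
  have h4 := probReal_add_probReal_compl (μ := PG d) (m2.inter m1)
  have h5 := probReal_add_probReal_compl (μ := PG d) m2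
  have h6 := probReal_add_probReal_compl (μ := PG d) m1
  have h7 : (PG d).real (Gr d B R ∩ {ξ | (fun x => cl B (ξ x) / B) ∈ G})ᶜ =
    (PG d).real (Gd d B R G)ᶜ := rfl
  rw [h7] at h4
  have h8 : (PG d).real (Gr d B R ∩ {ξ | (fun x => cl B (ξ x) / B) ∈ G}) =
    (PG d).real (Gd d B R G) := rfl
  rw [h8] at h4
  linarith

/-! ### numerics -/

/-- the probability -/
theorem pnum (C : ℝ) (hC : 0 < C) (d : ℕ) (p q r : ℝ) (hp : 0 < p) (hq0 : 0 ≤ q) (hq : q < p)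
    (hr : p < r) : ∀ᶠ y : ℝ in Filter.atTop,
    C * (2 * Real.exp (Real.exp (p * y))) ^ d * Real.exp (-(Real.exp (r * y) / 2)) +
      Real.exp (-Real.exp (p * y)) ≤ Real.exp (-Real.exp (q * y)) := by
  obtain ⟨M, hM⟩ : ∃ M, M = max (Real.log (C * 2 ^ d)) 0 := ⟨_, rfl⟩
  have hM0 : 0 ≤ M := by rw [hM]; exact le_max_right _ _
  have hM1 : C * 2 ^ d ≤ Real.exp M := by
    rw [← Real.log_le_iff_le_exp (by positivity), hM]
    exact le_max_left _ _
  filter_upwards [ev2 (2 * d + 4 + 2 * M) p r 0 hr, ev2 2 q p 0 hq,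
    Filter.eventually_ge_atTop 0] with y h1 h2 hy
  simp only [pow_zero, mul_one] at h1 h2
  obtain ⟨A, hA⟩ : ∃ A, A = Real.exp (p * y) := ⟨_, rfl⟩
  rw [← hA] at h1 h2 ⊢
  have hA1 : 1 ≤ A := by rw [hA]; exact Real.one_le_exp (by positivity)
  have hq1 : 1 ≤ Real.exp (q * y) := Real.one_le_exp (by positivity)
  have h3 : C * (2 * Real.exp A) ^ d * Real.exp (-(Real.exp (r * y) / 2)) ≤ Real.exp (-A) := by
    have e1 : C * (2 * Real.exp A) ^ d * Real.exp (-(Real.exp (r * y) / 2)) =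
        (C * 2 ^ d) * Real.exp (d * A - Real.exp (r * y) / 2) := by
      rw [mul_pow, ← Real.exp_nat_mul, sub_eq_add_neg, Real.exp_add]
      ring
    rw [e1]
    calc (C * 2 ^ d) * Real.exp (d * A - Real.exp (r * y) / 2) ≤
        Real.exp M * Real.exp (d * A - Real.exp (r * y) / 2) := by gcongr
      _ = Real.exp (M + (d * A - Real.exp (r * y) / 2)) := by rw [← Real.exp_add]
      _ ≤ Real.exp (-A) := by
        apply Real.exp_le_exp.2
        have : M * 1 ≤ M * A := by gcongr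
        nlinarith
  calc C * (2 * Real.exp A) ^ d * Real.exp (-(Real.exp (r * y) / 2)) + Real.exp (-A) ≤
      2 * Real.exp (-A) := by linarith
    _ ≤ Real.exp 1 * Real.exp (-A) := by
      have := Real.add_one_le_exp (1 : ℝ)
      gcongr
      linarith
    _ = Real.exp (1 - A) := by rw [← Real.exp_add, sub_eq_add_neg]
    _ ≤ _ := by
      apply Real.exp_le_exp.2
      linarith

/-- double exponentials -/
theorem dexp (C a p : ℝ) (hp : 0 < p) : ∀ᶠ y : ℝ in Filter.atTop,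
    C * Real.exp (a * y) ≤ Real.exp (Real.exp (p * y)) := by
  filter_upwards [ev2 1 0 (p / 2) 1 (by linarith), ev2 (|a| + 1) (p / 2) p 0 (by linarith),
    ev2 |C| 0 1 0 (by norm_num), Filter.eventually_ge_atTop 0] with y h1 h2 h3 hy
  simp only [pow_zero, mul_one, pow_one, one_mul, zero_mul, Real.exp_zero] at h1 h2 h3
  have h4 : (|a| + 1) * y ≤ Real.exp (p * y) :=
    (mul_le_mul_of_nonneg_left h1 (by positivity)).trans h2
  calc C * Real.exp (a * y) ≤ Real.exp y * Real.exp (|a| * y) := by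
        have h5 := le_abs_self C
        have h6 := le_abs_self a
        have h7 : a * y ≤ |a| * y := by gcongr
        have h8 := Real.exp_le_exp.2 h7
        have h9 : 0 ≤ |C| := abs_nonneg _
        calc C * Real.exp (a * y) ≤ |C| * Real.exp (a * y) := by gcongr
          _ ≤ Real.exp y * Real.exp (|a| * y) := by gcongr
    _ = Real.exp ((|a| + 1) * y) := by
        rw [← Real.exp_add]
        congr 1
        ring
    _ ≤ _ := Real.exp_le_exp.2 h4

/-- the parameters of the comparison: `t = exp (-α y)`, `κ = t / (8 d)`,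
`R = 2 exp (exp (p y))` -/
theorem cnum (d : ℕ) (hd : 1 ≤ d) (α p : ℝ) (hα : 0 < α) (hp : 0 < p) (g : ℝ) :
    ∀ᶠ y : ℝ in Filter.atTop, ∀ t κ R : ℝ, t = Real.exp (-α * y) → κ = t / (8 * d) →
      R = 2 * Real.exp (Real.exp (p * y)) →
      0 < κ ∧ 32 / κ ^ 2 ≤ R ∧ 2 ≤ R ∧ 2 * d * (Real.exp κ - 1) ≤ t / 2 ∧
      2 * Real.exp (-(κ * R / 8)) * (t⁻¹) ^ 2 ≤ Real.exp (-g * y) ∧
      16 * (d : ℝ) ^ 2 * 4 ≤ 5 * t ^ 2 * R ^ 2 := by
  have hd0 : (0 : ℝ) < d := by exact_mod_cast (by omega : 0 < d)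
  filter_upwards [dexp (2048 * d ^ 2) (2 * α) p hp, dexp (32 * d * 2) (α + 1) p hp,
    dexp (8 * d) α p hp,
    ev2 (g + 2 * α + 1) 0 1 1 (by norm_num), Filter.eventually_ge_atTop 1] with y h1 h2 h5 h3 hy t κ R
    ht hκ hR
  simp only [pow_one, zero_mul, Real.exp_zero, mul_one, one_mul] at h3
  have ht0 : 0 < t := by rw [ht]; positivity
  have ht1 : t ≤ 1 := by
    rw [ht]
    apply Real.exp_le_one_iff.2
    nlinarith
  have hd1 : (1 : ℝ) ≤ d := by exact_mod_cast hd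
  have hκ0 : 0 < κ := by rw [hκ]; positivity
  have hκ1 : κ ≤ 1 := by
    rw [hκ, div_le_one (by positivity)]
    linarith
  obtain ⟨X, hX⟩ : ∃ X, X = Real.exp (Real.exp (p * y)) := ⟨_, rfl⟩
  rw [← hX] at h1 h2 h5 hR
  have hX1 : 1 ≤ X := by
    rw [hX]
    exact Real.one_le_exp (Real.exp_pos _).le
  have hti : t⁻¹ = Real.exp (α * y) := by
    rw [ht, ← Real.exp_neg]
    congr 1
    ring
  have hti2 : (t⁻¹) ^ 2 = Real.exp (2 * α * y) := by
    rw [hti, sq, ← Real.exp_add]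
    congr 1
    ring
  refine ⟨hκ0, ?_, ?_, ?_, ?_, ?_⟩
  · have e1 : 32 / κ ^ 2 = 2048 * d ^ 2 * (t⁻¹) ^ 2 := by
      rw [hκ]
      field_simp
      ring
    rw [e1, hti2, hR]
    linarith
  · rw [hR]
    linarith
  · have h4 : Real.exp κ - 1 ≤ 2 * κ := by
      have h6 := Real.abs_exp_sub_one_sub_id_le (x := κ) (by rw [abs_of_pos hκ0]; exact hκ1)
      have h7 := (abs_le.1 h6).2
      nlinarith
    calc 2 * d * (Real.exp κ - 1) ≤ 2 * d * (2 * κ) := by gcongr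
      _ = t / 2 := by
        rw [hκ]
        field_simp
        ring
  · have h6 : (g + 2 * α + 1) * y ≤ κ * R / 8 := by
      refine h3.trans ?_
      have e2 : κ * R / 8 = t * X / (32 * d) := by
        rw [hκ, hR]
        field_simp
        ring
      rw [e2, le_div_iff₀ (by positivity)]
      have h8 : t * (32 * d * 2 * Real.exp ((α + 1) * y)) ≤ t * X := by gcongr
      have e3 : t * (32 * d * 2 * Real.exp ((α + 1) * y)) = 64 * d * Real.exp y := by
        have : Real.exp y = t * Real.exp ((α + 1) * y) := by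
          rw [ht, ← Real.exp_add]
          congr 1
          ring
        rw [this]
        ring
      rw [e3] at h8
      have : 0 ≤ (d : ℝ) * Real.exp y := by positivity
      linarith
    have h7 : Real.exp (-(κ * R / 8)) ≤ Real.exp (-((g + 2 * α + 1) * y)) := by
      apply Real.exp_le_exp.2
      linarith
    calc 2 * Real.exp (-(κ * R / 8)) * (t⁻¹) ^ 2 ≤
        Real.exp y * Real.exp (-((g + 2 * α + 1) * y)) * Real.exp (2 * α * y) := by
          rw [hti2]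
          have h9 := Real.add_one_le_exp y
          gcongr
          linarith
      _ = Real.exp (-g * y) := by
          rw [← Real.exp_add, ← Real.exp_add]
          congr 1
          ring
  · have h8 : t * (8 * d * Real.exp (α * y)) ≤ t * X := by gcongr
    have e3 : t * (8 * d * Real.exp (α * y)) = 8 * d := by
      rw [← hti]
      field_simp
    rw [e3] at h8
    have h9 : (8 * (d : ℝ)) ^ 2 ≤ (t * X) ^ 2 := by gcongr
    rw [hR]
    nlinarith

end Pool.Agent.Q204.GA
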